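import Pool.Agent.Helper64.RL.Defs

/-!
Averages over families of samples. A1: `avg_pi_eval`: every coordinate of a uniform family is
uniform (all fibres of evaluation have the same size; or split off the coordinate with
`Equiv.funSplitAt` / `Fintype.sum_equiv`). A2: `avg_mix`: the map
`(c, c') ↦ (mix c c', mix c' c)` is an involution of `(ι → Ω) × (ι → Ω)`, so by `avg_prod` and
`avg_equiv` the left side is the average of `F c` over the pairs `(c, c')`.
-/

namespace Pool.Agent.Helper64.RL

open Finset

set_option linter.unusedSectionVars false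
set_option linter.unusedVariables false

/-- A1 -/
theorem avg_pi_eval {ι Ω : Type} [Fintype ι] [DecidableEq ι] [Fintype Ω] [Nonempty Ω] (i : ι)
    (f : Ω → ℝ) : avg (fun c : ι → Ω => f (c i)) = avg f := by
  have h := avg_equiv (Equiv.funSplitAt i Ω) (fun p : Ω × ({j // j ≠ i} → Ω) => f p.1)
  have h2 : avg (fun c : ι → Ω => f (c i)) =
      avg (fun c : ι → Ω => (fun p : Ω × ({j // j ≠ i} → Ω) => f p.1)
        ((Equiv.funSplitAt i Ω) c)) := rfl
  rw [h2, h, avg_prod]
  congr 1
  funext ω
  exact avg_const (Ω := {j // j ≠ i} → Ω) (f ω)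

/-- A2: mixing two independent samples -/
theorem avg_mix {ι Ω : Type} [Fintype ι] [DecidableEq ι] [Fintype Ω] [Nonempty Ω] (S : ι → Prop)
    [DecidablePred S] (F : (ι → Ω) → ℝ) :
    avg (fun c : ι → Ω => avg (fun c' : ι → Ω => F (fun i => if S i then c i else c' i))) = avg F := by
  let e0 : (ι → Ω) × (ι → Ω) → (ι → Ω) × (ι → Ω) := fun p =>
    (fun i => if S i then p.1 i else p.2 i, fun i => if S i then p.2 i else p.1 i)
  have hinv : Function.Involutive e0 := by
    rintro ⟨c, c'⟩
    apply Prod.ext
    · funext i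
      by_cases h : S i <;> simp [e0, h]
    · funext i
      by_cases h : S i <;> simp [e0, h]
  let e : (ι → Ω) × (ι → Ω) ≃ (ι → Ω) × (ι → Ω) := hinv.toPerm
  have h1 : avg (fun c : ι → Ω => avg (fun c' : ι → Ω => F (fun i => if S i then c i else c' i))) =
      avg (fun p : (ι → Ω) × (ι → Ω) => (fun q : (ι → Ω) × (ι → Ω) => F q.1) (e p)) := by
    rw [avg_prod]
    rfl
  rw [h1, avg_equiv e (fun q : (ι → Ω) × (ι → Ω) => F q.1), avg_prod]
  congr 1
  funext c
  exact avg_const (Ω := ι → Ω) (F c)

end Pool.Agent.Helper64.RL
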