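import Pool.Agent.Helper64.RL.Step
import Pool.Agent.Helper55.RD.Good

/-!
K1: the first structure. Let `p` be the permutation of `Fin N`. `Ω = Fin N` (shifts `r`),
`α = Fin N`, `lt = (<)`, `P r x y := x = p y + r`, `Lab = Finset (Fin N)`,
`C S r x y := x = p y + r ∧ y ∈ S ∧ S` contains no pair `v, w` with
`Pool.Agent.Helper55.RD.Vis (fun b => p b + r) id v w`, `D r r' = if r = r' then 0 else N`. `SubG` is
`subG_range` with `V = N ^ 2`; `Robust`: same label if `r = r'`, otherwise the sum is at most the number
`N` of the points. `log (2 ^ N) ≤ N`. Uniformity: `r` is determined by `x`, `y`. `PropH` by `convert`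
with `η = (1 / 2) ^ 9`, `m = N`, `ε = 2 δ N`: for `f, g ≤ 1` the value of a label is at most the size of an
independent set, `≤ 2 δ N` by `Pool.Agent.Helper55.RD.shift_indep`. Cover: the set of the `y` with some
`(x, y)` in the given set.
-/

namespace Pool.Agent.Helper64.RL

open Finset

set_option linter.unusedSectionVars false
set_option linter.unusedVariables false

/-- the points of the shifted permutation -/
def baseP {N : ℕ} (p : Fin N → Fin N) : Fin N → Fin N → Fin N → Prop :=
  fun r x y => x = p y + r

/-- the labelled independent sets of the shifted permutation -/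
def baseC {N : ℕ} (p : Fin N → Fin N) : Finset (Fin N) → Fin N → Fin N → Fin N → Prop :=
  fun S r x y => x = p y + r ∧ y ∈ S ∧
    ∀ v ∈ S, ∀ w ∈ S, ¬ Pool.Agent.Helper55.RD.Vis (fun b => p b + r) id v w

theorem geo_base {N : ℕ} [NeZero N] {p : Fin N → Fin N} (hp : Function.Injective p) :
    Geo (fun x y : Fin N => x < y) (baseP p) (baseC p) where
  irrefl := fun x => lt_irrefl x
  trans := fun x y z h1 h2 => lt_trans h1 h2
  total := fun x y => lt_trichotomy x y
  inj1 := by
    intro r x y y' h1 h2
    unfold baseP at h1 h2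
    apply hp
    have : p y + r = p y' + r := h1.symm.trans h2
    exact add_right_cancel this
  inj2 := by
    intro r x x' y h1 h2
    exact h1.trans h2.symm
  sub := fun l r x y h => h.1
  cover := by
    classical
    intro r A hA hV
    refine ⟨Finset.univ.filter (fun y => ∃ x, A x y), ?_⟩
    intro x y hxy
    refine ⟨hA x y hxy, ?_, ?_⟩
    · rw [Finset.mem_filter]; exact ⟨Finset.mem_univ _, x, hxy⟩
    · intro v hv w hw hvis
      rw [Finset.mem_filter] at hv hw
      obtain ⟨-, a, ha⟩ := hv
      obtain ⟨-, b, hb⟩ := hw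
      have ha' : a = p v + r := hA a v ha
      have hb' : b = p w + r := hA b w hb
      obtain ⟨h1, h2, h3⟩ := hvis
      apply hV a v b w ha hb
      refine ⟨?_, h1, ?_⟩
      · show a < b
        rw [ha', hb']; exact h2
      · intro u c huc hau hub hvc hcw
        have hu : u = p c + r := huc
        rcases h3 c (le_of_lt hvc) (le_of_lt hcw)
          (by show p v + r ≤ p c + r; rw [← ha', ← hu]; exact le_of_lt hau)
          (by show p c + r ≤ p w + r; rw [← hb', ← hu]; exact le_of_lt hub) with h | h
        · rw [h] at hvc; exact lt_irrefl _ hvc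
        · rw [h] at hcw; exact lt_irrefl _ hcw

theorem sum_baseP {N : ℕ} [NeZero N] (p : Fin N → Fin N) (r : Fin N) (Q : Fin N → Prop) :
    ∑ x, ∑ y, ind (x = p y + r ∧ Q y) = ∑ y, ind (Q y) := by
  rw [Finset.sum_comm]
  apply Finset.sum_congr rfl
  intro y _
  rw [Finset.sum_eq_single (p y + r)]
  · rw [ind_and, ind_true rfl, one_mul]
  · intro x _ hx
    exact ind_false (fun h => hx h.1)
  · intro h; exact absurd (Finset.mem_univ _) h

open Classical in
/-- K1: the first structure -/
theorem Str.base {N : ℕ} {δ : ℝ} (hN : 0 < N)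
    (h : Pool.Agent.Helper55.RD.Good N (δ * N)) (hδ : 2 * δ ≤ (1 / 2) ^ 36) :
    Str N ((1 / 2) ^ 6) N (N ^ 2) 1 N := by
  have : NeZero N := ⟨hN.ne'⟩
  have : Nonempty (Fin N) := ⟨0⟩
  have hNr : (0 : ℝ) < N := by exact_mod_cast hN
  obtain ⟨p, hp, hS⟩ := h
  have hδ0 : 0 ≤ δ * N := by
    have := hS ∅ (by intro v hv; simp at hv)
    simpa using this
  have hgeo := geo_base hp
  have hker := hgeo.isKer
  have hcardN : (Fintype.card (Fin N) : ℝ) = N := by rw [Fintype.card_fin]
  -- uniformity
  have hU : PropU (kerP (baseP p)) (N : ℝ) := by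
    intro x y
    unfold avg
    rw [hcardN]
    apply div_le_div_of_nonneg_right _ hNr.le
    unfold kerP baseP
    rw [Finset.sum_eq_single (x - p y)]
    · exact ind_le_one _
    · intro r _ hr
      apply ind_false
      intro h
      apply hr
      rw [h]; abel
    · intro h; exact absurd (Finset.mem_univ _) h
  -- values are at most `2 δ N`
  have hval : ∀ (l : Finset (Fin N)) (r : Fin N), ∑ x, ∑ y, ker (baseC p) l r x y ≤ 2 * (δ * N) := by
    intro l r
    unfold ker baseC
    rw [sum_baseP p r (fun y => y ∈ l ∧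
      ∀ v ∈ l, ∀ w ∈ l, ¬ Pool.Agent.Helper55.RD.Vis (fun b => p b + r) id v w)]
    by_cases hl : ∀ v ∈ l, ∀ w ∈ l, ¬ Pool.Agent.Helper55.RD.Vis (fun b => p b + r) id v w
    · have h1 : ∀ y, ind (y ∈ l ∧
          ∀ v ∈ l, ∀ w ∈ l, ¬ Pool.Agent.Helper55.RD.Vis (fun b => p b + r) id v w) ≤
          if y ∈ l then (1 : ℝ) else 0 := by
        intro y
        by_cases hy : y ∈ l
        · rw [if_pos hy]; exact ind_le_one _
        · rw [if_neg hy, ind_false (fun h => hy h.1)]
      refine (Finset.sum_le_sum (fun y _ => h1 y)).trans ?_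
      rw [Finset.sum_ite_mem, Finset.univ_inter, Finset.sum_const, nsmul_eq_mul, mul_one]
      exact Pool.Agent.Helper55.RD.shift_indep p hS r l hl
    · rw [Finset.sum_eq_zero (fun y _ => ind_false (fun h => hl h.2))]
      linarith
  have hH : PropH (ker (baseC p)) ((1 / 2) ^ 6) := by
    have h1 : PropH (ker (baseC p)) (8 * (1 / 2) ^ 9) := by
      refine Pool.Agent.Helper64.RL.convert hker (p := kerP (baseP p))
        (fun l r x y => ind_mono (fun h => hgeo.sub l r x y h)) (by positivity) (by norm_num) hNr hU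
        (ε := 2 * (δ * N)) ?_ ?_
      · have : ((1 / 2 : ℝ) ^ 9) ^ 4 = (1 / 2) ^ 36 := by rw [← pow_mul]
        rw [this]
        calc 2 * (δ * N) = 2 * δ * N := by ring
          _ ≤ (1 / 2) ^ 36 * N := mul_le_mul_of_nonneg_right hδ hNr.le
      · intro f g hf hf1 hg hg1
        have h2 : avg (fun r => Mx (ker (baseC p)) r (fun x y => f x * g y)) ≤ 2 * (δ * N) := by
          apply avg_le_of
          intro r
          apply Mx_le
          intro l
          refine le_trans ?_ (hval l r)
          unfold val
          apply Finset.sum_le_sum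
          intro x _
          apply Finset.sum_le_sum
          intro y _
          have h3 : f x * g y ≤ 1 := mul_le_one₀ (hf1 x) (hg y) (hg1 y)
          have h4 : 0 ≤ ker (baseC p) l r x y := ind_nonneg _
          nlinarith
        have h3 : 0 ≤ (1 / 2) ^ 9 * nrm f * nrm g :=
          mul_nonneg (mul_nonneg (by positivity) (nrm_nonneg _)) (nrm_nonneg _)
        linarith
    have h2 : (8 : ℝ) * (1 / 2) ^ 9 = (1 / 2) ^ 6 := by norm_num
    rw [h2] at h1
    exact h1
  refine ⟨Fin N, Fin N, Finset (Fin N), inferInstance, inferInstance, inferInstance, inferInstance,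
    inferInstance, inferInstance, fun x y => x < y, baseP p, baseC p,
    fun ω ω' => if ω = ω' then (0 : ℝ) else N, hgeo, Fintype.card_fin N, hH, hU, ?_, ?_, ?_, ?_, ?_⟩
  · have := subG_range (Ω := Fin N) (R := (N : ℝ)) hNr.le
    convert this
  · intro ω; exact if_pos rfl
  · intro ω ω' l
    by_cases hω : ω = ω'
    · refine ⟨l, ?_⟩
      show _ ≤ (if ω = ω' then (0 : ℝ) else N)
      rw [if_pos hω, hω]
      simp
    · refine ⟨l, ?_⟩
      show _ ≤ (if ω = ω' then (0 : ℝ) else N)
      rw [if_neg hω]
      have h1 : ∀ x y, max (ker (baseC p) l ω x y - ker (baseC p) l ω' x y) 0 ≤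
          ker (baseC p) l ω x y := by
        intro x y
        apply max_le _ (hker.nonneg _ _ _ _)
        have := hker.nonneg l ω' x y
        linarith
      calc ∑ x, ∑ y, max (ker (baseC p) l ω x y - ker (baseC p) l ω' x y) 0
          ≤ ∑ x, ∑ y, ker (baseC p) l ω x y :=
            Finset.sum_le_sum (fun x _ => Finset.sum_le_sum (fun y _ => h1 x y))
        _ ≤ ∑ x : Fin N, (1 : ℝ) := Finset.sum_le_sum (fun x _ => hker.row l ω x)
        _ = N := by rw [Finset.sum_const, Finset.card_univ, nsmul_eq_mul, mul_one, hcardN]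
  · rw [Fintype.card_finset, Fintype.card_fin]
    push_cast
    rw [Real.log_pow, one_mul]
    have := Real.log_two_lt_d9
    have h2 : Real.log 2 ≤ 1 := by linarith
    calc (N : ℝ) * Real.log 2 ≤ N * 1 := mul_le_mul_of_nonneg_left h2 hNr.le
      _ = N := mul_one _
  · have h1 : ∀ r : Fin N, ∑ x, ∑ y, kerP (baseP p) r x y = (N : ℝ) := by
      intro r
      have h2 := sum_baseP p r (fun _ => True)
      have h3 : ∀ y : Fin N, ind True = (1 : ℝ) := fun _ => ind_true trivial
      simp only [and_true, ind_true trivial] at h2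
      unfold kerP baseP
      rw [h2, Finset.sum_const, Finset.card_univ, nsmul_eq_mul, mul_one, hcardN]
    simp only [h1]
    exact avg_const _

end Pool.Agent.Helper64.RL
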