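import Pool.Agent.Helper64.RL.KerFacts

/-!
E1: two-sided bound for the blow-up. For fixed positions `a, a'` put
`F x = √(∑ c, f (x, c) ^ 2)`, `G y = √(∑ c', g (y, c') ^ 2)` (no need to restrict to the window).
For every pair of atoms `∑ c, ∑ c', ind (TT ..) * (f (x, c) * g (y, c')) ≤ F x * G y` by
Cauchy–Schwarz and the row/column sums `≤ 1` of `TT_sums`, so the value of a label for the blow-up is at
most its value for the weights `F x * G y`; `nrm F = nrm f`, `nrm G = nrm g`. Average over `ω` with `h`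
(and over the positions, `avg_prod`, `avg_comm`).
-/

namespace Pool.Agent.Helper64.RL

open Finset

set_option linter.unusedSectionVars false
set_option linter.unusedVariables false

/-- an indicator is equal to its square -/
theorem bh_ind_sq (p : Prop) : ind p * ind p = ind p := by
  by_cases hp : p
  · rw [ind_true hp]; norm_num
  · rw [ind_false hp]; norm_num

/-- Schur test for a zero-one matrix -/
theorem bh_schur {γ : Type*} [Fintype γ] (T : γ → γ → Prop)
    (h1 : ∀ c, ∑ c', ind (T c c') ≤ 1) (h2 : ∀ c', ∑ c, ind (T c c') ≤ 1) (f g : γ → ℝ) :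
    ∑ c, ∑ c', ind (T c c') * (f c * g c') ≤ nrm f * nrm g := by
  have e1 : ∑ c, ∑ c', ind (T c c') * (f c * g c') =
      ∑ p : γ × γ, (ind (T p.1 p.2) * f p.1) * (ind (T p.1 p.2) * g p.2) := by
    rw [Fintype.sum_prod_type]
    apply Finset.sum_congr rfl
    intro c _
    apply Finset.sum_congr rfl
    intro c' _
    calc ind (T c c') * (f c * g c') = (ind (T c c') * ind (T c c')) * (f c * g c') := by
          rw [bh_ind_sq]
      _ = (ind (T c c') * f c) * (ind (T c c') * g c') := by ring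
  rw [e1]
  refine (sum_mul_le_nrm (fun p : γ × γ => ind (T p.1 p.2) * f p.1)
    (fun p : γ × γ => ind (T p.1 p.2) * g p.2)).trans ?_
  have e2 : nrm (fun p : γ × γ => ind (T p.1 p.2) * f p.1) ≤ nrm f := by
    unfold nrm
    apply Real.sqrt_le_sqrt
    rw [Fintype.sum_prod_type]
    apply Finset.sum_le_sum
    intro c _
    have e3 : ∀ c' : γ, (ind (T c c') * f c) ^ 2 = ind (T c c') * f c ^ 2 := by
      intro c'
      calc (ind (T c c') * f c) ^ 2 = (ind (T c c') * ind (T c c')) * f c ^ 2 := by ring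
        _ = _ := by rw [bh_ind_sq]
    show ∑ c', (ind (T c c') * f c) ^ 2 ≤ f c ^ 2
    rw [Finset.sum_congr rfl (fun c' _ => e3 c'), ← Finset.sum_mul]
    calc (∑ c', ind (T c c')) * f c ^ 2 ≤ 1 * f c ^ 2 :=
          mul_le_mul_of_nonneg_right (h1 c) (sq_nonneg _)
      _ = f c ^ 2 := one_mul _
  have e4 : nrm (fun p : γ × γ => ind (T p.1 p.2) * g p.2) ≤ nrm g := by
    unfold nrm
    apply Real.sqrt_le_sqrt
    rw [Fintype.sum_prod_type, Finset.sum_comm]
    apply Finset.sum_le_sum
    intro c' _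
    have e3 : ∀ c : γ, (ind (T c c') * g c') ^ 2 = ind (T c c') * g c' ^ 2 := by
      intro c
      calc (ind (T c c') * g c') ^ 2 = (ind (T c c') * ind (T c c')) * g c' ^ 2 := by ring
        _ = _ := by rw [bh_ind_sq]
    show ∑ c, (ind (T c c') * g c') ^ 2 ≤ g c' ^ 2
    rw [Finset.sum_congr rfl (fun c _ => e3 c), ← Finset.sum_mul]
    calc (∑ c, ind (T c c')) * g c' ^ 2 ≤ 1 * g c' ^ 2 :=
          mul_le_mul_of_nonneg_right (h2 c') (sq_nonneg _)
      _ = g c' ^ 2 := one_mul _
  exact mul_le_mul e2 e4 (nrm_nonneg _) (nrm_nonneg _)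

/-- the norm over cells -/
theorem bh_nrm {α γ : Type*} [Fintype α] [Fintype γ] (f : α × γ → ℝ) :
    nrm (fun x => nrm (fun c => f (x, c))) = nrm f := by
  unfold nrm
  congr 1
  rw [Fintype.sum_prod_type]
  apply Finset.sum_congr rfl
  intro x _
  exact Real.sq_sqrt (Finset.sum_nonneg (fun c _ => sq_nonneg _))

/-- E1: two-sided bound for the blow-up -/
theorem PropH.blow {Ω α Lab : Type} [Fintype Ω] [Nonempty Ω] [Fintype α] [DecidableEq α]
    [Fintype Lab] [Nonempty Lab] {C : Lab → Ω → α → α → Prop} {γ : ℝ} (hγ : 0 ≤ γ)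
    (h : PropH (ker C) γ) (b : ℕ) (hb : 0 < b) : PropH (ker (blowC b C)) γ := by
  intro f g hf hg
  have : Nonempty (Fin b) := ⟨⟨0, hb⟩⟩
  set F : α → ℝ := fun x => nrm (fun c => f (x, c)) with hF
  set G : α → ℝ := fun y => nrm (fun c => g (y, c)) with hG
  have hF0 : ∀ x, 0 ≤ F x := fun x => nrm_nonneg _
  have hG0 : ∀ y, 0 ≤ G y := fun y => nrm_nonneg _
  have key : ∀ ω : BΩ Ω α b, Mx (ker (blowC b C)) ω (fun p q => f p * g q) ≤
      Mx (ker C) ω.1 (fun x y => F x * G y) := by
    intro ω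
    apply Mx_le
    intro l
    refine le_trans ?_ (le_Mx (ker C) ω.1 (fun x y => F x * G y) l)
    unfold val ker
    have e1 : ∑ p : α × Fin (2 * b), ∑ q : α × Fin (2 * b),
        ind (blowC b C l ω p q) * (f p * g q) =
        ∑ x, ∑ y, ind (C l ω.1 x y) * ∑ c, ∑ c',
          ind (TT b (ω.2.1 x) (ω.2.2 y) c c') * (f (x, c) * g (y, c')) := by
      rw [Fintype.sum_prod_type]
      apply Finset.sum_congr rfl
      intro x _
      have e2 : ∀ c : Fin (2 * b), ∑ q : α × Fin (2 * b),
          ind (blowC b C l ω (x, c) q) * (f (x, c) * g q) =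
          ∑ y, ∑ c', ind (C l ω.1 x y) *
            (ind (TT b (ω.2.1 x) (ω.2.2 y) c c') * (f (x, c) * g (y, c'))) := by
        intro c
        rw [Fintype.sum_prod_type]
        apply Finset.sum_congr rfl
        intro y _
        apply Finset.sum_congr rfl
        intro c' _
        have e3 : ind (blowC b C l ω (x, c) (y, c')) =
            ind (C l ω.1 x y) * ind (TT b (ω.2.1 x) (ω.2.2 y) c c') := ind_and _ _
        rw [e3]
        ring
      rw [Finset.sum_congr rfl (fun c _ => e2 c), Finset.sum_comm]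
      apply Finset.sum_congr rfl
      intro y _
      rw [Finset.mul_sum]
      apply Finset.sum_congr rfl
      intro c _
      rw [Finset.mul_sum]
    rw [e1]
    apply Finset.sum_le_sum
    intro x _
    apply Finset.sum_le_sum
    intro y _
    apply mul_le_mul_of_nonneg_left _ (ind_nonneg _)
    obtain ⟨t1, t2, -⟩ := TT_sums b (ω.2.1 x) (ω.2.2 y)
    exact bh_schur (TT b (ω.2.1 x) (ω.2.2 y)) t1 t2 (fun c => f (x, c)) (fun c' => g (y, c'))
  refine (avg_mono key).trans ?_
  have e5 : avg (fun ω : BΩ Ω α b => Mx (ker C) ω.1 (fun x y => F x * G y)) =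
      avg (fun ω : Ω => Mx (ker C) ω (fun x y => F x * G y)) := by
    rw [avg_prod]
    congr 1
    funext ω
    exact avg_const (Ω := (α → Fin b) × (α → Fin b)) (Mx (ker C) ω (fun x y => F x * G y))
  rw [e5]
  have e6 := h F G hF0 hG0
  have e7 : nrm F = nrm f := bh_nrm f
  have e8 : nrm G = nrm g := bh_nrm g
  rw [e7, e8] at e6
  exact e6

end Pool.Agent.Helper64.RL
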