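import Pool.Agent.Helper64.RL.KerFacts

/-!
E4: Lipschitz property of the largest weighted value for the blow-up. Put
`W x y a a' = ∑ c, ∑ c', ind (TT b a a' c c') * w (x, c) (y, c') ∈ [0, R]`; the value of the label `l` at
`(ω, a, a')` is `∑ x, ∑ y, ker C l ω x y * W x y (a x) (a' y)`. Take `l` optimal for `ω`, and `l'` from the
robustness of `C` for the first components. The difference of the values is at most
`R ∑ max (K - K') 0 + R ∑ K x y (1[a x ≠ c x] + 1[a' y ≠ c' y])`, and the rows and columns of `K` have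
sum `≤ 1`. E5: robustness of the blow-up, the same computation with the entries `K * ind TT` (total sum
of `ind TT` is `b`); the `max` of a sum of products is bounded termwise:
`max (K T - K' T') 0 ≤ max (K - K') 0 * T' + K * max (T - T') 0`.
-/

namespace Pool.Agent.Helper64.RL

open Finset

set_option linter.unusedSectionVars false
set_option linter.unusedVariables false

/-- summation of a termwise bound by rows and columns of a kernel -/
theorem bl_key {α : Type} [Fintype α] (K K' : α → α → ℝ)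
    (hrow : ∀ x, ∑ y, K' x y ≤ 1) (hcol : ∀ y, ∑ x, K' x y ≤ 1) {R : ℝ} (hR : 0 ≤ R)
    (e1 e2 : α → ℝ) (h1 : ∀ x, 0 ≤ e1 x) (h2 : ∀ y, 0 ≤ e2 y) (F : α → α → ℝ)
    (hF : ∀ x y, F x y ≤ max (K x y - K' x y) 0 * R + K' x y * (R * (e1 x + e2 y))) :
    ∑ x, ∑ y, F x y ≤ R * (∑ x, ∑ y, max (K x y - K' x y) 0 + ∑ x, e1 x + ∑ y, e2 y) := by
  have hA : ∑ x, ∑ y, F x y ≤ ∑ x, ∑ y, (R * max (K x y - K' x y) 0 +
      (R * (e1 x * K' x y) + R * (e2 y * K' x y))) := by
    apply Finset.sum_le_sum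
    intro x _
    apply Finset.sum_le_sum
    intro y _
    have := hF x y
    linarith
  have hB : ∑ x, ∑ y, (R * max (K x y - K' x y) 0 +
      (R * (e1 x * K' x y) + R * (e2 y * K' x y))) =
      R * ∑ x, ∑ y, max (K x y - K' x y) 0 + (R * ∑ x, e1 x * ∑ y, K' x y +
        R * ∑ y, e2 y * ∑ x, K' x y) := by
    simp only [Finset.sum_add_distrib]
    congr 1
    · simp only [Finset.mul_sum]
    · congr 1
      · simp only [Finset.mul_sum]
      · rw [Finset.sum_comm]
        simp only [Finset.mul_sum]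
  have hC : ∑ x, e1 x * ∑ y, K' x y ≤ ∑ x, e1 x := by
    apply Finset.sum_le_sum
    intro x _
    have := mul_le_mul_of_nonneg_left (hrow x) (h1 x)
    linarith
  have hD : ∑ y, e2 y * ∑ x, K' x y ≤ ∑ y, e2 y := by
    apply Finset.sum_le_sum
    intro y _
    have := mul_le_mul_of_nonneg_left (hcol y) (h2 y)
    linarith
  have hC' := mul_le_mul_of_nonneg_left hC hR
  have hD' := mul_le_mul_of_nonneg_left hD hR
  rw [hB] at hA
  linarith

/-- the value of a label for the blow-up -/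
theorem bl_val {Ω α Lab : Type} [Fintype α] (C : Lab → Ω → α → α → Prop) (b : ℕ)
    (w : α × Fin (2 * b) → α × Fin (2 * b) → ℝ) (ω : BΩ Ω α b) (l : Lab) :
    val (ker (blowC b C)) ω l w = ∑ x, ∑ y, ker C l ω.1 x y *
      ∑ c, ∑ c', ind (TT b (ω.2.1 x) (ω.2.2 y) c c') * w (x, c) (y, c') := by
  unfold val
  rw [Fintype.sum_prod_type]
  apply Finset.sum_congr rfl
  intro x _
  have h1 : ∀ c : Fin (2 * b), ∑ ρ, ker (blowC b C) l ω (x, c) ρ * w (x, c) ρ =
      ∑ y, ∑ c', ker C l ω.1 x y * (ind (TT b (ω.2.1 x) (ω.2.2 y) c c') * w (x, c) (y, c')) := by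
    intro c
    rw [Fintype.sum_prod_type]
    apply Finset.sum_congr rfl
    intro y _
    apply Finset.sum_congr rfl
    intro c' _
    unfold ker blowC blowRel
    rw [ind_and, mul_assoc]
  rw [Finset.sum_congr rfl (fun c _ => h1 c), Finset.sum_comm]
  apply Finset.sum_congr rfl
  intro y _
  simp only [Finset.mul_sum]

/-- E4: Lipschitz property of the largest weighted value for the blow-up; the weights of a pair of
cells add up to at most `R` for all positions -/
theorem lip_blow {Ω α Lab : Type} [Fintype Ω] [Fintype α] [DecidableEq α] [Fintype Lab]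
    [Nonempty Lab] {C : Lab → Ω → α → α → Prop} (hK : IsKer (ker C)) {D : Ω → Ω → ℝ}
    (hR : Robust (ker C) D) (b : ℕ) (hb : 0 < b) {R : ℝ} (hR0 : 0 ≤ R)
    (w : α × Fin (2 * b) → α × Fin (2 * b) → ℝ) (hw0 : ∀ χ ρ, 0 ≤ w χ ρ)
    (hw : ∀ x y a a', ∑ c, ∑ c', ind (TT b a a' c c') * w (x, c) (y, c') ≤ R)
    (ω ω' : BΩ Ω α b) :
    Mx (ker (blowC b C)) ω w - Mx (ker (blowC b C)) ω' w ≤ R * blowD b D ω ω' := by
  classical
  obtain ⟨l, hl⟩ := exists_Mx (ker (blowC b C)) ω w
  obtain ⟨l', hl'⟩ := hR ω.1 ω'.1 l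
  have h1 := le_Mx (ker (blowC b C)) ω' w l'
  rw [bl_val] at h1 hl
  have hW0 : ∀ x y a a', 0 ≤ ∑ c, ∑ c', ind (TT b a a' c c') * w (x, c) (y, c') :=
    fun x y a a' => Finset.sum_nonneg (fun c _ => Finset.sum_nonneg (fun c' _ =>
      mul_nonneg (ind_nonneg _) (hw0 _ _)))
  have key := bl_key (fun x y => ker C l ω.1 x y) (fun x y => ker C l' ω'.1 x y)
    (hK.row l' ω'.1) (hK.col l' ω'.1) hR0
    (fun x => if ω.2.1 x = ω'.2.1 x then (0 : ℝ) else 1)
    (fun y => if ω.2.2 y = ω'.2.2 y then (0 : ℝ) else 1)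
    (fun x => by split_ifs <;> norm_num) (fun y => by split_ifs <;> norm_num)
    (fun x y => ker C l ω.1 x y *
      (∑ c, ∑ c', ind (TT b (ω.2.1 x) (ω.2.2 y) c c') * w (x, c) (y, c')) -
      ker C l' ω'.1 x y *
      (∑ c, ∑ c', ind (TT b (ω'.2.1 x) (ω'.2.2 y) c c') * w (x, c) (y, c')))
    (by
      intro x y
      have hu0 := hW0 x y (ω.2.1 x) (ω.2.2 y)
      have hu1 := hw x y (ω.2.1 x) (ω.2.2 y)
      have hv0 := hW0 x y (ω'.2.1 x) (ω'.2.2 y)
      have hK0 := hK.nonneg l' ω'.1 x y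
      set u := ∑ c, ∑ c', ind (TT b (ω.2.1 x) (ω.2.2 y) c c') * w (x, c) (y, c') with hu
      set v := ∑ c, ∑ c', ind (TT b (ω'.2.1 x) (ω'.2.2 y) c c') * w (x, c) (y, c') with hv
      have huv : u - v ≤ R * ((if ω.2.1 x = ω'.2.1 x then (0 : ℝ) else 1) +
          (if ω.2.2 y = ω'.2.2 y then (0 : ℝ) else 1)) := by
        by_cases h1 : ω.2.1 x = ω'.2.1 x
        · by_cases h2 : ω.2.2 y = ω'.2.2 y
          · rw [if_pos h1, if_pos h2]
            have : u = v := by rw [hu, hv, h1, h2]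
            linarith
          · rw [if_pos h1, if_neg h2]
            linarith
        · rw [if_neg h1]
          have h3 : (0 : ℝ) ≤ (if ω.2.2 y = ω'.2.2 y then (0 : ℝ) else 1) := by
            split_ifs <;> norm_num
          have := mul_nonneg hR0 h3
          linarith
      have h4 : ker C l ω.1 x y * u - ker C l' ω'.1 x y * v =
          (ker C l ω.1 x y - ker C l' ω'.1 x y) * u + ker C l' ω'.1 x y * (u - v) := by ring
      rw [h4]
      apply add_le_add
      · exact (mul_le_mul_of_nonneg_right (le_max_left _ _) hu0).trans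
          (mul_le_mul_of_nonneg_left hu1 (le_max_right _ _))
      · exact mul_le_mul_of_nonneg_left huv hK0)
  have h5 : ∑ x, ∑ y, (ker C l ω.1 x y *
      (∑ c, ∑ c', ind (TT b (ω.2.1 x) (ω.2.2 y) c c') * w (x, c) (y, c')) -
      ker C l' ω'.1 x y *
      (∑ c, ∑ c', ind (TT b (ω'.2.1 x) (ω'.2.2 y) c c') * w (x, c) (y, c'))) =
      (∑ x, ∑ y, ker C l ω.1 x y *
        ∑ c, ∑ c', ind (TT b (ω.2.1 x) (ω.2.2 y) c c') * w (x, c) (y, c')) -
      ∑ x, ∑ y, ker C l' ω'.1 x y *
        ∑ c, ∑ c', ind (TT b (ω'.2.1 x) (ω'.2.2 y) c c') * w (x, c) (y, c') := by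
    simp only [Finset.sum_sub_distrib]
  have h6 : ∑ x, ∑ y, max (ker C l ω.1 x y - ker C l' ω'.1 x y) 0 +
      ∑ x, (if ω.2.1 x = ω'.2.1 x then (0 : ℝ) else 1) +
      ∑ y, (if ω.2.2 y = ω'.2.2 y then (0 : ℝ) else 1) ≤ blowD b D ω ω' := by
    unfold blowD
    have e1 : ∀ x, (if ω.2.1 x = ω'.2.1 x then (0 : ℝ) else 1) =
        @ite ℝ (ω.2.1 x = ω'.2.1 x) (Classical.propDecidable _) 0 1 := by
      intro x
      by_cases h : ω.2.1 x = ω'.2.1 x
      · rw [if_pos h, if_pos h]
      · rw [if_neg h, if_neg h]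
    have e2 : ∀ y, (if ω.2.2 y = ω'.2.2 y then (0 : ℝ) else 1) =
        @ite ℝ (ω.2.2 y = ω'.2.2 y) (Classical.propDecidable _) 0 1 := by
      intro y
      by_cases h : ω.2.2 y = ω'.2.2 y
      · rw [if_pos h, if_pos h]
      · rw [if_neg h, if_neg h]
    simp only [e1, e2]
    linarith
  have h7 := mul_le_mul_of_nonneg_left h6 hR0
  rw [h5] at key
  linarith

/-- E5: robustness of the blow-up -/
theorem Robust.blow {Ω α Lab : Type} [Fintype Ω] [Fintype α] [DecidableEq α] [Fintype Lab]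
    {C : Lab → Ω → α → α → Prop} (hK : IsKer (ker C)) {D : Ω → Ω → ℝ}
    (hR : Robust (ker C) D) (b : ℕ) (hb : 0 < b) :
    Robust (ker (blowC b C)) (fun ω ω' => b * blowD b D ω ω') := by
  classical
  intro ω ω' l
  obtain ⟨l', hl'⟩ := hR ω.1 ω'.1 l
  refine ⟨l', ?_⟩
  have hbR : (0 : ℝ) ≤ (b : ℝ) := Nat.cast_nonneg b
  have key := bl_key (fun x y => ker C l ω.1 x y) (fun x y => ker C l' ω'.1 x y)
    (hK.row l' ω'.1) (hK.col l' ω'.1) hbR
    (fun x => if ω.2.1 x = ω'.2.1 x then (0 : ℝ) else 1)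
    (fun y => if ω.2.2 y = ω'.2.2 y then (0 : ℝ) else 1)
    (fun x => by split_ifs <;> norm_num) (fun y => by split_ifs <;> norm_num)
    (fun x y => ∑ c, ∑ c', max (ker C l ω.1 x y * ind (TT b (ω.2.1 x) (ω.2.2 y) c c') -
      ker C l' ω'.1 x y * ind (TT b (ω'.2.1 x) (ω'.2.2 y) c c')) 0)
    (by
      intro x y
      have hK0 := hK.nonneg l' ω'.1 x y
      have hs := (TT_sums b (ω.2.1 x) (ω.2.2 y)).2.2
      have hA : ∑ c, ∑ c', max (ker C l ω.1 x y * ind (TT b (ω.2.1 x) (ω.2.2 y) c c') -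
          ker C l' ω'.1 x y * ind (TT b (ω'.2.1 x) (ω'.2.2 y) c c')) 0 ≤
          ∑ c, ∑ c', (max (ker C l ω.1 x y - ker C l' ω'.1 x y) 0 *
            ind (TT b (ω.2.1 x) (ω.2.2 y) c c') + ker C l' ω'.1 x y *
            max (ind (TT b (ω.2.1 x) (ω.2.2 y) c c') -
              ind (TT b (ω'.2.1 x) (ω'.2.2 y) c c')) 0) := by
        apply Finset.sum_le_sum
        intro c _
        apply Finset.sum_le_sum
        intro c' _
        have hT := ind_nonneg (TT b (ω.2.1 x) (ω.2.2 y) c c')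
        apply max_le
        · have h1 := mul_le_mul_of_nonneg_right
            (le_max_left (ker C l ω.1 x y - ker C l' ω'.1 x y) 0) hT
          have h2 := mul_le_mul_of_nonneg_left
            (le_max_left (ind (TT b (ω.2.1 x) (ω.2.2 y) c c') -
              ind (TT b (ω'.2.1 x) (ω'.2.2 y) c c')) 0) hK0
          linarith
        · exact add_nonneg (mul_nonneg (le_max_right _ _) hT)
            (mul_nonneg hK0 (le_max_right _ _))
      have hB : ∑ c, ∑ c', (max (ker C l ω.1 x y - ker C l' ω'.1 x y) 0 *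
            ind (TT b (ω.2.1 x) (ω.2.2 y) c c') + ker C l' ω'.1 x y *
            max (ind (TT b (ω.2.1 x) (ω.2.2 y) c c') -
              ind (TT b (ω'.2.1 x) (ω'.2.2 y) c c')) 0) =
          max (ker C l ω.1 x y - ker C l' ω'.1 x y) 0 * b + ker C l' ω'.1 x y *
            ∑ c, ∑ c', max (ind (TT b (ω.2.1 x) (ω.2.2 y) c c') -
              ind (TT b (ω'.2.1 x) (ω'.2.2 y) c c')) 0 := by
        rw [← hs]
        simp only [Finset.sum_add_distrib, Finset.mul_sum]
      have hC : ∑ c, ∑ c', max (ind (TT b (ω.2.1 x) (ω.2.2 y) c c') -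
              ind (TT b (ω'.2.1 x) (ω'.2.2 y) c c')) 0 ≤
          (b : ℝ) * ((if ω.2.1 x = ω'.2.1 x then (0 : ℝ) else 1) +
          (if ω.2.2 y = ω'.2.2 y then (0 : ℝ) else 1)) := by
        have hgen : ∑ c, ∑ c', max (ind (TT b (ω.2.1 x) (ω.2.2 y) c c') -
              ind (TT b (ω'.2.1 x) (ω'.2.2 y) c c')) 0 ≤ (b : ℝ) := by
          rw [← hs]
          apply Finset.sum_le_sum
          intro c _
          apply Finset.sum_le_sum
          intro c' _
          apply max_le
          · have := ind_nonneg (TT b (ω'.2.1 x) (ω'.2.2 y) c c')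
            linarith
          · exact ind_nonneg _
        by_cases h1 : ω.2.1 x = ω'.2.1 x
        · by_cases h2 : ω.2.2 y = ω'.2.2 y
          · rw [if_pos h1, if_pos h2, h1, h2]
            simp
          · rw [if_pos h1, if_neg h2]
            linarith
        · rw [if_neg h1]
          have h3 : (0 : ℝ) ≤ (if ω.2.2 y = ω'.2.2 y then (0 : ℝ) else 1) := by
            split_ifs <;> norm_num
          have := mul_nonneg hbR h3
          linarith
      have hD := mul_le_mul_of_nonneg_left hC hK0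
      rw [hB] at hA
      linarith)
  have h5 : ∑ χ, ∑ ρ, max (ker (blowC b C) l ω χ ρ - ker (blowC b C) l' ω' χ ρ) 0 =
      ∑ x, ∑ y, ∑ c, ∑ c', max (ker C l ω.1 x y * ind (TT b (ω.2.1 x) (ω.2.2 y) c c') -
      ker C l' ω'.1 x y * ind (TT b (ω'.2.1 x) (ω'.2.2 y) c c')) 0 := by
    rw [Fintype.sum_prod_type]
    apply Finset.sum_congr rfl
    intro x _
    rw [Finset.sum_comm' (s := Finset.univ) (t := fun _ => Finset.univ) (t' := Finset.univ)
      (s' := fun _ => Finset.univ) (by simp)]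
    rw [Fintype.sum_prod_type]
    apply Finset.sum_congr rfl
    intro y _
    rw [Finset.sum_comm]
    apply Finset.sum_congr rfl
    intro c _
    apply Finset.sum_congr rfl
    intro c' _
    unfold ker blowC blowRel
    rw [ind_and, ind_and]
  have h6 : ∑ x, ∑ y, max (ker C l ω.1 x y - ker C l' ω'.1 x y) 0 +
      ∑ x, (if ω.2.1 x = ω'.2.1 x then (0 : ℝ) else 1) +
      ∑ y, (if ω.2.2 y = ω'.2.2 y then (0 : ℝ) else 1) ≤ blowD b D ω ω' := by
    unfold blowD
    have e1 : ∀ x, (if ω.2.1 x = ω'.2.1 x then (0 : ℝ) else 1) =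
        @ite ℝ (ω.2.1 x = ω'.2.1 x) (Classical.propDecidable _) 0 1 := by
      intro x
      by_cases h : ω.2.1 x = ω'.2.1 x
      · rw [if_pos h, if_pos h]
      · rw [if_neg h, if_neg h]
    have e2 : ∀ y, (if ω.2.2 y = ω'.2.2 y then (0 : ℝ) else 1) =
        @ite ℝ (ω.2.2 y = ω'.2.2 y) (Classical.propDecidable _) 0 1 := by
      intro y
      by_cases h : ω.2.2 y = ω'.2.2 y
      · rw [if_pos h, if_pos h]
      · rw [if_neg h, if_neg h]
    simp only [e1, e2]
    linarith
  have h7 := mul_le_mul_of_nonneg_left h6 hbR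
  rw [h5]
  exact key.trans h7

end Pool.Agent.Helper64.RL
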