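import Pool.Agent.Helper64.RL.KerFacts
import Pool.Agent.Helper64.RL.AvgPi

/-!
E2: uniformity of the blow-up: the indicator is `ind (P ω x y) * ind (TT b (a x) (a' y) c c')`; the
average over `a'` (`avg_pi_eval`) of the second factor is at most `1 / b`, because `a x, c, c'` determine
`a' y`. E3: number of points of the blow-up: `∑ c, ∑ c', ind (TT ..) = b` for each atom.
-/

namespace Pool.Agent.Helper64.RL

open Finset

set_option linter.unusedSectionVars false
set_option linter.unusedVariables false

/-- the average over the second corner coordinate is at most `1 / b` -/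
theorem avg_TT_le (b : ℕ) (hb : 0 < b) (a : Fin b) (c c' : Fin (2 * b)) :
    avg (fun z : Fin b => ind (TT b a z c c')) ≤ 1 / b := by
  unfold avg
  rw [Fintype.card_fin]
  apply div_le_div_of_nonneg_right _ (Nat.cast_nonneg _)
  by_cases hex : ∃ z : Fin b, TT b a z c c'
  · obtain ⟨z, hz⟩ := hex
    have : ∑ z' : Fin b, ind (TT b a z' c c') = ind (TT b a z c c') := by
      apply Finset.sum_eq_single z
      · intro z' _ hne
        apply ind_false
        intro hz'
        apply hne
        unfold TT at hz hz'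
        apply Fin.ext
        omega
      · intro h
        exact absurd (Finset.mem_univ z) h
    rw [this]
    exact ind_le_one _
  · push Not at hex
    have : ∑ z' : Fin b, ind (TT b a z' c c') = 0 :=
      Finset.sum_eq_zero (fun z _ => ind_false (hex z))
    rw [this]
    exact zero_le_one

/-- E2: uniformity of the blow-up -/
theorem PropU.blow {Ω α : Type} [Fintype Ω] [Nonempty Ω] [Fintype α] [DecidableEq α]
    {P : Ω → α → α → Prop} {m : ℝ} (h : PropU (kerP P) m) (b : ℕ) (hb : 0 < b) :
    PropU (kerP (blowP b P)) (m * b) := by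
  have : Nonempty (Fin b) := ⟨⟨0, hb⟩⟩
  rintro ⟨x, c⟩ ⟨y, c'⟩
  have h1 : avg (fun ω : BΩ Ω α b => kerP (blowP b P) ω (x, c) (y, c')) =
      avg (fun ω : Ω => kerP P ω x y *
        avg (fun a : α → Fin b => avg (fun a' : α → Fin b => ind (TT b (a x) (a' y) c c')))) := by
    rw [avg_prod]
    congr 1
    funext ω
    rw [avg_prod, ← avg_mul_left]
    congr 1
    funext a
    rw [← avg_mul_left]
    congr 1
    funext a'
    unfold kerP blowP blowRel
    rw [ind_and]
  rw [h1, avg_mul_right]
  have h2 : avg (fun a : α → Fin b => avg (fun a' : α → Fin b => ind (TT b (a x) (a' y) c c')))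
      ≤ 1 / b := by
    apply avg_le_of
    intro a
    rw [avg_pi_eval y (fun z : Fin b => ind (TT b (a x) z c c'))]
    exact avg_TT_le b hb (a x) c c'
  have h3 : 0 ≤ avg (fun ω : Ω => kerP P ω x y) := avg_nonneg (fun ω => ind_nonneg _)
  have hb' : (0 : ℝ) < b := by exact_mod_cast hb
  calc avg (fun ω : Ω => kerP P ω x y) *
        avg (fun a : α → Fin b => avg (fun a' : α → Fin b => ind (TT b (a x) (a' y) c c')))
      ≤ avg (fun ω : Ω => kerP P ω x y) * (1 / b) := mul_le_mul_of_nonneg_left h2 h3
    _ ≤ (1 / m) * (1 / b) := mul_le_mul_of_nonneg_right (h x y) (by positivity)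
    _ = 1 / (m * b) := by rw [div_mul_div_comm, one_mul]

/-- E3: number of points of the blow-up -/
theorem size_blow {Ω α : Type} [Fintype Ω] [Nonempty Ω] [Fintype α] [DecidableEq α]
    (P : Ω → α → α → Prop) (b : ℕ) (hb : 0 < b) :
    avg (fun ω => ∑ x, ∑ y, kerP (blowP b P) ω x y) =
      b * avg (fun ω => ∑ x, ∑ y, kerP P ω x y) := by
  have : Nonempty (Fin b) := ⟨⟨0, hb⟩⟩
  have h1 : ∀ ω : BΩ Ω α b, ∑ x, ∑ y, kerP (blowP b P) ω x y =
      b * ∑ x, ∑ y, kerP P ω.1 x y := by
    intro ω
    rw [Fintype.sum_prod_type]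
    simp only [Fintype.sum_prod_type]
    rw [Finset.mul_sum]
    apply Finset.sum_congr rfl
    intro x _
    rw [Finset.sum_comm, Finset.mul_sum]
    apply Finset.sum_congr rfl
    intro y _
    unfold kerP blowP blowRel
    simp only [ind_and]
    simp only [← Finset.mul_sum]
    rw [(TT_sums b (ω.2.1 x) (ω.2.2 y)).2.2, mul_comm]
  simp only [h1]
  rw [avg_mul_left, avg_prod]
  congr 2
  funext ω
  exact avg_const (∑ x, ∑ y, kerP P ω x y)

end Pool.Agent.Helper64.RL
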