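import Pool.Agent.Helper64.RL.Defs

/-!
H1: an additive error is converted into a multiplicative one. Let `f, g ≥ 0`. By homogeneity (if one
of the norms is `0` everything vanishes) assume `nrm f = nrm g = 1`. Pairs `(x, y)` with
`f x ≤ η g y` contribute to every label at most `∑ K x y η (g y) ^ 2 ≤ η` (column sums `≤ 1`); same for
`g y ≤ η f x`. For `x` with `f x > 0` let `k x = ⌊log (f x) / log (1 / η)⌋`, same for `g`; all other pairs
have `|k x - k y| ≤ 1`. Let `f_k = f · 1[k x = k]`, `g_l` likewise (`k`, `l` in a finite interval of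
integers). So `Mx (f ⊗ g) ≤ 2 η + ∑_{k} ∑_{d ∈ {-1, 0, 1}} Mx (f_k ⊗ g_{k+d})` (`Mx_mono`, `Mx_sum_le`), and
it is enough that `avg Mx (f_k ⊗ g_l) ≤ 2 η nrm f_k nrm g_l` (then Cauchy–Schwarz over `k` gives
`3 · 2 η`). Write `f_k = λ φ`, `g_l = λ' ψ` with `η ≤ φ, ψ ≤ 1` on the supports, of sizes `s`, `t`
(`λ = η ^ (-(k + 1))`). If `√(s t) ≤ η m` then by `PropU`, `avg Mx (φ ⊗ ψ) ≤ (∑ φ) (∑ ψ) / m ≤
√(s t) nrm φ nrm ψ / m ≤ η nrm φ nrm ψ`. Otherwise `nrm φ nrm ψ ≥ η ^ 2 √(s t) ≥ η ^ 3 m`, so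
`ε ≤ η ^ 4 m ≤ η nrm φ nrm ψ` and `h` gives the bound `2 η nrm φ nrm ψ`.
-/

namespace Pool.Agent.Helper64.RL

open Finset

set_option linter.unusedSectionVars false
set_option linter.unusedVariables false

/-- support size bound: `∑ φ ≤ √s nrm φ` -/
theorem conv_sum_le {α : Type} [Fintype α] [DecidableEq α] (φ : α → ℝ) (s : Finset α)
    (hs : ∀ x, x ∉ s → φ x = 0) : ∑ x, φ x ≤ Real.sqrt (s.card) * nrm φ := by
  have h1 : ∑ x, φ x = ∑ x, (if x ∈ s then (1 : ℝ) else 0) * φ x := by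
    apply Finset.sum_congr rfl
    intro x _
    by_cases hx : x ∈ s
    · rw [if_pos hx, one_mul]
    · rw [if_neg hx, hs x hx, zero_mul]
  rw [h1]
  refine (sum_mul_le_nrm _ _).trans ?_
  apply mul_le_mul_of_nonneg_right _ (nrm_nonneg _)
  unfold nrm
  apply Real.sqrt_le_sqrt
  have : ∀ x, (if x ∈ s then (1 : ℝ) else 0) ^ 2 = if x ∈ s then (1 : ℝ) else 0 := by
    intro x; split_ifs <;> norm_num
  simp only [this]
  rw [Finset.sum_ite_mem, Finset.univ_inter, Finset.sum_const, nsmul_eq_mul, mul_one]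

theorem conv_nrm_ge {α : Type} [Fintype α] [DecidableEq α] (φ : α → ℝ) (s : Finset α) {η : ℝ}
    (hη : 0 ≤ η) (hs : ∀ x ∈ s, η ≤ φ x) : η * Real.sqrt (s.card) ≤ nrm φ := by
  unfold nrm
  apply Real.le_sqrt_of_sq_le
  rw [mul_pow, Real.sq_sqrt (Nat.cast_nonneg _)]
  have h1 : ∑ x ∈ s, η ^ 2 ≤ ∑ x ∈ s, φ x ^ 2 :=
    Finset.sum_le_sum (fun x hx => pow_le_pow_left₀ hη (hs x hx) 2)
  rw [Finset.sum_const, nsmul_eq_mul] at h1
  have h2 : ∑ x ∈ s, φ x ^ 2 ≤ ∑ x, φ x ^ 2 :=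
    Finset.sum_le_univ_sum_of_nonneg (fun x => sq_nonneg _)
  linarith

/-- flat functions -/
theorem conv_flat {Ω α Lab : Type} [Fintype Ω] [Nonempty Ω] [Fintype α] [DecidableEq α]
    [Fintype Lab] [Nonempty Lab] {K : Lab → Ω → α → α → ℝ} (hK : IsKer K)
    {p : Ω → α → α → ℝ} (hKp : ∀ l ω x y, K l ω x y ≤ p ω x y)
    {η m ε : ℝ} (hη : 0 < η) (hη1 : η < 1) (hm : 0 < m) (hU : PropU p m)
    (hε : ε ≤ η ^ 4 * m)
    (h : ∀ f g : α → ℝ, (∀ x, 0 ≤ f x) → (∀ x, f x ≤ 1) → (∀ y, 0 ≤ g y) → (∀ y, g y ≤ 1) →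
      avg (fun ω => Mx K ω (fun x y => f x * g y)) ≤ η * nrm f * nrm g + ε)
    (φ ψ : α → ℝ) (hφ : ∀ x, φ x = 0 ∨ (η ≤ φ x ∧ φ x ≤ 1))
    (hψ : ∀ x, ψ x = 0 ∨ (η ≤ ψ x ∧ ψ x ≤ 1)) :
    avg (fun ω => Mx K ω (fun x y => φ x * ψ y)) ≤ 2 * η * nrm φ * nrm ψ := by
  have hφ0 : ∀ x, 0 ≤ φ x := by
    intro x; rcases hφ x with hx | hx
    · rw [hx]
    · linarith [hx.1]
  have hψ0 : ∀ x, 0 ≤ ψ x := by
    intro x; rcases hψ x with hx | hx
    · rw [hx]
    · linarith [hx.1]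
  have hφ1 : ∀ x, φ x ≤ 1 := by
    intro x; rcases hφ x with hx | hx
    · rw [hx]; norm_num
    · exact hx.2
  have hψ1 : ∀ x, ψ x ≤ 1 := by
    intro x; rcases hψ x with hx | hx
    · rw [hx]; norm_num
    · exact hx.2
  classical
  set s : Finset α := Finset.univ.filter (fun x => φ x ≠ 0) with hs
  set t : Finset α := Finset.univ.filter (fun x => ψ x ≠ 0) with ht
  have hsn : ∀ x, x ∉ s → φ x = 0 := by
    intro x hx; by_contra hne; exact hx (by rw [hs]; simp [hne])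
  have htn : ∀ x, x ∉ t → ψ x = 0 := by
    intro x hx; by_contra hne; exact hx (by rw [ht]; simp [hne])
  have hsη : ∀ x ∈ s, η ≤ φ x := by
    intro x hx
    rw [hs, Finset.mem_filter] at hx
    rcases hφ x with h0 | h0
    · exact absurd h0 hx.2
    · exact h0.1
  have htη : ∀ x ∈ t, η ≤ ψ x := by
    intro x hx
    rw [ht, Finset.mem_filter] at hx
    rcases hψ x with h0 | h0
    · exact absurd h0 hx.2
    · exact h0.1
  have hnφ := nrm_nonneg φ
  have hnψ := nrm_nonneg ψ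
  have hnn : 0 ≤ nrm φ * nrm ψ := mul_nonneg hnφ hnψ
  by_cases hc : Real.sqrt (s.card) * Real.sqrt (t.card) ≤ η * m
  · -- small supports
    have h1 : ∀ ω, Mx K ω (fun x y => φ x * ψ y) ≤ ∑ x, ∑ y, (φ x * ψ y) * p ω x y := by
      intro ω
      apply Mx_le
      intro l
      unfold val
      apply Finset.sum_le_sum
      intro x _
      apply Finset.sum_le_sum
      intro y _
      rw [mul_comm]
      exact mul_le_mul_of_nonneg_left (hKp l ω x y) (mul_nonneg (hφ0 x) (hψ0 y))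
    have h2 : avg (fun ω => ∑ x, ∑ y, (φ x * ψ y) * p ω x y) ≤ ∑ x, ∑ y, (φ x * ψ y) * (1 / m) := by
      rw [avg_sum]
      apply Finset.sum_le_sum
      intro x _
      rw [avg_sum]
      apply Finset.sum_le_sum
      intro y _
      have : avg (fun ω => (φ x * ψ y) * p ω x y) = (φ x * ψ y) * avg (fun ω => p ω x y) :=
        avg_mul_left _ _
      rw [this]
      exact mul_le_mul_of_nonneg_left (hU x y) (mul_nonneg (hφ0 x) (hψ0 y))
    have h3 : ∑ x, ∑ y, (φ x * ψ y) * (1 / m) = (∑ x, φ x) * (∑ y, ψ y) * (1 / m) := by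
      rw [Finset.sum_mul_sum, Finset.sum_mul]
      apply Finset.sum_congr rfl
      intro x _
      rw [Finset.sum_mul]
    have h4 : (∑ x, φ x) * (∑ y, ψ y) ≤
        (Real.sqrt (s.card) * nrm φ) * (Real.sqrt (t.card) * nrm ψ) :=
      mul_le_mul (conv_sum_le φ s hsn) (conv_sum_le ψ t htn)
        (Finset.sum_nonneg (fun x _ => hψ0 x)) (mul_nonneg (Real.sqrt_nonneg _) hnφ)
    have h5 : (Real.sqrt (s.card) * nrm φ) * (Real.sqrt (t.card) * nrm ψ) ≤
        (η * m) * (nrm φ * nrm ψ) := by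
      have : (Real.sqrt (s.card) * nrm φ) * (Real.sqrt (t.card) * nrm ψ) =
        (Real.sqrt (s.card) * Real.sqrt (t.card)) * (nrm φ * nrm ψ) := by ring
      rw [this]
      exact mul_le_mul_of_nonneg_right hc hnn
    calc avg (fun ω => Mx K ω (fun x y => φ x * ψ y))
        ≤ avg (fun ω => ∑ x, ∑ y, (φ x * ψ y) * p ω x y) := avg_mono h1
      _ ≤ ∑ x, ∑ y, (φ x * ψ y) * (1 / m) := h2
      _ = (∑ x, φ x) * (∑ y, ψ y) * (1 / m) := h3
      _ ≤ (η * m) * (nrm φ * nrm ψ) * (1 / m) := by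
          apply mul_le_mul_of_nonneg_right (h4.trans h5)
          positivity
      _ = η * (nrm φ * nrm ψ) := by field_simp
      _ ≤ 2 * η * nrm φ * nrm ψ := by nlinarith [mul_nonneg hη.le hnn]
  · push Not at hc
    have h1 := conv_nrm_ge φ s hη.le hsη
    have h2 := conv_nrm_ge ψ t hη.le htη
    have h3 : (η * Real.sqrt (s.card)) * (η * Real.sqrt (t.card)) ≤ nrm φ * nrm ψ :=
      mul_le_mul h1 h2 (mul_nonneg hη.le (Real.sqrt_nonneg _)) hnφ
    have h4 : η ^ 3 * m ≤ nrm φ * nrm ψ := by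
      have h5 : η ^ 2 * (η * m) ≤ η ^ 2 * (Real.sqrt (s.card) * Real.sqrt (t.card)) :=
        mul_le_mul_of_nonneg_left hc.le (by positivity)
      nlinarith
    have h5 : ε ≤ η * (nrm φ * nrm ψ) := by
      have h6 : η * (η ^ 3 * m) ≤ η * (nrm φ * nrm ψ) := mul_le_mul_of_nonneg_left h4 hη.le
      have h7 : η * (η ^ 3 * m) = η ^ 4 * m := by ring
      linarith
    have h6 := h φ ψ hφ0 hφ1 hψ0 hψ1
    nlinarith

/-- functions which are constant up to a factor `η` -/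
theorem conv_piece {Ω α Lab : Type} [Fintype Ω] [Nonempty Ω] [Fintype α] [DecidableEq α]
    [Fintype Lab] [Nonempty Lab] {K : Lab → Ω → α → α → ℝ} (hK : IsKer K)
    {p : Ω → α → α → ℝ} (hKp : ∀ l ω x y, K l ω x y ≤ p ω x y)
    {η m ε : ℝ} (hη : 0 < η) (hη1 : η < 1) (hm : 0 < m) (hU : PropU p m)
    (hε : ε ≤ η ^ 4 * m)
    (h : ∀ f g : α → ℝ, (∀ x, 0 ≤ f x) → (∀ x, f x ≤ 1) → (∀ y, 0 ≤ g y) → (∀ y, g y ≤ 1) →
      avg (fun ω => Mx K ω (fun x y => f x * g y)) ≤ η * nrm f * nrm g + ε)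
    (f g : α → ℝ) {a b : ℝ} (ha : 0 < a) (hb : 0 < b)
    (hf : ∀ x, f x = 0 ∨ (η * a ≤ f x ∧ f x ≤ a))
    (hg : ∀ x, g x = 0 ∨ (η * b ≤ g x ∧ g x ≤ b)) :
    avg (fun ω => Mx K ω (fun x y => f x * g y)) ≤ 2 * η * nrm f * nrm g := by
  have h1 := conv_flat hK hKp hη hη1 hm hU hε h (fun x => a⁻¹ * f x) (fun x => b⁻¹ * g x)
    (by
      intro x
      rcases hf x with hx | hx
      · left; simp only [hx, mul_zero]
      · right
        constructor
        · rw [inv_mul_eq_div, le_div_iff₀ ha]; exact hx.1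
        · rw [inv_mul_eq_div, div_le_one ha]; exact hx.2)
    (by
      intro x
      rcases hg x with hx | hx
      · left; simp only [hx, mul_zero]
      · right
        constructor
        · rw [inv_mul_eq_div, le_div_iff₀ hb]; exact hx.1
        · rw [inv_mul_eq_div, div_le_one hb]; exact hx.2)
  rw [nrm_smul (inv_nonneg.mpr ha.le), nrm_smul (inv_nonneg.mpr hb.le)] at h1
  have h2 : ∀ ω, Mx K ω (fun x y => (a⁻¹ * f x) * (b⁻¹ * g y)) =
      (a⁻¹ * b⁻¹) * Mx K ω (fun x y => f x * g y) := by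
    intro ω
    rw [← Mx_smul K ω (mul_nonneg (inv_nonneg.mpr ha.le) (inv_nonneg.mpr hb.le))]
    congr 1
    funext x y
    ring
  simp only [h2] at h1
  rw [avg_mul_left] at h1
  have h3 : 0 < a⁻¹ * b⁻¹ := mul_pos (inv_pos.mpr ha) (inv_pos.mpr hb)
  have h4 : (a⁻¹ * b⁻¹) * avg (fun ω => Mx K ω (fun x y => f x * g y)) ≤
      (a⁻¹ * b⁻¹) * (2 * η * nrm f * nrm g) := by
    refine h1.trans (le_of_eq ?_)
    ring
  exact le_of_mul_le_mul_left h4 h3

/-- dyadic level -/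
noncomputable def lev (η : ℝ) (t : ℝ) : ℤ := ⌊Real.log t / Real.log (1 / η)⌋

theorem lev_bounds {η t : ℝ} (hη : 0 < η) (hη1 : η < 1) (ht : 0 < t) :
    η * Real.exp (((lev η t : ℤ) + 1 : ℝ) * Real.log (1 / η)) ≤ t ∧
      t ≤ Real.exp (((lev η t : ℤ) + 1 : ℝ) * Real.log (1 / η)) := by
  have hL : 0 < Real.log (1 / η) := Real.log_pos (by rw [lt_div_iff₀ hη]; linarith)
  have h1 : (lev η t : ℝ) ≤ Real.log t / Real.log (1 / η) := Int.floor_le _
  have h2 : Real.log t / Real.log (1 / η) < (lev η t : ℝ) + 1 := Int.lt_floor_add_one _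
  rw [le_div_iff₀ hL] at h1
  rw [div_lt_iff₀ hL] at h2
  constructor
  · have h3 : η = Real.exp (- Real.log (1 / η)) := by
      rw [Real.exp_neg, Real.exp_log (by positivity)]; field_simp
    have h4 : η * Real.exp (((lev η t : ℤ) + 1 : ℝ) * Real.log (1 / η)) =
        Real.exp ((lev η t : ℝ) * Real.log (1 / η)) := by
      have h5 : Real.exp ((lev η t : ℝ) * Real.log (1 / η)) =
          Real.exp (- Real.log (1 / η)) *
            Real.exp (((lev η t : ℤ) + 1 : ℝ) * Real.log (1 / η)) := by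
        rw [← Real.exp_add]
        congr 1
        ring
      rw [h5, ← h3]
    rw [h4]
    calc Real.exp ((lev η t : ℝ) * Real.log (1 / η)) ≤ Real.exp (Real.log t) := Real.exp_le_exp.mpr h1
      _ = t := Real.exp_log ht
  · calc t = Real.exp (Real.log t) := (Real.exp_log ht).symm
      _ ≤ _ := Real.exp_le_exp.mpr h2.le

theorem lev_close {η s t : ℝ} (hη : 0 < η) (hη1 : η < 1) (hs : 0 < s) (ht : 0 < t)
    (h1 : η * t < s) (h2 : η * s < t) :
    lev η t = lev η s - 1 ∨ lev η t = lev η s ∨ lev η t = lev η s + 1 := by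
  have hL : 0 < Real.log (1 / η) := Real.log_pos (by rw [lt_div_iff₀ hη]; linarith)
  have e1 : Real.log (1 / η) = - Real.log η := by rw [one_div, Real.log_inv]
  have h3 : Real.log η + Real.log t < Real.log s := by
    rw [← Real.log_mul hη.ne' ht.ne']
    exact Real.log_lt_log (mul_pos hη ht) h1
  have h4 : Real.log η + Real.log s < Real.log t := by
    rw [← Real.log_mul hη.ne' hs.ne']
    exact Real.log_lt_log (mul_pos hη hs) h2
  have h5 : Real.log t / Real.log (1 / η) < Real.log s / Real.log (1 / η) + 1 := by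
    rw [div_add_one hL.ne', div_lt_div_iff_of_pos_right hL]
    linarith
  have h6 : Real.log s / Real.log (1 / η) < Real.log t / Real.log (1 / η) + 1 := by
    rw [div_add_one hL.ne', div_lt_div_iff_of_pos_right hL]
    linarith
  have h7 : lev η t ≤ lev η s + 1 := by
    unfold lev
    have : ⌊Real.log t / Real.log (1 / η)⌋ ≤ ⌊Real.log s / Real.log (1 / η) + 1⌋ :=
      Int.floor_le_floor h5.le
    rwa [Int.floor_add_one] at this
  have h8 : lev η s ≤ lev η t + 1 := by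
    unfold lev
    have : ⌊Real.log s / Real.log (1 / η)⌋ ≤ ⌊Real.log t / Real.log (1 / η) + 1⌋ :=
      Int.floor_le_floor h6.le
    rwa [Int.floor_add_one] at this
  omega

/-- part of a function at a level -/
noncomputable def part {α : Type} (η : ℝ) (f : α → ℝ) (k : ℤ) (x : α) : ℝ :=
  if lev η (f x) = k ∧ 0 < f x then f x else 0

theorem part_nonneg {α : Type} (η : ℝ) (f : α → ℝ) (k : ℤ) (x : α) : 0 ≤ part η f k x := by
  unfold part
  split_ifs with hh
  · exact hh.2.le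
  · exact le_rfl

theorem part_flat {α : Type} {η : ℝ} (hη : 0 < η) (hη1 : η < 1) (f : α → ℝ) (k : ℤ) (x : α) :
    part η f k x = 0 ∨ (η * Real.exp (((k : ℤ) + 1 : ℝ) * Real.log (1 / η)) ≤ part η f k x ∧
      part η f k x ≤ Real.exp (((k : ℤ) + 1 : ℝ) * Real.log (1 / η))) := by
  unfold part
  split_ifs with hh
  · right
    have := lev_bounds hη hη1 hh.2
    rw [hh.1] at this
    exact this
  · left; rfl

theorem sum_part_sq {α : Type} [Fintype α] (η : ℝ) (f : α → ℝ) (S : Finset ℤ) (d : ℤ) :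
    ∑ k ∈ S, nrm (part η f (k + d)) ^ 2 ≤ nrm f ^ 2 := by
  simp only [nrm_sq]
  rw [Finset.sum_comm]
  apply Finset.sum_le_sum
  intro x _
  have h1 : ∀ k ∈ S, part η f (k + d) x ^ 2 ≤ if k = lev η (f x) - d then f x ^ 2 else 0 := by
    intro k _
    unfold part
    split_ifs with h1 h2 h2
    · exact le_rfl
    · exact absurd (by omega) h2
    · rw [zero_pow two_ne_zero]; exact sq_nonneg _
    · simp
  calc ∑ k ∈ S, part η f (k + d) x ^ 2 ≤ ∑ k ∈ S, if k = lev η (f x) - d then f x ^ 2 else 0 :=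
        Finset.sum_le_sum h1
    _ ≤ f x ^ 2 := by
        rw [Finset.sum_ite_eq']
        split_ifs
        · exact le_rfl
        · positivity

/-- H1, normalised -/
theorem conv_norm {Ω α Lab : Type} [Fintype Ω] [Nonempty Ω] [Fintype α] [DecidableEq α]
    [Fintype Lab] [Nonempty Lab] {K : Lab → Ω → α → α → ℝ} (hK : IsKer K)
    {p : Ω → α → α → ℝ} (hKp : ∀ l ω x y, K l ω x y ≤ p ω x y)
    {η m ε : ℝ} (hη : 0 < η) (hη1 : η < 1) (hm : 0 < m) (hU : PropU p m)
    (hε : ε ≤ η ^ 4 * m)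
    (h : ∀ f g : α → ℝ, (∀ x, 0 ≤ f x) → (∀ x, f x ≤ 1) → (∀ y, 0 ≤ g y) → (∀ y, g y ≤ 1) →
      avg (fun ω => Mx K ω (fun x y => f x * g y)) ≤ η * nrm f * nrm g + ε)
    (f g : α → ℝ) (hf : ∀ x, 0 ≤ f x) (hg : ∀ x, 0 ≤ g x) (hf1 : nrm f = 1) (hg1 : nrm g = 1) :
    avg (fun ω => Mx K ω (fun x y => f x * g y)) ≤ 8 * η := by
  classical
  set S : Finset ℤ := Finset.univ.image (fun x => lev η (f x)) with hS
  set D : Finset ℤ := {-1, 0, 1} with hD
  -- pointwise inequality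
  have hpt : ∀ x y, f x * g y ≤ (η * g y ^ 2 + η * f x ^ 2) +
      ∑ i ∈ S ×ˢ D, part η f i.1 x * part η g (i.1 + i.2) y := by
    intro x y
    have hsum : 0 ≤ ∑ i ∈ S ×ˢ D, part η f i.1 x * part η g (i.1 + i.2) y :=
      Finset.sum_nonneg (fun i _ => mul_nonneg (part_nonneg _ _ _ _) (part_nonneg _ _ _ _))
    have hfx := hf x
    have hgy := hg y
    by_cases c1 : f x ≤ η * g y
    · have : f x * g y ≤ η * g y * g y := mul_le_mul_of_nonneg_right c1 hgy
      have h2 : 0 ≤ η * f x ^ 2 := by positivity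
      nlinarith
    by_cases c2 : g y ≤ η * f x
    · have : f x * g y ≤ f x * (η * f x) := mul_le_mul_of_nonneg_left c2 hfx
      have h2 : 0 ≤ η * g y ^ 2 := by positivity
      nlinarith
    push Not at c1 c2
    have hfp : 0 < f x := lt_of_le_of_lt (mul_nonneg hη.le hgy) c1
    have hgp : 0 < g y := lt_of_le_of_lt (mul_nonneg hη.le hfx) c2
    have hcl := lev_close hη hη1 hfp hgp c1 c2
    have hmem : (lev η (f x), lev η (g y) - lev η (f x)) ∈ S ×ˢ D := by
      rw [Finset.mem_product]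
      refine ⟨?_, ?_⟩
      · rw [hS]; exact Finset.mem_image_of_mem _ (Finset.mem_univ x)
      · rw [hD]
        simp only [Finset.mem_insert, Finset.mem_singleton]
        omega
    have h3 : part η f (lev η (f x)) x * part η g (lev η (f x) + (lev η (g y) - lev η (f x))) y ≤
        ∑ i ∈ S ×ˢ D, part η f i.1 x * part η g (i.1 + i.2) y :=
      Finset.single_le_sum (f := fun i : ℤ × ℤ => part η f i.1 x * part η g (i.1 + i.2) y)
        (fun i _ => mul_nonneg (part_nonneg _ _ _ _) (part_nonneg _ _ _ _)) hmem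
    have h4 : part η f (lev η (f x)) x = f x := by
      unfold part; rw [if_pos ⟨rfl, hfp⟩]
    have h5 : part η g (lev η (f x) + (lev η (g y) - lev η (f x))) y = g y := by
      unfold part; rw [if_pos ⟨by omega, hgp⟩]
    rw [h4, h5] at h3
    have h6 : 0 ≤ η * g y ^ 2 := by positivity
    have h7 : 0 ≤ η * f x ^ 2 := by positivity
    linarith
  have hg2 : ∑ y, g y ^ 2 = 1 := by rw [← nrm_sq, hg1]; norm_num
  have hf2 : ∑ y, f y ^ 2 = 1 := by rw [← nrm_sq, hf1]; norm_num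
  -- first part
  have hA : ∀ ω, Mx K ω (fun x y => η * g y ^ 2 + η * f x ^ 2) ≤ 2 * η := by
    intro ω
    apply Mx_le
    intro l
    rw [val_add]
    have h1 : val K ω l (fun x y => η * g y ^ 2) ≤ η := by
      unfold val
      rw [Finset.sum_comm]
      calc ∑ y, ∑ x, K l ω x y * (η * g y ^ 2) = ∑ y, (∑ x, K l ω x y) * (η * g y ^ 2) := by
            apply Finset.sum_congr rfl; intro y _; rw [Finset.sum_mul]
        _ ≤ ∑ y, 1 * (η * g y ^ 2) := by
            apply Finset.sum_le_sum; intro y _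
            exact mul_le_mul_of_nonneg_right (hK.col l ω y) (by positivity)
        _ = η := by
            simp only [one_mul]; rw [← Finset.mul_sum, hg2, mul_one]
    have h2 : val K ω l (fun x y => η * f x ^ 2) ≤ η := by
      unfold val
      calc ∑ x, ∑ y, K l ω x y * (η * f x ^ 2) = ∑ x, (∑ y, K l ω x y) * (η * f x ^ 2) := by
            apply Finset.sum_congr rfl; intro y _; rw [Finset.sum_mul]
        _ ≤ ∑ x, 1 * (η * f x ^ 2) := by
            apply Finset.sum_le_sum; intro y _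
            exact mul_le_mul_of_nonneg_right (hK.row l ω y) (by positivity)
        _ = η := by
            simp only [one_mul]; rw [← Finset.mul_sum, hf2, mul_one]
    linarith
  have hB : ∀ ω, Mx K ω (fun x y => f x * g y) ≤ 2 * η + ∑ i ∈ S ×ˢ D,
      Mx K ω (fun x y => part η f i.1 x * part η g (i.1 + i.2) y) := by
    intro ω
    calc Mx K ω (fun x y => f x * g y) ≤ Mx K ω (fun x y => (η * g y ^ 2 + η * f x ^ 2) +
          ∑ i ∈ S ×ˢ D, part η f i.1 x * part η g (i.1 + i.2) y) := Mx_mono hK.nonneg ω hpt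
      _ ≤ Mx K ω (fun x y => η * g y ^ 2 + η * f x ^ 2) + Mx K ω (fun x y =>
          ∑ i ∈ S ×ˢ D, part η f i.1 x * part η g (i.1 + i.2) y) := Mx_add_le K ω _ _
      _ ≤ _ := add_le_add (hA ω) (Mx_sum_le K ω (S ×ˢ D)
          (fun i x y => part η f i.1 x * part η g (i.1 + i.2) y))
  have hC : avg (fun ω => Mx K ω (fun x y => f x * g y)) ≤ 2 * η + ∑ i ∈ S ×ˢ D,
      avg (fun ω => Mx K ω (fun x y => part η f i.1 x * part η g (i.1 + i.2) y)) := by
    calc avg (fun ω => Mx K ω (fun x y => f x * g y)) ≤ avg (fun ω => 2 * η + ∑ i ∈ S ×ˢ D,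
          Mx K ω (fun x y => part η f i.1 x * part η g (i.1 + i.2) y)) := avg_mono hB
      _ = _ := by rw [avg_add, avg_const, avg_sum]
  have hE : ∀ i ∈ S ×ˢ D,
      avg (fun ω => Mx K ω (fun x y => part η f i.1 x * part η g (i.1 + i.2) y)) ≤
        η * (nrm (part η f (i.1 + 0)) ^ 2 + nrm (part η g (i.1 + i.2)) ^ 2) := by
    intro i _
    have h1 := conv_piece hK hKp hη hη1 hm hU hε h (part η f i.1) (part η g (i.1 + i.2))
      (Real.exp_pos _) (Real.exp_pos _) (part_flat hη hη1 f i.1) (part_flat hη hη1 g (i.1 + i.2))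
    rw [add_zero]
    nlinarith [sq_nonneg (nrm (part η f i.1) - nrm (part η g (i.1 + i.2))), hη]
  have hF : ∑ i ∈ S ×ˢ D, η * (nrm (part η f (i.1 + 0)) ^ 2 + nrm (part η g (i.1 + i.2)) ^ 2) ≤
      6 * η := by
    rw [Finset.sum_product_right]
    have h1 : ∀ d ∈ D, ∑ k ∈ S, η * (nrm (part η f (k + 0)) ^ 2 + nrm (part η g (k + d)) ^ 2) ≤
        2 * η := by
      intro d _
      rw [← Finset.mul_sum, Finset.sum_add_distrib]
      have h2 := sum_part_sq η f S 0
      have h3 := sum_part_sq η g S d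
      rw [hf1] at h2
      rw [hg1] at h3
      nlinarith
    calc _ ≤ ∑ d ∈ D, 2 * η := Finset.sum_le_sum h1
      _ = 6 * η := by
        rw [Finset.sum_const, hD]
        have : ({-1, 0, 1} : Finset ℤ).card = 3 := by decide
        rw [this]
        simp only [nsmul_eq_mul, Nat.cast_ofNat]
        ring
  have hG := Finset.sum_le_sum hE
  linarith

/-- H1 -/
theorem convert {Ω α Lab : Type} [Fintype Ω] [Nonempty Ω] [Fintype α] [DecidableEq α]
    [Fintype Lab] [Nonempty Lab] {K : Lab → Ω → α → α → ℝ} (hK : IsKer K)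
    {p : Ω → α → α → ℝ} (hKp : ∀ l ω x y, K l ω x y ≤ p ω x y)
    {η m ε : ℝ} (hη : 0 < η) (hη1 : η < 1) (hm : 0 < m) (hU : PropU p m)
    (hε : ε ≤ η ^ 4 * m)
    (h : ∀ f g : α → ℝ, (∀ x, 0 ≤ f x) → (∀ x, f x ≤ 1) → (∀ y, 0 ≤ g y) → (∀ y, g y ≤ 1) →
      avg (fun ω => Mx K ω (fun x y => f x * g y)) ≤ η * nrm f * nrm g + ε) :
    PropH K (8 * η) := by
  intro f g hf hg
  have key : ∀ f : α → ℝ, nrm f = 0 → ∀ x, f x = 0 := by
    intro f hf0 x
    have h1 := nrm_sq f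
    rw [hf0] at h1
    have h2 : f x ^ 2 ≤ ∑ x, f x ^ 2 :=
      Finset.single_le_sum (f := fun x => f x ^ 2) (fun x _ => sq_nonneg _) (Finset.mem_univ x)
    have h3 : f x ^ 2 ≤ 0 := by rw [← h1] at h2; simpa using h2
    exact pow_eq_zero_iff (two_ne_zero) |>.mp (le_antisymm h3 (sq_nonneg _))
  have hz : ∀ ω, Mx K ω (fun _ _ => (0 : ℝ)) ≤ 0 := by
    intro ω
    apply Mx_le
    intro l
    unfold val
    simp
  by_cases c1 : nrm f = 0
  · have h1 := key f c1
    have h2 : ∀ ω, Mx K ω (fun x y => f x * g y) ≤ 0 := by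
      intro ω
      have : (fun x y => f x * g y) = (fun _ _ => (0 : ℝ)) := by
        funext x y; rw [h1 x, zero_mul]
      rw [this]; exact hz ω
    rw [c1, mul_zero, zero_mul]
    exact avg_le_of h2
  by_cases c2 : nrm g = 0
  · have h1 := key g c2
    have h2 : ∀ ω, Mx K ω (fun x y => f x * g y) ≤ 0 := by
      intro ω
      have : (fun x y => f x * g y) = (fun _ _ => (0 : ℝ)) := by
        funext x y; rw [h1 y, mul_zero]
      rw [this]; exact hz ω
    rw [c2, mul_zero]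
    exact avg_le_of h2
  have p1 : 0 < nrm f := lt_of_le_of_ne (nrm_nonneg _) (Ne.symm c1)
  have p2 : 0 < nrm g := lt_of_le_of_ne (nrm_nonneg _) (Ne.symm c2)
  have h1 := conv_norm hK hKp hη hη1 hm hU hε h (fun x => (nrm f)⁻¹ * f x)
    (fun x => (nrm g)⁻¹ * g x)
    (fun x => mul_nonneg (inv_nonneg.mpr p1.le) (hf x))
    (fun x => mul_nonneg (inv_nonneg.mpr p2.le) (hg x))
    (by rw [nrm_smul (inv_nonneg.mpr p1.le)]; exact inv_mul_cancel₀ c1)
    (by rw [nrm_smul (inv_nonneg.mpr p2.le)]; exact inv_mul_cancel₀ c2)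
  have h2 : ∀ ω, Mx K ω (fun x y => ((nrm f)⁻¹ * f x) * ((nrm g)⁻¹ * g y)) =
      ((nrm f)⁻¹ * (nrm g)⁻¹) * Mx K ω (fun x y => f x * g y) := by
    intro ω
    rw [← Mx_smul K ω (mul_nonneg (inv_nonneg.mpr p1.le) (inv_nonneg.mpr p2.le))]
    congr 1
    funext x y
    ring
  simp only [h2] at h1
  rw [avg_mul_left] at h1
  have h3 : 0 < (nrm f)⁻¹ * (nrm g)⁻¹ := mul_pos (inv_pos.mpr p1) (inv_pos.mpr p2)
  have h4 : ((nrm f)⁻¹ * (nrm g)⁻¹) * avg (fun ω => Mx K ω (fun x y => f x * g y)) ≤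
      ((nrm f)⁻¹ * (nrm g)⁻¹) * (8 * η * nrm f * nrm g) := by
    refine h1.trans (le_of_eq ?_)
    field_simp
  exact le_of_mul_le_mul_left h4 h3

end Pool.Agent.Helper64.RL
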