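import Mathlib

/-!
Random structures: definitions and basic facts (uniform averages, kernels, largest values).
-/

namespace Pool.Agent.Helper64.RL

open Finset

set_option linter.unusedSectionVars false
set_option linter.unusedVariables false

/-- uniform average -/
noncomputable def avg {Ω : Type*} [Fintype Ω] (f : Ω → ℝ) : ℝ := (∑ ω, f ω) / Fintype.card Ω

open Classical in
/-- indicator of a proposition -/
noncomputable def ind (p : Prop) : ℝ := if p then 1 else 0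

/-- Euclidean norm -/
noncomputable def nrm {α : Type*} [Fintype α] (f : α → ℝ) : ℝ := Real.sqrt (∑ x, f x ^ 2)

/-- value of a label -/
def val {Ω α Lab : Type*} [Fintype α] (K : Lab → Ω → α → α → ℝ) (ω : Ω) (l : Lab)
    (w : α → α → ℝ) : ℝ := ∑ x, ∑ y, K l ω x y * w x y

/-- largest value of a label -/
noncomputable def Mx {Ω α Lab : Type*} [Fintype α] [Fintype Lab] [Nonempty Lab]
    (K : Lab → Ω → α → α → ℝ) (ω : Ω) (w : α → α → ℝ) : ℝ :=
  Finset.univ.sup' Finset.univ_nonempty (fun l => val K ω l w)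

/-- a kernel is nonnegative with row and column sums at most one -/
structure IsKer {Ω α Lab : Type*} [Fintype α] (K : Lab → Ω → α → α → ℝ) : Prop where
  nonneg : ∀ l ω x y, 0 ≤ K l ω x y
  row : ∀ l ω x, ∑ y, K l ω x y ≤ 1
  col : ∀ l ω y, ∑ x, K l ω x y ≤ 1

/-- two-sided `L²` bound -/
def PropH {Ω α Lab : Type*} [Fintype Ω] [Fintype α] [Fintype Lab] [Nonempty Lab]
    (K : Lab → Ω → α → α → ℝ) (γ : ℝ) : Prop :=
  ∀ f g : α → ℝ, (∀ x, 0 ≤ f x) → (∀ y, 0 ≤ g y) →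
    avg (fun ω => Mx K ω (fun x y => f x * g y)) ≤ γ * nrm f * nrm g

/-- uniformity -/
def PropU {Ω α : Type*} [Fintype Ω] (P : Ω → α → α → ℝ) (m : ℝ) : Prop :=
  ∀ x y, avg (fun ω => P ω x y) ≤ 1 / m

/-- robustness -/
def Robust {Ω α Lab : Type*} [Fintype α] (K : Lab → Ω → α → α → ℝ) (D : Ω → Ω → ℝ) : Prop :=
  ∀ ω ω' l, ∃ l', ∑ x, ∑ y, max (K l ω x y - K l' ω' x y) 0 ≤ D ω ω'

/-- sub-Gaussian concentration of the functions which are Lipschitz for `D` -/
def SubG {Ω : Type*} [Fintype Ω] (D : Ω → Ω → ℝ) (V : ℝ) : Prop :=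
  ∀ Φ : Ω → ℝ, (∀ ω ω', Φ ω - Φ ω' ≤ D ω ω') →
    ∀ t : ℝ, avg (fun ω => Real.exp (t * (Φ ω - avg Φ))) ≤ Real.exp (t ^ 2 * V / 2)

/-- lexicographic order -/
def lexlt {α γ : Type*} (lt : α → α → Prop) (lt2 : γ → γ → Prop) : α × γ → α × γ → Prop :=
  fun p q => lt p.1 q.1 ∨ (p.1 = q.1 ∧ lt2 p.2 q.2)

/-- an increasing pair with no point strictly between -/
def Vis {α : Type*} (lt : α → α → Prop) (R : α → α → Prop) (x y x' y' : α) : Prop :=
  lt x x' ∧ lt y y' ∧ ∀ u v, R u v → lt x u → lt u x' → lt y v → lt v y' → False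

/-- geometric structure: `P ω` is a partial permutation pattern, `C l ω` are subsets of it which
cover all sets without visible pairs -/
structure Geo {Ω α Lab : Type*} (lt : α → α → Prop) (P : Ω → α → α → Prop)
    (C : Lab → Ω → α → α → Prop) : Prop where
  irrefl : ∀ x, ¬ lt x x
  trans : ∀ x y z, lt x y → lt y z → lt x z
  total : ∀ x y, lt x y ∨ x = y ∨ lt y x
  inj1 : ∀ ω x y y', P ω x y → P ω x y' → y = y'
  inj2 : ∀ ω x x' y, P ω x y → P ω x' y → x = x'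
  sub : ∀ l ω x y, C l ω x y → P ω x y
  cover : ∀ ω (A : α → α → Prop), (∀ x y, A x y → P ω x y) →
    (∀ x y x' y', A x y → A x' y' → ¬ Vis lt (P ω) x y x' y') →
    ∃ l, ∀ x y, A x y → C l ω x y

/-- positions in a cell: the decreasing chain of length `b` with lower left corner `(a, a')` -/
def TT (b : ℕ) (a a' : Fin b) (c c' : Fin (2 * b)) : Prop :=
  (a : ℕ) ≤ c ∧ (c : ℕ) < a + b ∧ (c : ℕ) + c' + 1 = a + a' + b

/-- blow-up of a relation -/
def blowRel {α : Type*} (b : ℕ) (R : α → α → Prop) (a a' : α → Fin b) :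
    α × Fin (2 * b) → α × Fin (2 * b) → Prop :=
  fun χ ρ => R χ.1 ρ.1 ∧ TT b (a χ.1) (a' ρ.1) χ.2 ρ.2

/-- sample space of the blow-up -/
abbrev BΩ (Ω α : Type*) (b : ℕ) : Type _ := Ω × (α → Fin b) × (α → Fin b)

/-- blow-up of the points -/
def blowP {Ω α : Type*} (b : ℕ) (P : Ω → α → α → Prop) :
    BΩ Ω α b → α × Fin (2 * b) → α × Fin (2 * b) → Prop :=
  fun ω => blowRel b (P ω.1) ω.2.1 ω.2.2

/-- blow-up of the labelled sets -/
def blowC {Ω α Lab : Type*} (b : ℕ) (C : Lab → Ω → α → α → Prop) :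
    Lab → BΩ Ω α b → α × Fin (2 * b) → α × Fin (2 * b) → Prop :=
  fun l ω => blowRel b (C l ω.1) ω.2.1 ω.2.2

open Classical in
/-- the distance of samples of the blow-up, not yet multiplied by the number of the points of a
chain -/
noncomputable def blowD {Ω α : Type*} [Fintype α] (b : ℕ) (D : Ω → Ω → ℝ) :
    BΩ Ω α b → BΩ Ω α b → ℝ :=
  fun ω ω' => D ω.1 ω'.1 + ∑ x, (if ω.2.1 x = ω'.2.1 x then (0 : ℝ) else 1) +
    ∑ y, (if ω.2.2 y = ω'.2.2 y then (0 : ℝ) else 1)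

/-- product of two families of relations -/
def prodRel {β : Type*} (R1 R2 : β → β → β → Prop) : β × β → β × β → Prop :=
  fun p q => R1 p.1 p.2 q.1 ∧ R2 q.1 p.1 q.2

/-- points of the product structure -/
def prodP {Ω β : Type*} (P : Ω → β → β → Prop) :
    (β → Ω) × (β → Ω) → β × β → β × β → Prop :=
  fun ω => prodRel (fun κ => P (ω.1 κ)) (fun ρ => P (ω.2 ρ))

/-- labelled sets of the product structure -/
def prodC {Ω β Lab : Type*} (C : Lab → Ω → β → β → Prop) :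
    (β → Lab) × (β → Lab) → (β → Ω) × (β → Ω) → β × β → β × β → Prop :=
  fun L ω => prodRel (fun κ => C (L.1 κ) (ω.1 κ)) (fun ρ => C (L.2 ρ) (ω.2 ρ))

/-- kernel version of the product structure -/
def prodK {Ω β Lab : Type*} (K : Lab → Ω → β → β → ℝ) :
    (β → Lab) × (β → Lab) → (β → Ω) × (β → Ω) → β × β → β × β → ℝ :=
  fun L ω p q => K (L.1 p.1) (ω.1 p.1) p.2 q.1 * K (L.2 q.1) (ω.2 q.1) p.1 q.2

/-- distance for families of samples -/
def piD {ι Ω : Type*} [Fintype ι] (D : Ω → Ω → ℝ) : (ι → Ω) → (ι → Ω) → ℝ :=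
  fun c c' => ∑ i, D (c i) (c' i)

/-- distance for pairs -/
def sumD {Ω Ω' : Type*} (D : Ω → Ω → ℝ) (D' : Ω' → Ω' → ℝ) : Ω × Ω' → Ω × Ω' → ℝ :=
  fun p q => D p.1 q.1 + D' p.2 q.2

/-- the kernel of a family of relations -/
noncomputable def ker {Ω α Lab : Type*} (C : Lab → Ω → α → α → Prop) : Lab → Ω → α → α → ℝ :=
  fun l ω x y => ind (C l ω x y)

/-- the kernel of the points -/
noncomputable def kerP {Ω α : Type*} (P : Ω → α → α → Prop) : Ω → α → α → ℝ :=
  fun ω x y => ind (P ω x y)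

/-! ### basic facts: indicators -/

theorem ind_true {p : Prop} (h : p) : ind p = 1 := by unfold ind; rw [if_pos h]

theorem ind_false {p : Prop} (h : ¬ p) : ind p = 0 := by unfold ind; rw [if_neg h]

theorem ind_nonneg (p : Prop) : 0 ≤ ind p := by unfold ind; split_ifs <;> norm_num

theorem ind_le_one (p : Prop) : ind p ≤ 1 := by unfold ind; split_ifs <;> norm_num

theorem ind_and (p q : Prop) : ind (p ∧ q) = ind p * ind q := by
  by_cases hp : p <;> by_cases hq : q <;> simp [ind, hp, hq]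

theorem ind_mono {p q : Prop} (h : p → q) : ind p ≤ ind q := by
  by_cases hp : p
  · rw [ind_true hp, ind_true (h hp)]
  · rw [ind_false hp]; exact ind_nonneg q

/-! ### basic facts: averages -/

section avg

variable {Ω Ω' : Type*} [Fintype Ω] [Fintype Ω']

theorem avg_add (f g : Ω → ℝ) : avg (fun ω => f ω + g ω) = avg f + avg g := by
  unfold avg; rw [Finset.sum_add_distrib, add_div]

theorem avg_sub (f g : Ω → ℝ) : avg (fun ω => f ω - g ω) = avg f - avg g := by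
  unfold avg; rw [Finset.sum_sub_distrib, sub_div]

theorem avg_const [Nonempty Ω] (c : ℝ) : avg (fun _ : Ω => c) = c := by
  unfold avg
  rw [Finset.sum_const, Finset.card_univ, nsmul_eq_mul]
  have : (Fintype.card Ω : ℝ) ≠ 0 := by exact_mod_cast Fintype.card_ne_zero
  field_simp

theorem avg_mul_left (c : ℝ) (f : Ω → ℝ) : avg (fun ω => c * f ω) = c * avg f := by
  unfold avg; rw [← Finset.mul_sum, mul_div_assoc]

theorem avg_mul_right (c : ℝ) (f : Ω → ℝ) : avg (fun ω => f ω * c) = avg f * c := by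
  unfold avg; rw [← Finset.sum_mul]; ring

theorem avg_mono {f g : Ω → ℝ} (h : ∀ ω, f ω ≤ g ω) : avg f ≤ avg g := by
  unfold avg
  exact div_le_div_of_nonneg_right (Finset.sum_le_sum (fun ω _ => h ω)) (Nat.cast_nonneg _)

theorem avg_nonneg {f : Ω → ℝ} (h : ∀ ω, 0 ≤ f ω) : 0 ≤ avg f := by
  unfold avg
  exact div_nonneg (Finset.sum_nonneg (fun ω _ => h ω)) (Nat.cast_nonneg _)

theorem avg_le_of [Nonempty Ω] {f : Ω → ℝ} {c : ℝ} (h : ∀ ω, f ω ≤ c) : avg f ≤ c :=
  (avg_mono h).trans (avg_const c).le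

theorem le_avg_of [Nonempty Ω] {f : Ω → ℝ} {c : ℝ} (h : ∀ ω, c ≤ f ω) : c ≤ avg f :=
  (avg_const c).symm.le.trans (avg_mono h)

theorem avg_sum {ι : Type*} (s : Finset ι) (f : ι → Ω → ℝ) :
    avg (fun ω => ∑ i ∈ s, f i ω) = ∑ i ∈ s, avg (f i) := by
  unfold avg; rw [Finset.sum_comm, Finset.sum_div]

theorem avg_comm (f : Ω → Ω' → ℝ) :
    avg (fun ω => avg (fun ω' => f ω ω')) = avg (fun ω' => avg (fun ω => f ω ω')) := by
  unfold avg
  rw [← Finset.sum_div, ← Finset.sum_div, Finset.sum_comm, div_right_comm]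

theorem avg_prod (f : Ω × Ω' → ℝ) : avg f = avg (fun ω => avg (fun ω' => f (ω, ω'))) := by
  unfold avg
  rw [← Finset.sum_div, Fintype.sum_prod_type, Fintype.card_prod, Nat.cast_mul, mul_comm,
    div_div]

theorem avg_equiv (e : Ω ≃ Ω') (f : Ω' → ℝ) : avg (fun ω => f (e ω)) = avg f := by
  unfold avg
  rw [Equiv.sum_comp e f, Fintype.card_congr e]

theorem exists_le_avg [Nonempty Ω] (f : Ω → ℝ) : ∃ ω, f ω ≤ avg f := by
  by_contra hcon
  push Not at hcon
  have h1 : (∑ _ω : Ω, avg f) < ∑ ω, f ω :=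
    Finset.sum_lt_sum_of_nonempty Finset.univ_nonempty (fun ω _ => hcon ω)
  rw [Finset.sum_const, Finset.card_univ, nsmul_eq_mul] at h1
  have h2 : (0 : ℝ) < Fintype.card Ω := by exact_mod_cast Fintype.card_pos
  unfold avg at h1
  rw [mul_div_cancel₀ _ h2.ne'] at h1
  exact lt_irrefl _ h1

theorem avg_le_sqrt [Nonempty Ω] (f : Ω → ℝ) : avg f ≤ Real.sqrt (avg (fun ω => f ω ^ 2)) := by
  apply Real.le_sqrt_of_sq_le
  have h1 : 0 ≤ avg (fun ω => (f ω - avg f) ^ 2) := avg_nonneg (fun ω => sq_nonneg _)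
  have h2 : avg (fun ω => (f ω - avg f) ^ 2) = avg (fun ω => f ω ^ 2) - (avg f) ^ 2 := by
    have : ∀ ω, (f ω - avg f) ^ 2 = (f ω ^ 2 - 2 * avg f * f ω) + (avg f) ^ 2 := by
      intro ω; ring
    simp only [this]
    rw [avg_add, avg_sub, avg_mul_left, avg_const]
    ring
  linarith

end avg

/-! ### basic facts: largest values -/

section Mx

variable {Ω α Lab : Type*} [Fintype α] [Fintype Lab] [Nonempty Lab]

theorem le_Mx (K : Lab → Ω → α → α → ℝ) (ω : Ω) (w : α → α → ℝ) (l : Lab) :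
    val K ω l w ≤ Mx K ω w := Finset.le_sup' (fun l => val K ω l w) (Finset.mem_univ l)

theorem exists_Mx (K : Lab → Ω → α → α → ℝ) (ω : Ω) (w : α → α → ℝ) :
    ∃ l, Mx K ω w = val K ω l w := by
  obtain ⟨l, -, hl⟩ := Finset.exists_mem_eq_sup' Finset.univ_nonempty (fun l => val K ω l w)
  exact ⟨l, hl⟩

theorem Mx_le (K : Lab → Ω → α → α → ℝ) (ω : Ω) (w : α → α → ℝ) {c : ℝ}
    (h : ∀ l, val K ω l w ≤ c) : Mx K ω w ≤ c := Finset.sup'_le _ _ (fun l _ => h l)

theorem val_mono {K : Lab → Ω → α → α → ℝ} (hK : ∀ l ω x y, 0 ≤ K l ω x y) (ω : Ω) (l : Lab)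
    {w w' : α → α → ℝ} (h : ∀ x y, w x y ≤ w' x y) : val K ω l w ≤ val K ω l w' :=
  Finset.sum_le_sum (fun x _ => Finset.sum_le_sum (fun y _ =>
    mul_le_mul_of_nonneg_left (h x y) (hK l ω x y)))

theorem Mx_mono {K : Lab → Ω → α → α → ℝ} (hK : ∀ l ω x y, 0 ≤ K l ω x y) (ω : Ω)
    {w w' : α → α → ℝ} (h : ∀ x y, w x y ≤ w' x y) : Mx K ω w ≤ Mx K ω w' :=
  Mx_le K ω w (fun l => (val_mono hK ω l h).trans (le_Mx K ω w' l))

theorem val_add (K : Lab → Ω → α → α → ℝ) (ω : Ω) (l : Lab) (w w' : α → α → ℝ) :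
    val K ω l (fun x y => w x y + w' x y) = val K ω l w + val K ω l w' := by
  unfold val
  rw [← Finset.sum_add_distrib]
  apply Finset.sum_congr rfl
  intro x _
  rw [← Finset.sum_add_distrib]
  apply Finset.sum_congr rfl
  intro y _
  ring

theorem val_smul (K : Lab → Ω → α → α → ℝ) (ω : Ω) (l : Lab) (c : ℝ) (w : α → α → ℝ) :
    val K ω l (fun x y => c * w x y) = c * val K ω l w := by
  unfold val
  rw [Finset.mul_sum]
  apply Finset.sum_congr rfl
  intro x _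
  rw [Finset.mul_sum]
  apply Finset.sum_congr rfl
  intro y _
  ring

theorem val_nonneg {K : Lab → Ω → α → α → ℝ} (hK : ∀ l ω x y, 0 ≤ K l ω x y) (ω : Ω) (l : Lab)
    {w : α → α → ℝ} (h : ∀ x y, 0 ≤ w x y) : 0 ≤ val K ω l w :=
  Finset.sum_nonneg (fun x _ => Finset.sum_nonneg (fun y _ => mul_nonneg (hK l ω x y) (h x y)))

theorem Mx_nonneg {K : Lab → Ω → α → α → ℝ} (hK : ∀ l ω x y, 0 ≤ K l ω x y) (ω : Ω)
    {w : α → α → ℝ} (h : ∀ x y, 0 ≤ w x y) : 0 ≤ Mx K ω w :=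
  (val_nonneg hK ω (Classical.arbitrary Lab) h).trans (le_Mx K ω w _)

theorem Mx_add_le (K : Lab → Ω → α → α → ℝ) (ω : Ω) (w w' : α → α → ℝ) :
    Mx K ω (fun x y => w x y + w' x y) ≤ Mx K ω w + Mx K ω w' := by
  apply Mx_le
  intro l
  rw [val_add]
  exact add_le_add (le_Mx K ω w l) (le_Mx K ω w' l)

theorem Mx_smul (K : Lab → Ω → α → α → ℝ) (ω : Ω) {c : ℝ} (hc : 0 ≤ c) (w : α → α → ℝ) :
    Mx K ω (fun x y => c * w x y) = c * Mx K ω w := by
  apply le_antisymm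
  · apply Mx_le
    intro l
    rw [val_smul]
    exact mul_le_mul_of_nonneg_left (le_Mx K ω w l) hc
  · obtain ⟨l, hl⟩ := exists_Mx K ω w
    rw [hl, ← val_smul]
    exact le_Mx K ω _ l

theorem Mx_sum_le {ι : Type*} (K : Lab → Ω → α → α → ℝ) (ω : Ω) (s : Finset ι)
    (w : ι → α → α → ℝ) :
    Mx K ω (fun x y => ∑ i ∈ s, w i x y) ≤ ∑ i ∈ s, Mx K ω (w i) := by
  classical
  induction s using Finset.induction_on with
  | empty =>
    simp only [Finset.sum_empty]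
    apply Mx_le
    intro l
    unfold val
    simp
  | insert i s hi ih =>
    simp only [Finset.sum_insert hi]
    exact (Mx_add_le K ω _ _).trans (add_le_add le_rfl ih)

end Mx

/-! ### basic facts: norms and kernels -/

section nrm

variable {α : Type*} [Fintype α]

theorem nrm_nonneg (f : α → ℝ) : 0 ≤ nrm f := Real.sqrt_nonneg _

theorem nrm_sq (f : α → ℝ) : nrm f ^ 2 = ∑ x, f x ^ 2 :=
  Real.sq_sqrt (Finset.sum_nonneg (fun x _ => sq_nonneg _))

theorem nrm_mono {f g : α → ℝ} (hf : ∀ x, 0 ≤ f x) (h : ∀ x, f x ≤ g x) : nrm f ≤ nrm g :=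
  Real.sqrt_le_sqrt (Finset.sum_le_sum (fun x _ => pow_le_pow_left₀ (hf x) (h x) 2))

theorem nrm_smul {c : ℝ} (hc : 0 ≤ c) (f : α → ℝ) : nrm (fun x => c * f x) = c * nrm f := by
  unfold nrm
  rw [← Real.sqrt_sq hc, ← Real.sqrt_mul (sq_nonneg c), Finset.mul_sum, Real.sqrt_sq hc]
  congr 1
  apply Finset.sum_congr rfl
  intro x _
  ring

/-- Cauchy–Schwarz -/
theorem sum_mul_le_nrm (f g : α → ℝ) : ∑ x, f x * g x ≤ nrm f * nrm g := by
  unfold nrm
  exact Real.sum_mul_le_sqrt_mul_sqrt Finset.univ f g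

end nrm

end Pool.Agent.Helper64.RL
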