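import Pool.Agent.Helper64.RL.Step
import Pool.Agent.Helper55.RD.Good

/-!
J1: from random structures to permutations. `avg (Mx (ker C) ω 1) ≤ γ √N √N = γ N` (`PropH` with
`f = g = 1`) and `avg |P ω| = e`, so for some `ω`: `Mx - 2 (γ N / e) |P ω| ≤ -γ N < 0` (`exists_le_avg`).
Let `V = {(x, y) // P ω x y}`, `n = |V|`; `n ≤ N` by `inj1`. The rank `r x = |{y : lt y x}|` is an injective
map to `ℕ` which preserves and reflects `lt`. Apply `Pool.Agent.Helper55.RD.good_of_conf` with
`X v = r v.1.1`, `Y v = r v.1.2`; sets without visible pairs (note the slightly different form of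
`Pool.Agent.Helper55.RD.Vis`) are contained in some `C l ω` by `Geo.cover`, and the sum of `ker C l ω`
is at most `Mx`. (Only the definition `Str` of the file Step is used.)
-/

namespace Pool.Agent.Helper64.RL

open Finset

set_option linter.unusedSectionVars false
set_option linter.unusedVariables false

/-- rank -/
theorem ToGood.rank {α : Type*} [Fintype α] (lt : α → α → Prop) (irr : ∀ x, ¬ lt x x)
    (tr : ∀ x y z, lt x y → lt y z → lt x z) (tot : ∀ x y, lt x y ∨ x = y ∨ lt y x) :
    ∃ r : α → ℕ, ∀ x y, r x < r y ↔ lt x y := by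
  classical
  let r : α → ℕ := fun x => (univ.filter (fun y => lt y x)).card
  have hmono : ∀ x y, lt x y → r x < r y := by
    intro x y hxy
    apply Finset.card_lt_card
    rw [Finset.ssubset_iff_of_subset]
    · exact ⟨x, by simp [hxy], by simp [irr x]⟩
    · intro z hz
      rw [mem_filter] at hz ⊢
      exact ⟨mem_univ _, tr _ _ _ hz.2 hxy⟩
  refine ⟨r, fun x y => ⟨fun h => ?_, hmono x y⟩⟩
  rcases tot x y with h1 | h1 | h1
  · exact h1
  · subst h1; exact absurd h (lt_irrefl _)
  · exact absurd (hmono y x h1) (not_lt.mpr h.le)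

/-- J1: from random structures to permutations -/
theorem Str.good {N : ℕ} {γ m V κ e : ℝ} (h : Str N γ m V κ e) (he : 0 < e) (hγ : 0 < γ) :
    ∃ n : ℕ, 0 < n ∧ n ≤ N ∧ Pool.Agent.Helper55.RD.Good n (2 * (γ * N / e) * n) := by
  classical
  obtain ⟨Ω, α, Lab, _, _, _, _, _, _, lt, P, C, D, hGeo, hN, hH, -, -, -, -, -, hE⟩ := h
  set W : Ω → ℝ := fun ω => ∑ x, ∑ y, kerP P ω x y with hW
  have hN0 : (0 : ℝ) < N := by
    rcases Nat.eq_zero_or_pos N with h0 | h0
    · exfalso
      rw [h0] at hN
      have hemp : IsEmpty α := Fintype.card_eq_zero_iff.mp hN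
      have : W = fun _ => 0 := by
        funext ω
        simp [hW]
      rw [this, avg_const] at hE
      linarith
    · exact_mod_cast h0
  have h1 : avg (fun ω => Mx (ker C) ω (fun _ _ => (1 : ℝ) * 1)) ≤ γ * N := by
    have h2 := hH (fun _ => 1) (fun _ => 1) (fun _ => zero_le_one) (fun _ => zero_le_one)
    have h3 : nrm (fun _ : α => (1 : ℝ)) = Real.sqrt N := by
      unfold nrm
      simp only [one_pow]
      rw [sum_const, card_univ, nsmul_eq_mul, mul_one, hN]
    rw [h3, mul_assoc, Real.mul_self_sqrt (Nat.cast_nonneg N)] at h2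
    exact h2
  obtain ⟨ω, hω⟩ := exists_le_avg
    (fun ω => Mx (ker C) ω (fun _ _ => (1 : ℝ) * 1) - 2 * (γ * N / e) * W ω)
  have h4 : avg (fun ω => Mx (ker C) ω (fun _ _ => (1 : ℝ) * 1) - 2 * (γ * N / e) * W ω) < 0 := by
    rw [avg_sub, avg_mul_left, hE]
    have : 2 * (γ * N / e) * e = 2 * (γ * N) := by field_simp
    rw [this]
    have : 0 < γ * N := mul_pos hγ hN0
    linarith
  have h5 : Mx (ker C) ω (fun _ _ => (1 : ℝ) * 1) < 2 * (γ * N / e) * W ω := by
    have := lt_of_le_of_lt hω h4
    linarith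
  have hker : ∀ l ω x y, 0 ≤ ker C l ω x y := fun l ω x y => ind_nonneg _
  have hMx0 : 0 ≤ Mx (ker C) ω (fun _ _ => (1 : ℝ) * 1) :=
    Mx_nonneg hker ω (fun _ _ => by norm_num)
  have hc0 : 0 < γ * N / e := div_pos (mul_pos hγ hN0) he
  -- the points
  let T := {p : α × α // P ω p.1 p.2}
  have hT : (Fintype.card T : ℝ) = W ω := by
    rw [hW]
    show (Fintype.card T : ℝ) = ∑ x, ∑ y, kerP P ω x y
    rw [← Finset.sum_product', ← Finset.univ_product_univ.symm]
    have : ∀ p : α × α, kerP P ω p.1 p.2 = if P ω p.1 p.2 then (1 : ℝ) else 0 := fun p => by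
      unfold kerP ind
      congr
    rw [Finset.sum_congr rfl (fun p _ => this p), Finset.sum_boole, Fintype.card_subtype]
  have hinj : Function.Injective (fun v : T => v.1.1) := by
    intro v w hvw
    apply Subtype.ext
    have h1 : v.1.1 = w.1.1 := hvw
    apply Prod.ext h1
    apply hGeo.inj1 ω v.1.1 _ _ v.2
    rw [h1]; exact w.2
  have hinj2 : Function.Injective (fun v : T => v.1.2) := by
    intro v w hvw
    apply Subtype.ext
    have h1 : v.1.2 = w.1.2 := hvw
    refine Prod.ext ?_ h1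
    apply hGeo.inj2 ω _ _ v.1.2 v.2
    rw [h1]; exact w.2
  obtain ⟨r, hr⟩ := ToGood.rank lt hGeo.irrefl hGeo.trans hGeo.total
  have hrinj : Function.Injective r := by
    intro x y hxy
    rcases hGeo.total x y with h | h | h
    · exact absurd ((hr x y).mpr h) (by rw [hxy]; exact lt_irrefl _)
    · exact h
    · exact absurd ((hr y x).mpr h) (by rw [hxy]; exact lt_irrefl _)
  refine ⟨Fintype.card T, ?_, ?_, ?_⟩
  · have : (0 : ℝ) < Fintype.card T := by
      rw [hT]
      have h6 : 0 < 2 * (γ * N / e) * W ω := lt_of_le_of_lt hMx0 h5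
      exact (mul_pos_iff_of_pos_left (by positivity)).mp h6
    exact_mod_cast this
  · rw [← hN]
    exact Fintype.card_le_of_injective _ hinj
  · apply Pool.Agent.Helper55.RD.good_of_conf (fun v : T => r v.1.1) (fun v : T => r v.1.2)
      (hrinj.comp hinj) (hrinj.comp hinj2) rfl
    intro S hS
    obtain ⟨l, hl⟩ := hGeo.cover ω (fun x y => ∃ h : P ω x y, (⟨(x, y), h⟩ : T) ∈ S)
      (fun x y h => h.1) (by
      rintro x y x' y' ⟨h1, hv⟩ ⟨h1', hw⟩ ⟨hxx, hyy, hno⟩
      apply hS _ hv _ hw
      refine ⟨(hr _ _).mpr hyy, (hr _ _).mpr hxx, ?_⟩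
      intro c c1 c2 c3 c4
      rcases c1.lt_or_eq with c1 | c1
      · rcases c2.lt_or_eq with c2 | c2
        · rcases c3.lt_or_eq with c3 | c3
          · rcases c4.lt_or_eq with c4 | c4
            · exact (hno c.1.1 c.1.2 c.2 ((hr _ _).mp c3) ((hr _ _).mp c4) ((hr _ _).mp c1)
                ((hr _ _).mp c2)).elim
            · right
              exact (hrinj.comp hinj) c4
          · left
            exact ((hrinj.comp hinj) c3).symm
        · right
          exact (hrinj.comp hinj2) c2
      · left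
        exact ((hrinj.comp hinj2) c1).symm)
    have h6 : (S.card : ℝ) ≤ val (ker C) ω l (fun _ _ => (1 : ℝ) * 1) := by
      unfold val
      rw [← Finset.sum_product']
      have h7 : (S.card : ℝ) = ∑ p ∈ S.image (fun v : T => v.1), (1 : ℝ) := by
        rw [Finset.sum_const, Finset.card_image_of_injective _ Subtype.val_injective, nsmul_eq_mul,
          mul_one]
      rw [h7]
      refine le_trans (Finset.sum_le_sum (g := fun p : α × α =>
        ker C l ω p.1 p.2 * ((1 : ℝ) * 1)) ?_) ?_
      · intro p hp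
        obtain ⟨v, hv, rfl⟩ := Finset.mem_image.mp hp
        have : ker C l ω v.1.1 v.1.2 = 1 := ind_true (hl _ _ ⟨v.2, hv⟩)
        rw [this]; norm_num
      · exact Finset.sum_le_sum_of_subset_of_nonneg (fun p _ => by simp)
          (fun p _ _ => mul_nonneg (hker _ _ _ _) (by norm_num))
    calc (S.card : ℝ) ≤ val (ker C) ω l (fun _ _ => (1 : ℝ) * 1) := h6
      _ ≤ Mx (ker C) ω (fun _ _ => (1 : ℝ) * 1) := le_Mx _ _ _ _
      _ ≤ 2 * (γ * N / e) * W ω := h5.le
      _ = 2 * (γ * N / e) * (Fintype.card T : ℕ) := by rw [← hT]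

end Pool.Agent.Helper64.RL
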