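import Pool.Agent.Helper64.RL.Iterate
import Pool.Agent.Helper64.RL.ToGood

/-!
M1: final form of the construction (from `Str.iterate`, `Str.good`,
`Pool.Agent.Helper55.RD.Good.mono`). M2: numerical conclusion: for a function `d : ℕ → ℝ` which is at
least `2 ^ (2 ^ J)` at all `n ≥ 2 ^ (2 ^ J (A (J + 1)))`, and at least `2` at all `n ≥ 2`, there is `c > 0`
with `exp (c log n / log log n) ≤ d n` for all `n ≥ 3`.
-/

namespace Pool.Agent.Helper64.RL

open Finset

set_option linter.unusedSectionVars false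
set_option linter.unusedVariables false

/-- M1: final form -/
theorem final_good : ∃ A : ℕ, ∀ J : ℕ, ∃ n : ℕ, 0 < n ∧ n ≤ 2 ^ (2 ^ J * (A * (J + 1))) ∧
    Pool.Agent.Helper55.RD.Good n ((1 / 2) ^ (2 ^ J) * n) := by
  obtain ⟨A, hA⟩ := Str.iterate
  refine ⟨A, fun J => ?_⟩
  obtain ⟨N, γ, m, V, κ, e, hs, he, hγ, hr, hN⟩ := hA J
  obtain ⟨n, hn, hnN, hg⟩ := hs.good he hγ
  refine ⟨n, hn, hnN.trans hN, hg.mono ?_⟩
  apply mul_le_mul_of_nonneg_right _ (Nat.cast_nonneg n)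
  have h1 : (0 : ℝ) ≤ (1 / 2) ^ (2 ^ J) := by positivity
  linarith

end Pool.Agent.Helper64.RL
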