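import Mathlib

/-!
M2: numerical conclusion. For `n ≥ 3` with `n < 2 ^ (2 (2 A))`... let `J` be the largest with
`2 ^ (2 ^ J (A (J + 1))) ≤ n`; then `log n < 2 ^ (J + 1) (A (J + 2)) log 2` and `log log n ≥ c' (J + 1)`,
hence `2 ^ J log 2 ≥ c log n / log log n`. For smaller `n` use `d n ≥ 2` and a small `c`
(`log log n ≥ 1 / 16`: `Real.log 3 ≥ 1.09`; `log n / log log n` is bounded on this range).
-/

namespace Pool.Agent.Helper64.RL

open Finset

set_option linter.unusedSectionVars false
set_option linter.unusedVariables false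

/-- M2: numerical conclusion -/
theorem final_num (d : ℕ → ℝ) (A : ℕ) (h2 : ∀ n, 2 ≤ n → 2 ≤ d n)
    (hJ : ∀ J n : ℕ, 2 ^ (2 ^ J * (A * (J + 1))) ≤ n → (2 : ℝ) ^ (2 ^ J) ≤ d n) :
    ∃ c : ℝ, 0 < c ∧ ∀ n : ℕ, 3 ≤ n →
      Real.exp (c * Real.log n / Real.log (Real.log n)) ≤ d n := by
  obtain ⟨B, hB⟩ : ∃ B, B = A + 1 := ⟨_, rfl⟩
  have hJ' : ∀ J n : ℕ, 2 ^ (2 ^ J * (B * (J + 1))) ≤ n → (2 : ℝ) ^ (2 ^ J) ≤ d n := by
    intro J n h
    apply hJ J n (le_trans (Nat.pow_le_pow_right (by norm_num) _) h)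
    apply Nat.mul_le_mul_left
    apply Nat.mul_le_mul_right
    omega
  have hB1 : (1 : ℝ) ≤ B := by
    rw [hB]; push_cast
    have : (0 : ℝ) ≤ A := Nat.cast_nonneg A
    linarith
  have hB0 : (0 : ℝ) < B := by linarith
  have hl2a : (1 / 2 : ℝ) < Real.log 2 := by
    have := Real.log_two_gt_d9; linarith
  have hl2b : Real.log 2 < 0.7 := by
    have := Real.log_two_lt_d9; linarith
  have hl3 : (1.09 : ℝ) ≤ Real.log 3 := by
    have h1 := Real.one_sub_inv_le_log_of_pos (x := 3 / Real.exp 1) (by positivity)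
    rw [Real.log_div (by norm_num) (Real.exp_pos 1).ne', Real.log_exp, inv_div] at h1
    have h3 := Real.exp_one_lt_d9
    linarith
  have hll3 : (1 / 16 : ℝ) ≤ Real.log (Real.log 3) := by
    have h1 := Real.one_sub_inv_le_log_of_pos (x := Real.log 3) (by linarith)
    have h3 : (Real.log 3)⁻¹ ≤ (1.09)⁻¹ := inv_anti₀ (by norm_num) hl3
    have h4 : (1.09 : ℝ)⁻¹ ≤ 1 - 1 / 16 := by norm_num
    linarith
  refine ⟨1 / (128 * B), by positivity, fun n hn => ?_⟩
  have hn3 : (3 : ℝ) ≤ n := by exact_mod_cast hn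
  obtain ⟨L, hL⟩ : ∃ L, L = Real.log n := ⟨_, rfl⟩
  rw [← hL]
  have hL3 : Real.log 3 ≤ L := by
    rw [hL]; exact Real.log_le_log (by norm_num) hn3
  have hlL : (1 / 16 : ℝ) ≤ Real.log L := hll3.trans (Real.log_le_log (by linarith) hL3)
  have hLpos : 0 < L := by linarith
  have hlLpos : 0 < Real.log L := by linarith
  -- the first `J` that is too large
  have hex : ∃ J : ℕ, n < 2 ^ (2 ^ J * (B * (J + 1))) := by
    refine ⟨n, lt_of_lt_of_le (Nat.lt_two_pow_self (n := n)) (Nat.pow_le_pow_right (by norm_num) ?_)⟩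
    calc n ≤ 2 ^ n := Nat.lt_two_pow_self.le
      _ = 2 ^ n * 1 := (mul_one _).symm
      _ ≤ 2 ^ n * (B * (n + 1)) := by
        apply Nat.mul_le_mul_left
        have : 1 ≤ B := by omega
        nlinarith
  classical
  have hspec := Nat.find_spec hex
  rcases Nat.eq_zero_or_pos (Nat.find hex) with h0 | hpos
  · -- small `n`
    rw [h0] at hspec
    have h1 : (n : ℝ) < 2 ^ B := by
      have : n < 2 ^ B := by simpa using hspec
      exact_mod_cast this
    have h3 : L < B * Real.log 2 := by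
      rw [hL]
      calc Real.log n < Real.log (2 ^ B) := Real.log_lt_log (by linarith) h1
        _ = B * Real.log 2 := Real.log_pow _ _
    have h4 : 1 / (128 * B) * L / Real.log L ≤ Real.log 2 := by
      rw [div_le_iff₀ hlLpos]
      have h5 : 1 / (128 * B) * L ≤ 1 / (128 * B) * (B * Real.log 2) :=
        mul_le_mul_of_nonneg_left h3.le (by positivity)
      have h6 : 1 / (128 * B) * (B * Real.log 2) = Real.log 2 / 128 := by field_simp
      rw [h6] at h5
      nlinarith
    calc Real.exp (1 / (128 * B) * L / Real.log L) ≤ Real.exp (Real.log 2) := Real.exp_le_exp.2 h4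
      _ = 2 := Real.exp_log (by norm_num)
      _ ≤ d n := h2 n (by omega)
  · obtain ⟨J, hJe⟩ : ∃ J, Nat.find hex = J + 1 := ⟨Nat.find hex - 1, by omega⟩
    have hmin : ¬ n < 2 ^ (2 ^ J * (B * (J + 1))) := Nat.find_min hex (by omega)
    rw [not_lt] at hmin
    rw [hJe] at hspec
    have hd := hJ' J n hmin
    have h1 : L < 2 ^ (J + 1) * (B * (J + 2)) * Real.log 2 := by
      have h2' : (n : ℝ) < 2 ^ (2 ^ (J + 1) * (B * (J + 1 + 1))) := by exact_mod_cast hspec
      have h3 := Real.log_lt_log (by linarith) h2'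
      rw [Real.log_pow] at h3
      rw [hL]
      push_cast at h3
      have e : ((J : ℝ) + 1 + 1) = J + 2 := by ring
      rw [e] at h3
      exact h3
    have h3 : 2 ^ J * Real.log 2 ≤ L := by
      have h2' : (2 : ℝ) ^ (2 ^ J * (B * (J + 1))) ≤ n := by exact_mod_cast hmin
      have h4 := Real.log_le_log (by positivity) h2'
      rw [Real.log_pow, ← hL] at h4
      refine le_trans ?_ h4
      apply mul_le_mul_of_nonneg_right _ (by linarith)
      push_cast
      have h5 : (1 : ℝ) ≤ B * (J + 1) := by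
        have : (0 : ℝ) ≤ J := Nat.cast_nonneg J
        nlinarith
      have h6 : (0 : ℝ) < 2 ^ J := by positivity
      nlinarith
    have h4 : (J : ℝ) / 2 - 0.7 ≤ Real.log L := by
      have h5 : Real.log (2 ^ J * Real.log 2) ≤ Real.log L := Real.log_le_log (by positivity) h3
      rw [Real.log_mul (by positivity) (by linarith), Real.log_pow] at h5
      have h6 : -Real.log 2 ≤ Real.log (Real.log 2) := by
        rw [← Real.log_inv]
        apply Real.log_le_log (by norm_num)
        norm_num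
        linarith
      have h7 : (J : ℝ) * (1 / 2) ≤ J * Real.log 2 :=
        mul_le_mul_of_nonneg_left hl2a.le (Nat.cast_nonneg J)
      linarith
    have h5 : ((J : ℝ) + 2) / 64 ≤ Real.log L := by linarith
    have h6 : 1 / (128 * B) * L / Real.log L ≤ 2 ^ J * Real.log 2 := by
      rw [div_le_iff₀ hlLpos]
      have h7 : 1 / (128 * B) * L ≤ 1 / (128 * B) * (2 ^ (J + 1) * (B * (J + 2)) * Real.log 2) :=
        mul_le_mul_of_nonneg_left h1.le (by positivity)
      have h8 : 1 / (128 * B) * (2 ^ (J + 1) * (B * (J + 2)) * Real.log 2) =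
          2 ^ J * Real.log 2 * ((J + 2) / 64) := by
        rw [pow_succ]; field_simp; ring
      rw [h8] at h7
      refine h7.trans ?_
      apply mul_le_mul_of_nonneg_left h5
      positivity
    calc Real.exp (1 / (128 * B) * L / Real.log L) ≤ Real.exp (2 ^ J * Real.log 2) :=
          Real.exp_le_exp.2 h6
      _ = 2 ^ (2 ^ J) := by
        have h9 : (2 : ℝ) ^ J * Real.log 2 = Real.log (2 ^ (2 ^ J)) := by
          rw [Real.log_pow]; push_cast; ring
        rw [h9, Real.exp_log (by positivity)]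
      _ ≤ d n := hd

end Pool.Agent.Helper64.RL
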