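import Pool.Agent.Helper64.RL.Defs

/-!
D1: the geometry of the blow-up. Lexicographic order: irreflexive, transitive, total. Injectivity:
`c + c' + 1 = a + a' + b` determines `c'` from `c` and conversely. Cover: for a set `A` of points of
the blow-up without visible pairs let `A₀` be the set of the atoms `(x, y)` such that some
`((x, c), (y, c'))` is in `A`; apply `h.cover` to `A₀`. `A₀` has no visible pair: let `(x, y)`,
`(x', y')` be a visible pair of `P ω`, with points `p = ((x, c), (y, d))`,
`p' = ((x', c'), (y', d'))` of `A` above them. Then `p, p'` is a visible pair of the blow-up: a point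
`((x'', c''), (y'', d''))` strictly between (lexicographically) has atom `(x'', y'') ∈ P` with
`x ≤ x'' ≤ x'`, `y ≤ y'' ≤ y'`. If `x'' = x` then `y'' = y` (`inj1`) and the point is in the same
decreasing chain as `p`, `c < c''` and `d < d''` contradict `c + d = c'' + d''`; same if `x'' = x'`.
Otherwise `y'' ≠ y`, `y'' ≠ y'` by `inj2`, so `(x'', y'')` is strictly between: contradiction.
Finally `(x, y) ∈ A₀ ⊆ C l` and membership in the chain give the points of `A` in `blowC`.
-/

namespace Pool.Agent.Helper64.RL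

open Finset

set_option linter.unusedSectionVars false
set_option linter.unusedVariables false

/-- D1: the geometry of the blow-up -/
theorem Geo.blow {Ω α Lab : Type} {lt : α → α → Prop} {P : Ω → α → α → Prop}
    {C : Lab → Ω → α → α → Prop} (h : Geo lt P C) (b : ℕ) :
    Geo (lexlt lt (fun i j : Fin (2 * b) => i < j)) (blowP b P) (blowC b C) where
  irrefl := by
    rintro ⟨x, c⟩ (h1 | ⟨-, h1⟩)
    · exact h.irrefl x h1
    · exact lt_irrefl _ h1
  trans := by
    rintro ⟨x, c⟩ ⟨y, d⟩ ⟨z, e⟩ (h1 | ⟨h1, h1'⟩) (h2 | ⟨h2, h2'⟩)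
    · exact Or.inl (h.trans _ _ _ h1 h2)
    · left
      simp only at h1 h2 ⊢
      rw [← h2]
      exact h1
    · left
      simp only at h1 h2 ⊢
      rw [h1]
      exact h2
    · right
      simp only at h1 h2 h1' h2' ⊢
      exact ⟨h1.trans h2, lt_trans h1' h2'⟩
  total := by
    rintro ⟨x, c⟩ ⟨y, d⟩
    rcases h.total x y with h1 | h1 | h1
    · exact Or.inl (Or.inl h1)
    · subst h1
      rcases lt_trichotomy c d with h2 | h2 | h2
      · exact Or.inl (Or.inr ⟨rfl, h2⟩)
      · subst h2
        exact Or.inr (Or.inl rfl)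
      · exact Or.inr (Or.inr (Or.inr ⟨rfl, h2⟩))
    · exact Or.inr (Or.inr (Or.inl h1))
  inj1 := by
    rintro ω ⟨x, c⟩ ⟨y, d⟩ ⟨y', d'⟩ ⟨h1, h2⟩ ⟨h3, h4⟩
    simp only at h1 h2 h3 h4
    have e := h.inj1 _ _ _ _ h1 h3
    subst e
    have e2 : d = d' := by
      apply Fin.ext
      have := h2.2.2
      have := h4.2.2
      omega
    rw [e2]
  inj2 := by
    rintro ω ⟨x, c⟩ ⟨x', c'⟩ ⟨y, d⟩ ⟨h1, h2⟩ ⟨h3, h4⟩
    simp only at h1 h2 h3 h4
    have e := h.inj2 _ _ _ _ h1 h3
    subst e
    have e2 : c = c' := by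
      apply Fin.ext
      have := h2.2.2
      have := h4.2.2
      omega
    rw [e2]
  sub := by
    rintro l ω ⟨x, c⟩ ⟨y, d⟩ ⟨h1, h2⟩
    exact ⟨h.sub _ _ _ _ h1, h2⟩
  cover := by
    intro ω A hA hV
    obtain ⟨l, hl⟩ := h.cover ω.1 (fun x y => ∃ c d, A (x, c) (y, d)) (by
      rintro x y ⟨c, d, hcd⟩
      exact (hA _ _ hcd).1) (by
      rintro x y x' y' ⟨c, d, hcd⟩ ⟨c', d', hcd'⟩ ⟨hx, hy, hbet⟩
      apply hV _ _ _ _ hcd hcd'
      refine ⟨Or.inl hx, Or.inl hy, ?_⟩
      rintro ⟨x'', c''⟩ ⟨y'', d''⟩ hP'' h1 h2 h3 h4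
      have hP := hA _ _ hcd
      have hP' := hA _ _ hcd'
      obtain ⟨hP1, hT1⟩ := hP
      obtain ⟨hP2, hT2⟩ := hP'
      obtain ⟨hP3, hT3⟩ := hP''
      simp only at hP1 hT1 hP2 hT2 hP3 hT3
      -- first comparison
      rcases h1 with h1 | ⟨h1, h1'⟩
      · rcases h2 with h2 | ⟨h2, h2'⟩
        · -- strictly between in the first coordinate
          simp only at h1 h2
          rcases h3 with h3 | ⟨h3, h3'⟩
          · rcases h4 with h4 | ⟨h4, h4'⟩
            · exact hbet _ _ hP3 h1 h2 h3 h4
            · simp only at h4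
              subst h4
              have := h.inj2 _ _ _ _ hP3 hP2
              subst this
              exact h.irrefl _ h2
          · simp only at h3
            subst h3
            have := h.inj2 _ _ _ _ hP3 hP1
            subst this
            exact h.irrefl _ h1
        · -- `x'' = x'`
          simp only at h2 h2'
          subst h2
          have := h.inj1 _ _ _ _ hP3 hP2
          subst this
          rcases h4 with h4 | ⟨-, h4'⟩
          · exact h.irrefl _ h4
          · simp only at h4'
            have a1 := hT2.2.2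
            have a2 := hT3.2.2
            have a3 : (c'' : ℕ) < c' := h2'
            have a4 : (d'' : ℕ) < d' := h4'
            omega
      · -- `x'' = x`
        simp only at h1 h1'
        subst h1
        have := h.inj1 _ _ _ _ hP3 hP1
        subst this
        rcases h3 with h3 | ⟨-, h3'⟩
        · exact h.irrefl _ h3
        · simp only at h3'
          have a1 := hT1.2.2
          have a2 := hT3.2.2
          have a3 : (c : ℕ) < c'' := h1'
          have a4 : (d : ℕ) < d'' := h3'
          omega)
    refine ⟨l, ?_⟩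
    rintro ⟨x, c⟩ ⟨y, d⟩ hxy
    exact ⟨hl _ _ ⟨c, d, hxy⟩, (hA _ _ hxy).2⟩

end Pool.Agent.Helper64.RL
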