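import Pool.Agent.Helper64.RL.Defs

/-!
D2: the geometry of the product. A point is `((κ, χ), (ρ, ψ))` with `P (cols κ) χ ρ` and
`P (rows ρ) κ ψ`. `inj1`: `(κ, χ)` determines `ρ` and then `ψ`; `inj2`: `(ρ, ψ)` determines `κ` and then
`χ`. Cover: given `A` without visible pairs, for each `κ` let `A_κ = {(χ, ρ) : some ((κ, χ), (ρ, ψ)) in A}`;
it has no visible pair of `P (cols κ)`: if `(χ, ρ)`, `(χ', ρ')` is one then the points of `A` above them
form a visible pair: a point `((κ'', χ''), (ρ'', ψ''))` strictly between has `κ'' = κ`,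
`χ < χ'' < χ'`, `ρ ≤ ρ'' ≤ ρ'`, and `ρ'' ≠ ρ, ρ'` by `inj2` of `P (cols κ)`. For each `ρ` let
`A^ρ = {(κ, ψ) : some ((κ, χ), (ρ, ψ)) in A}`, without visible pair of `P (rows ρ)`: a point strictly
between two such points has `ρ'' = ρ`, `ψ < ψ'' < ψ'`, `κ ≤ κ'' ≤ κ'` and `κ'' ≠ κ, κ'` by `inj1` of
`P (rows ρ)`. Choose the labels `L.1 κ`, `L.2 ρ` with `h.cover`.
-/

namespace Pool.Agent.Helper64.RL

open Finset

set_option linter.unusedSectionVars false
set_option linter.unusedVariables false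

/-- D2: the geometry of the product -/
theorem Geo.prod {Ω β Lab : Type} {lt : β → β → Prop} {P : Ω → β → β → Prop}
    {C : Lab → Ω → β → β → Prop} (h : Geo lt P C) :
    Geo (lexlt lt lt) (prodP P) (prodC C) where
  irrefl := by
    rintro x (hx | ⟨-, hx⟩)
    · exact h.irrefl _ hx
    · exact h.irrefl _ hx
  trans := by
    rintro x y z (hxy | ⟨hxy, hxy'⟩) (hyz | ⟨hyz, hyz'⟩)
    · exact Or.inl (h.trans _ _ _ hxy hyz)
    · exact Or.inl (hyz ▸ hxy)
    · exact Or.inl (hxy ▸ hyz)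
    · exact Or.inr ⟨hxy.trans hyz, h.trans _ _ _ hxy' hyz'⟩
  total := by
    rintro ⟨x, x'⟩ ⟨y, y'⟩
    rcases h.total x y with h1 | h1 | h1
    · exact Or.inl (Or.inl h1)
    · subst h1
      rcases h.total x' y' with h2 | h2 | h2
      · exact Or.inl (Or.inr ⟨rfl, h2⟩)
      · subst h2
        exact Or.inr (Or.inl rfl)
      · exact Or.inr (Or.inr (Or.inr ⟨rfl, h2⟩))
    · exact Or.inr (Or.inr (Or.inl h1))
  inj1 := by
    rintro ω ⟨κ, χ⟩ ⟨ρ, ψ⟩ ⟨ρ', ψ'⟩ ⟨h1, h2⟩ ⟨h3, h4⟩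
    have e1 : ρ = ρ' := h.inj1 _ _ _ _ h1 h3
    subst e1
    have e2 : ψ = ψ' := h.inj1 _ _ _ _ h2 h4
    subst e2
    rfl
  inj2 := by
    rintro ω ⟨κ, χ⟩ ⟨κ', χ'⟩ ⟨ρ, ψ⟩ ⟨h1, h2⟩ ⟨h3, h4⟩
    have e1 : κ = κ' := h.inj2 _ _ _ _ h2 h4
    subst e1
    have e2 : χ = χ' := h.inj2 _ _ _ _ h1 h3
    subst e2
    rfl
  sub := by
    rintro l ω x y ⟨h1, h2⟩
    exact ⟨h.sub _ _ _ _ h1, h.sub _ _ _ _ h2⟩
  cover := by
    intro ω A hA hvis
    have h1 : ∀ κ, ∃ l, ∀ χ ρ, (∃ ψ, A (κ, χ) (ρ, ψ)) → C l (ω.1 κ) χ ρ := by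
      intro κ
      refine h.cover (ω.1 κ) (fun χ ρ => ∃ ψ, A (κ, χ) (ρ, ψ)) ?_ ?_
      · rintro χ ρ ⟨ψ, hψ⟩
        exact (hA _ _ hψ).1
      · rintro χ ρ χ' ρ' ⟨ψ, hψ⟩ ⟨ψ', hψ'⟩ ⟨h1, h2, h3⟩
        apply hvis _ _ _ _ hψ hψ'
        refine ⟨Or.inr ⟨rfl, h1⟩, Or.inl h2, ?_⟩
        rintro ⟨κ'', χ''⟩ ⟨ρ'', ψ''⟩ ⟨h4, h4'⟩ h5 h6 h7 h8
        have hk : κ = κ'' ∧ lt χ χ'' := by
          rcases h5 with h5 | h5
          · exfalso
            rcases h6 with h6 | ⟨h6, -⟩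
            · exact h.irrefl _ (h.trans _ _ _ h5 h6)
            · change κ'' = κ at h6
              subst h6
              exact h.irrefl _ h5
          · exact h5
        obtain ⟨hk, hx1⟩ := hk
        subst hk
        have hx2 : lt χ'' χ' := by
          rcases h6 with h6 | ⟨-, h6⟩
          · exact absurd h6 (h.irrefl _)
          · exact h6
        have hr1 : lt ρ ρ'' := by
          rcases h7 with h7 | ⟨h7, -⟩
          · exact h7
          · exfalso
            change ρ = ρ'' at h7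
            subst h7
            have e : χ = χ'' := h.inj2 _ _ _ _ (hA _ _ hψ).1 h4
            subst e
            exact h.irrefl _ hx1
        have hr2 : lt ρ'' ρ' := by
          rcases h8 with h8 | ⟨h8, -⟩
          · exact h8
          · exfalso
            change ρ'' = ρ' at h8
            subst h8
            have e : χ' = χ'' := h.inj2 _ _ _ _ (hA _ _ hψ').1 h4
            subst e
            exact h.irrefl _ hx2
        exact h3 χ'' ρ'' h4 hx1 hx2 hr1 hr2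
    have h2 : ∀ ρ, ∃ l, ∀ κ ψ, (∃ χ, A (κ, χ) (ρ, ψ)) → C l (ω.2 ρ) κ ψ := by
      intro ρ
      refine h.cover (ω.2 ρ) (fun κ ψ => ∃ χ, A (κ, χ) (ρ, ψ)) ?_ ?_
      · rintro κ ψ ⟨χ, hχ⟩
        exact (hA _ _ hχ).2
      · rintro κ ψ κ' ψ' ⟨χ, hχ⟩ ⟨χ', hχ'⟩ ⟨h1, h2, h3⟩
        apply hvis _ _ _ _ hχ hχ'
        refine ⟨Or.inl h1, Or.inr ⟨rfl, h2⟩, ?_⟩
        rintro ⟨κ'', χ''⟩ ⟨ρ'', ψ''⟩ ⟨h4', h4⟩ h5 h6 h7 h8
        have hk : ρ = ρ'' ∧ lt ψ ψ'' := by
          rcases h7 with h7 | h7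
          · exfalso
            rcases h8 with h8 | ⟨h8, -⟩
            · exact h.irrefl _ (h.trans _ _ _ h7 h8)
            · change ρ'' = ρ at h8
              subst h8
              exact h.irrefl _ h7
          · exact h7
        obtain ⟨hk, hx1⟩ := hk
        subst hk
        have hx2 : lt ψ'' ψ' := by
          rcases h8 with h8 | ⟨-, h8⟩
          · exact absurd h8 (h.irrefl _)
          · exact h8
        have hr1 : lt κ κ'' := by
          rcases h5 with h5 | ⟨h5, -⟩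
          · exact h5
          · exfalso
            change κ = κ'' at h5
            subst h5
            have e : ψ = ψ'' := h.inj1 _ _ _ _ (hA _ _ hχ).2 h4
            subst e
            exact h.irrefl _ hx1
        have hr2 : lt κ'' κ' := by
          rcases h6 with h6 | ⟨h6, -⟩
          · exact h6
          · exfalso
            change κ'' = κ' at h6
            subst h6
            have e : ψ' = ψ'' := h.inj1 _ _ _ _ (hA _ _ hχ').2 h4
            subst e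
            exact h.irrefl _ hx2
        exact h3 κ'' ψ'' h4 hr1 hr2 hx1 hx2
    choose L1 hL1 using h1
    choose L2 hL2 using h2
    exact ⟨(L1, L2), fun x y hxy => ⟨hL1 _ _ _ ⟨y.2, hxy⟩, hL2 _ _ _ ⟨x.2, hxy⟩⟩⟩

end Pool.Agent.Helper64.RL
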