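import Pool.Agent.Helper64.RL.Step
import Pool.Agent.Helper64.RL.Base
import Pool.Agent.Helper55.RD.Iterate

/-!
L1: numerical recursion. Start with `Str.base` for
`Pool.Agent.Helper55.RD.good_iter 1 : Good (2 ^ (2 ^ 26)) (2 ^ (2 ^ 26) / 2 ^ (2 ^ 11))` (so
`δ = 2 ^ (-(2 ^ 11))`; keep `2 ^ (2 ^ 26)` opaque, e.g. generalize it to `N₀`). In step `j` use
`Str.step` with `b_j = 2 ^ (A₀ 2 ^ j)`, `s_j = 2 ^ (2 (50 · 2 ^ j + 4))`, `A₀` a large constant depending on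
`N₀`. The parameters after `j` steps: `8 γ_j = (8 γ₀) ^ (2 ^ j) = 2 ^ (-3 · 2 ^ j)`;
`m_j / N_j = 4 · 4 ^ (-2 ^ j)`; `4 N_j / e_j = 4 ^ (2 ^ j)`; with `τ_j = V_j / N_j`:
`τ_{j+1} = b_j (τ_j + 2)`, `κ_{j+1} = κ_j / b_j`, so `κ_j (τ_j + 2) ≤ 2 ^ j (N₀ + 2)`. The right side
of the condition of `Str.step` is `2 ^ (-28 · 2 ^ j - 22) ≥ 2 ^ (-50 · 2 ^ j) =: ε`;
`4 / √s = ε / 4`; `s / (2 b) ≤ ε / 4` and `128 s (τ + 2) κ / (2 b) ≤ ε ^ 2` if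
`A₀ 2 ^ j ≥ 200 · 2 ^ j + 16 + j + log₂ (N₀ + 2)`. `N_{j+1} = (2 b_j N_j) ^ 2`, so
`log₂ N_j ≤ 2 ^ j (log₂ N₀ + 2 + A₀ j)`. Finally `γ_j N_j / e_j = (32 γ₀) ^ (2 ^ j) / 32 = 2 ^ (-2 ^ j) / 32`.
-/

namespace Pool.Agent.Helper64.RL

open Finset

set_option linter.unusedSectionVars false
set_option linter.unusedVariables false

/-- the estimate for one step: `Y = 2 ^ P`, `P = 2 ^ j` -/
theorem step_cond {P L : ℕ} (hP : 1 ≤ P) {N m V κ γ : ℝ} (hN : 0 < N)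
    (h8 : 8 * γ = (1 / 8) ^ P) (hm : m = 4 * (1 / 4) ^ P * N) (hT0 : 0 ≤ κ * (V / N + 2))
    (hT : κ * (V / N + 2) ≤ P * 2 ^ L) :
    4 / Real.sqrt ((2 ^ (100 * P + 8) : ℕ) : ℝ) +
      ((2 ^ (100 * P + 8) : ℕ) : ℝ) / (2 * ((2 ^ ((213 + L) * P) : ℕ) : ℝ)) +
      2 * Real.sqrt (2 * ((2 ^ (100 * P + 8) : ℕ) : ℝ) * (V / N + 2) * κ /
        (2 * ((2 ^ ((213 + L) * P) : ℕ) : ℝ))) ≤ γ ^ 8 * (m / N) ^ 2 / 4 := by
  obtain ⟨Y, hY⟩ : ∃ Y : ℝ, Y = 2 ^ P := ⟨_, rfl⟩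
  have hY2 : 2 ≤ Y := by
    rw [hY]
    calc (2 : ℝ) = 2 ^ 1 := (pow_one _).symm
      _ ≤ 2 ^ P := pow_le_pow_right₀ (by norm_num) hP
  have hY0 : 0 < Y := by linarith
  have hPY : (P : ℝ) ≤ Y := by
    rw [hY]
    exact_mod_cast (Nat.lt_two_pow_self (n := P)).le
  have hs : ((2 ^ (100 * P + 8) : ℕ) : ℝ) = 256 * Y ^ 100 := by
    push_cast
    rw [hY, pow_add, ← pow_mul, mul_comm 100 P]
    norm_num
    ring
  have hb : ((2 ^ ((213 + L) * P) : ℕ) : ℝ) = Y ^ (213 + L) := by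
    push_cast
    rw [hY, ← pow_mul, mul_comm]
  have h8' : (1 / 8 : ℝ) ^ P = 1 / Y ^ 3 := by
    rw [hY, ← pow_mul, mul_comm, pow_mul, div_pow, one_pow]
    norm_num
  have h4' : (1 / 4 : ℝ) ^ P = 1 / Y ^ 2 := by
    rw [hY, ← pow_mul, mul_comm, pow_mul, div_pow, one_pow]
    norm_num
  have hγ : γ = 1 / (8 * Y ^ 3) := by
    rw [h8'] at h8
    field_simp
    field_simp at h8
    linarith
  have hmN : m / N = 4 / Y ^ 2 := by
    rw [hm, h4']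
    field_simp
  have h2L : (2 : ℝ) ^ L ≤ Y ^ L := pow_le_pow_left₀ (by norm_num) hY2 L
  rw [hs, hb, hγ, hmN]
  have hR : 1 / Y ^ 50 ≤ (1 / (8 * Y ^ 3)) ^ 8 * (4 / Y ^ 2) ^ 2 / 4 := by
    have e1 : (1 / (8 * Y ^ 3)) ^ 8 * (4 / Y ^ 2) ^ 2 / 4 = 1 / (2 ^ 22 * Y ^ 28) := by
      field_simp
      norm_num
    rw [e1]
    apply one_div_le_one_div_of_le (by positivity)
    calc 2 ^ 22 * Y ^ 28 ≤ Y ^ 22 * Y ^ 28 :=
          mul_le_mul_of_nonneg_right (pow_le_pow_left₀ (by norm_num) hY2 22) (by positivity)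
      _ = Y ^ 50 := by rw [← pow_add]
  refine le_trans ?_ hR
  have t1 : 4 / Real.sqrt (256 * Y ^ 100) = 1 / (4 * Y ^ 50) := by
    have : 256 * Y ^ 100 = (16 * Y ^ 50) ^ 2 := by ring
    rw [this, Real.sqrt_sq (by positivity)]
    field_simp
    norm_num
  have t2 : 256 * Y ^ 100 / (2 * Y ^ (213 + L)) ≤ 1 / (4 * Y ^ 50) := by
    rw [div_le_div_iff₀ (by positivity) (by positivity)]
    calc 256 * Y ^ 100 * (4 * Y ^ 50) = 2 * (2 ^ 9 * Y ^ 150) := by ring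
      _ ≤ 2 * (Y ^ 9 * Y ^ 150) := by
          have := pow_le_pow_left₀ (by norm_num : (0 : ℝ) ≤ 2) hY2 9
          have h3 : (0 : ℝ) ≤ Y ^ 150 := by positivity
          nlinarith
      _ = 2 * Y ^ 159 := by rw [← pow_add]
      _ ≤ 2 * Y ^ (213 + L) := by
          have := pow_le_pow_right₀ (by linarith : (1 : ℝ) ≤ Y) (by omega : 159 ≤ 213 + L)
          linarith
      _ = 1 * (2 * Y ^ (213 + L)) := by ring
  have t3 : Real.sqrt (2 * (256 * Y ^ 100) * (V / N + 2) * κ / (2 * Y ^ (213 + L))) ≤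
      1 / (4 * Y ^ 50) := by
    apply Real.sqrt_le_iff.2
    refine ⟨by positivity, ?_⟩
    have e1 : 2 * (256 * Y ^ 100) * (V / N + 2) * κ / (2 * Y ^ (213 + L)) =
        256 * Y ^ 100 * (κ * (V / N + 2)) / Y ^ (213 + L) := by
      field_simp
    rw [e1, div_pow, one_pow, div_le_div_iff₀ (by positivity) (by positivity)]
    have h3 : κ * (V / N + 2) ≤ Y * Y ^ L := by
      calc κ * (V / N + 2) ≤ P * 2 ^ L := hT
        _ ≤ Y * Y ^ L := mul_le_mul hPY h2L (by positivity) hY0.le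
    calc 256 * Y ^ 100 * (κ * (V / N + 2)) * (4 * Y ^ 50) ^ 2
        ≤ 256 * Y ^ 100 * (Y * Y ^ L) * (4 * Y ^ 50) ^ 2 := by gcongr
      _ = 2 ^ 12 * Y ^ (201 + L) := by
          rw [pow_add]
          ring
      _ ≤ Y ^ 12 * Y ^ (201 + L) :=
          mul_le_mul_of_nonneg_right (pow_le_pow_left₀ (by norm_num) hY2 12) (by positivity)
      _ = 1 * Y ^ (213 + L) := by
          rw [← pow_add, one_mul]
          congr 1
          omega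
  rw [t1]
  have e2 : 1 / (4 * Y ^ 50) + 1 / (4 * Y ^ 50) + 2 * (1 / (4 * Y ^ 50)) = 1 / Y ^ 50 := by
    field_simp
    norm_num
  linarith

/-- the recursion, from any starting structure -/
theorem iterate_aux {N₀ L : ℕ} (hN₀ : 0 < N₀) (hL : N₀ + 2 ≤ 2 ^ L)
    (h0 : Str N₀ ((1 / 2) ^ 6) N₀ (N₀ ^ 2) 1 N₀) (hL4 : 4 * N₀ ≤ 2 ^ (L + 2)) (J : ℕ) :
    ∃ (N : ℕ) (γ m V κ e : ℝ), Str N γ m V κ e ∧ 0 < N ∧ 0 < γ ∧ 0 < V ∧ 0 < κ ∧ κ ≤ 1 ∧ 0 < e ∧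
      8 * γ = (1 / 8) ^ (2 ^ J) ∧ m = 4 * (1 / 4) ^ (2 ^ J) * N ∧ 4 * (N : ℝ) = 4 ^ (2 ^ J) * e ∧
      κ * (V / N + 2) ≤ ((2 ^ J : ℕ) : ℝ) * 2 ^ L ∧
      4 * N ≤ 2 ^ (2 ^ J * (L + 2 + (213 + L) * J)) := by
  induction J with
  | zero =>
    have hR : (0 : ℝ) < N₀ := by exact_mod_cast hN₀
    refine ⟨N₀, (1 / 2) ^ 6, N₀, N₀ ^ 2, 1, N₀, h0, hN₀, by positivity, by positivity, one_pos,
      le_rfl, hR, by norm_num, by norm_num, by norm_num, ?_, ?_⟩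
    · have e1 : 1 * ((N₀ : ℝ) ^ 2 / N₀ + 2) = N₀ + 2 := by
        field_simp
      rw [e1]
      have : ((N₀ + 2 : ℕ) : ℝ) ≤ ((2 ^ L : ℕ) : ℝ) := by exact_mod_cast hL
      push_cast at this ⊢
      simpa using this
    · simpa using hL4
  | succ J ih =>
    obtain ⟨N, γ, m, V, κ, e, hS, hN, hγ, hV, hκ, hκ1, he, h8, hm, hNe, hT, hNl⟩ := ih
    have hR : (0 : ℝ) < N := by exact_mod_cast hN
    set P : ℕ := 2 ^ J with hP
    have hP1 : 1 ≤ P := Nat.one_le_two_pow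
    have hPs : 2 ^ (J + 1) = P * 2 := by rw [hP, pow_succ]
    have hm0 : 0 < m := by rw [hm]; positivity
    have hγ1 : γ < 1 := by
      have : (1 / 8 : ℝ) ^ P ≤ 1 := pow_le_one₀ (by norm_num) (by norm_num)
      linarith
    set b : ℕ := 2 ^ ((213 + L) * P) with hb
    have hb0 : 0 < b := by rw [hb]; positivity
    have hbR : (0 : ℝ) < b := by exact_mod_cast hb0
    have hb1 : (1 : ℝ) ≤ b := by exact_mod_cast hb0
    have hτ : 0 < V / (N : ℝ) := by positivity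
    have hstep := hS.step hN hγ hγ1 hm0 hV hκ b hb0 (2 ^ (100 * P + 8)) (by positivity)
      (step_cond hP1 hR h8 hm (by positivity) (by rw [hP]; exact hT))
    refine ⟨(2 * b * N) ^ 2, _, _, _, _, _, hstep, by positivity, by positivity, by positivity,
      by positivity, ?_, by positivity, ?_, ?_, ?_, ?_, ?_⟩
    · rw [div_le_one hbR]
      linarith
    · rw [hPs, pow_mul, ← h8]
      ring
    · rw [hPs, pow_mul, hm]
      push_cast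
      ring
    · rw [hPs, pow_mul]
      push_cast
      have e1 : 4 * (2 * (b : ℝ) * N) ^ 2 = (b : ℝ) ^ 2 * (4 * (N : ℝ)) ^ 2 := by ring
      rw [e1, hNe]
      ring
    · rw [hPs]
      push_cast
      have e1 : κ / b * (2 * (2 * (b : ℝ) * N) * ((b : ℝ) ^ 2 * (V + 2 * N)) /
          (2 * (b : ℝ) * N) ^ 2 + 2) = κ * (V / N + 2) + 2 * (κ / b) := by
        field_simp
      rw [e1]
      have h2 : κ / b ≤ κ := div_le_self hκ.le hb1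
      have h3 : 2 * κ ≤ κ * (V / N + 2) := by
        have : 0 < κ * (V / N) := by positivity
        nlinarith
      calc κ * (V / N + 2) + 2 * (κ / b) ≤ 2 * (κ * (V / N + 2)) := by linarith
        _ ≤ 2 * (((2 ^ J : ℕ) : ℝ) * 2 ^ L) := by linarith
        _ = (P : ℝ) * 2 * 2 ^ L := by rw [hP]; push_cast; ring
    · rw [hPs]
      calc 4 * (2 * b * N) ^ 2 = b ^ 2 * (4 * N) ^ 2 := by ring
        _ ≤ b ^ 2 * (2 ^ (P * (L + 2 + (213 + L) * J))) ^ 2 := by gcongr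
        _ = 2 ^ (P * 2 * (L + 2 + (213 + L) * (J + 1))) := by
            rw [hb, ← pow_mul, ← pow_mul, ← pow_add]
            congr 1
            ring

theorem start_aux (M K : ℕ) (hg : Pool.Agent.Helper55.RD.Good (2 ^ M) (2 ^ M / 2 ^ K)) :
    ∃ N₀ : ℕ, 0 < N₀ ∧ Pool.Agent.Helper55.RD.Good N₀ (1 / 2 ^ K * (N₀ : ℝ)) := by
  refine ⟨2 ^ M, Nat.pow_pos (by norm_num), hg.mono (le_of_eq ?_)⟩
  rw [div_mul_eq_mul_div, one_mul]
  push_cast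
  rfl

theorem start_good : ∃ N₀ : ℕ, 0 < N₀ ∧
    Pool.Agent.Helper55.RD.Good N₀ (1 / 2 ^ (2 ^ 11) * (N₀ : ℝ)) := by
  have htt : Pool.Agent.Helper55.RD.PP 1 - Pool.Agent.Helper55.RD.tt 1 = 11 := rfl
  have h := start_aux (2 ^ Pool.Agent.Helper55.RD.PP 1)
    (2 ^ (Pool.Agent.Helper55.RD.PP 1 - Pool.Agent.Helper55.RD.tt 1))
    (Pool.Agent.Helper55.RD.good_iter 1)
  rw [htt] at h
  exact h

/-- L1: numerical recursion -/
theorem Str.iterate : ∃ A : ℕ, ∀ J : ℕ, ∃ (N : ℕ) (γ m V κ e : ℝ), Str N γ m V κ e ∧ 0 < e ∧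
    0 < γ ∧ γ * N / e ≤ (1 / 2) ^ (2 ^ J) / 32 ∧ N ≤ 2 ^ (2 ^ J * (A * (J + 1))) := by
  obtain ⟨N₀, hpos, hg'⟩ := start_good
  have hδ : 2 * (1 / 2 ^ (2 ^ 11) : ℝ) ≤ (1 / 2) ^ 36 := by
    rw [div_pow, one_pow, mul_one_div, div_le_div_iff₀ (by positivity) (by positivity), one_mul]
    calc (2 : ℝ) * 2 ^ 36 = 2 ^ 37 := by norm_num
      _ ≤ 2 ^ (2 ^ 11) := pow_le_pow_right₀ (by norm_num) (by norm_num)
  have h0 := Str.base hpos hg' hδ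
  obtain ⟨L, hL⟩ : ∃ L : ℕ, N₀ + 2 ≤ 2 ^ L :=
    ⟨N₀ + 2, Nat.lt_two_pow_self.le⟩
  refine ⟨213 + L, fun J => ?_⟩
  obtain ⟨N, γ, m, V, κ, e, hS, hN, hγ, hV, hκ, hκ1, he, h8, hm, hNe, hT, hNl⟩ :=
    iterate_aux hpos hL h0 (by rw [pow_add]; omega) J
  refine ⟨N, γ, m, V, κ, e, hS, he, hγ, ?_, ?_⟩
  · apply le_of_eq
    have e1 : γ = (1 / 8) ^ (2 ^ J) / 8 := by linarith
    have e2 : (N : ℝ) = 4 ^ (2 ^ J) * e / 4 := by linarith
    have e3 : (1 / 2 : ℝ) ^ (2 ^ J) = (1 / 8) ^ (2 ^ J) * 4 ^ (2 ^ J) := by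
      rw [← mul_pow]
      norm_num
    rw [e3, e1, e2]
    field_simp
    norm_num
  · calc N ≤ 4 * N := by omega
      _ ≤ 2 ^ (2 ^ J * (L + 2 + (213 + L) * J)) := hNl
      _ ≤ 2 ^ (2 ^ J * ((213 + L) * (J + 1))) := by
          apply Nat.pow_le_pow_right (by norm_num)
          apply Nat.mul_le_mul_left
          nlinarith

end Pool.Agent.Helper64.RL
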