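import Pool.Agent.Helper64.RL.Defs

/-!
D3: the indicator kernel of a geometric structure has row and column sums at most one
(injectivity). D4: rows, columns and total sum of the position matrix: the pairs `(c, c')` with `TT`
are `(a + i, a' + (b - 1 - i))`, `i < b`.
-/

namespace Pool.Agent.Helper64.RL

open Finset

set_option linter.unusedSectionVars false
set_option linter.unusedVariables false

/-- a sum of indicators of at most one true proposition is at most one -/
theorem kf_sum_ind_le_one {α : Type*} [Fintype α] (p : α → Prop)
    (h : ∀ x y, p x → p y → x = y) : ∑ x, ind (p x) ≤ 1 := by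
  classical
  by_cases hx : ∃ x, p x
  · obtain ⟨x, hx⟩ := hx
    have h1 : ∑ y, ind (p y) = ind (p x) := by
      apply Finset.sum_eq_single x
      · intro y _ hy
        exact ind_false (fun hpy => hy (h y x hpy hx))
      · intro hx'
        exact absurd (Finset.mem_univ x) hx'
    rw [h1]
    exact ind_le_one _
  · push Not at hx
    have h1 : ∑ y, ind (p y) = 0 := Finset.sum_eq_zero (fun y _ => ind_false (hx y))
    rw [h1]
    norm_num

/-- D3: kernels -/
theorem Geo.isKer {Ω α Lab : Type} [Fintype α] {lt : α → α → Prop} {P : Ω → α → α → Prop}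
    {C : Lab → Ω → α → α → Prop} (h : Geo lt P C) : IsKer (ker C) := by
  refine ⟨fun l ω x y => ind_nonneg _, fun l ω x => ?_, fun l ω y => ?_⟩
  · apply kf_sum_ind_le_one
    intro y y' hy hy'
    exact h.inj1 ω x y y' (h.sub l ω x y hy) (h.sub l ω x y' hy')
  · apply kf_sum_ind_le_one
    intro x x' hx hx'
    exact h.inj2 ω x x' y (h.sub l ω x y hx) (h.sub l ω x' y hx')

/-- D4: rows and columns of the position matrix -/
theorem TT_sums (b : ℕ) (a a' : Fin b) :
    (∀ c, ∑ c', ind (TT b a a' c c') ≤ 1) ∧ (∀ c', ∑ c, ind (TT b a a' c c') ≤ 1) ∧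
      ∑ c, ∑ c', ind (TT b a a' c c') = b := by
  classical
  refine ⟨fun c => ?_, fun c' => ?_, ?_⟩
  · apply kf_sum_ind_le_one
    intro x y hx hy
    unfold TT at hx hy
    apply Fin.ext
    omega
  · apply kf_sum_ind_le_one
    intro x y hx hy
    unfold TT at hx hy
    apply Fin.ext
    omega
  · have ha := a.isLt
    have ha' := a'.isLt
    have h1 : ∀ c : Fin (2 * b), ∑ c', ind (TT b a a' c c') =
        if ((a : ℕ) ≤ c ∧ (c : ℕ) < a + b) then (1 : ℝ) else 0 := by
      intro c
      split_ifs with hc
      · have hlt : (a : ℕ) + a' + b - c - 1 < 2 * b := by omega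
        rw [Finset.sum_eq_single (⟨(a : ℕ) + a' + b - c - 1, hlt⟩ : Fin (2 * b))]
        · apply ind_true
          refine ⟨hc.1, hc.2, ?_⟩
          show (c : ℕ) + ((a : ℕ) + a' + b - c - 1) + 1 = a + a' + b
          omega
        · intro y _ hy
          apply ind_false
          intro hT
          apply hy
          apply Fin.ext
          show (y : ℕ) = (a : ℕ) + a' + b - c - 1
          have := hT.2.2
          omega
        · intro hx'
          exact absurd (Finset.mem_univ _) hx'
      · apply Finset.sum_eq_zero
        intro y _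
        apply ind_false
        intro hT
        exact hc ⟨hT.1, hT.2.1⟩
    rw [Finset.sum_congr rfl (fun c _ => h1 c)]
    rw [← Finset.sum_filter, Finset.sum_const, nsmul_eq_mul, mul_one]
    congr 1
    have h2 : (Finset.univ.filter (fun c : Fin (2 * b) => (a : ℕ) ≤ c ∧ (c : ℕ) < a + b)) =
        Finset.map (⟨fun i : Fin b => (⟨(a : ℕ) + (i : ℕ), by have := i.isLt; omega⟩ : Fin (2 * b)),
          by
            intro i j hij
            apply Fin.ext
            have h5 := congrArg Fin.val hij
            simp only at h5
            omega⟩ : Fin b ↪ Fin (2 * b)) (Finset.univ : Finset (Fin b)) := by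
      ext c
      simp only [Finset.mem_filter, Finset.mem_univ, true_and, Finset.mem_map,
        Function.Embedding.coeFn_mk]
      constructor
      · rintro ⟨h1, h2⟩
        refine ⟨⟨(c : ℕ) - a, by omega⟩, ?_⟩
        apply Fin.ext
        show (a : ℕ) + ((c : ℕ) - a) = c
        omega
      · rintro ⟨i, hi⟩
        have h3 : (a : ℕ) + (i : ℕ) = c := congrArg Fin.val hi
        have := i.isLt
        omega
    rw [h2, Finset.card_map, Finset.card_univ, Fintype.card_fin]

end Pool.Agent.Helper64.RL
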