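import Pool.Agent.Helper64.RL.AvgPi
import Pool.Agent.Helper55.RD.Hoeff

/-!
C1: sampling `m` positions in every cell. By linearity and `avg_pi_eval` it suffices to treat one
cell, where it is `Pool.Agent.Helper55.RD.sample_abs` with `η = 1 / (2 √m)`, multiplied by the number
of positions.
-/

namespace Pool.Agent.Helper64.RL

open Finset

set_option linter.unusedSectionVars false
set_option linter.unusedVariables false

/-- C1: sampling in the cells. `X` is any function on the points of the cells with values in
`[0, 1]`. -/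
theorem sample_cells {α A : Type} [Fintype α] [DecidableEq α] [Fintype A] [Nonempty A]
    [DecidableEq A] (X : α → A → ℝ) (h0 : ∀ v c, 0 ≤ X v c) (h1 : ∀ v c, X v c ≤ 1) (m : ℕ)
    (hm : 0 < m) :
    avg (fun s : α → Fin m → A => ∑ v, |(Fintype.card A : ℝ) / m * ∑ i, X v (s v i) -
      ∑ c, X v c|) ≤ Fintype.card α * Fintype.card A / Real.sqrt m := by
  have hm0 : (0 : ℝ) < m := by exact_mod_cast hm
  have hA0 : (0 : ℝ) < Fintype.card A := by exact_mod_cast Fintype.card_pos
  have hs0 : 0 < Real.sqrt m := Real.sqrt_pos.mpr hm0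
  rw [avg_sum]
  have key : ∀ v, avg (fun s : α → Fin m → A => |(Fintype.card A : ℝ) / m * ∑ i, X v (s v i) -
      ∑ c, X v c|) ≤ Fintype.card A / Real.sqrt m := by
    intro v
    rw [avg_pi_eval v (fun s : Fin m → A => |(Fintype.card A : ℝ) / m * ∑ i, X v (s i) -
      ∑ c, X v c|)]
    have h2 := Pool.Agent.Helper55.RD.sample_abs (X v) (h0 v) (h1 v) m hm (1 / (2 * Real.sqrt m))
      (by positivity) (by
        rw [div_pow, mul_pow, Real.sq_sqrt hm0.le]
        apply le_of_eq
        field_simp
        norm_num)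
    have h3 : ∀ s : Fin m → A, |(Fintype.card A : ℝ) / m * ∑ i, X v (s i) - ∑ c, X v c| =
        Fintype.card A * |(∑ l, X v (s l)) / m - (∑ e, X v e) / Fintype.card A| := by
      intro s
      rw [← abs_of_pos hA0, ← abs_mul, abs_of_pos hA0]
      congr 1
      field_simp
    simp only [h3]
    rw [avg_mul_left]
    unfold avg
    have h4 : (∑ s : Fin m → A, |(∑ l, X v (s l)) / m - (∑ e, X v e) / Fintype.card A|) /
        (Fintype.card (Fin m → A) : ℝ) ≤ 1 / (2 * Real.sqrt m) := by
      rw [Fintype.card_fun, Fintype.card_fin, div_le_iff₀ (by positivity)]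
      push_cast
      rw [mul_comm]
      exact h2
    calc (Fintype.card A : ℝ) * ((∑ s : Fin m → A, |(∑ l, X v (s l)) / m -
          (∑ e, X v e) / Fintype.card A|) / (Fintype.card (Fin m → A) : ℝ))
        ≤ Fintype.card A * (1 / (2 * Real.sqrt m)) := mul_le_mul_of_nonneg_left h4 hA0.le
      _ ≤ Fintype.card A * (1 / Real.sqrt m) := by
          apply mul_le_mul_of_nonneg_left _ hA0.le
          apply one_div_le_one_div_of_le hs0
          linarith
      _ = Fintype.card A / Real.sqrt m := by ring
  calc ∑ v : α, avg (fun s : α → Fin m → A => |(Fintype.card A : ℝ) / m * ∑ i, X v (s v i) -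
      ∑ c, X v c|) ≤ ∑ _v : α, (Fintype.card A : ℝ) / Real.sqrt m :=
        Finset.sum_le_sum (fun v _ => key v)
    _ = Fintype.card α * Fintype.card A / Real.sqrt m := by
        rw [Finset.sum_const, Finset.card_univ, nsmul_eq_mul]
        ring

end Pool.Agent.Helper64.RL
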