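import Pool.Agent.Helper64.RL.Defs

/-!
B6: expected maximum of finitely many sub-Gaussian functions. With `M ω` the maximum and
`t = √(2 L / V)`: `exp (t avg M) ≤ avg exp (t M) ≤ ∑ i, avg exp (t (Φ i - avg (Φ i))) ≤
|I| exp (t ^ 2 V / 2)`, so `avg M ≤ L / t + t V / 2 = √(2 V L)`.
-/

namespace Pool.Agent.Helper64.RL

open Finset

set_option linter.unusedSectionVars false
set_option linter.unusedVariables false

/-- B6: the largest of finitely many functions -/
theorem SubG.max_le {Ω I : Type} [Fintype Ω] [Nonempty Ω] [Fintype I] [Nonempty I]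
    {D : Ω → Ω → ℝ} {V L : ℝ} (hV : 0 < V) (hL : 0 < L) (h : SubG D V)
    (hI : Real.log (Fintype.card I) ≤ L) (Φ : I → Ω → ℝ)
    (hΦ : ∀ i ω ω', Φ i ω - Φ i ω' ≤ D ω ω') :
    avg (fun ω => Finset.univ.sup' Finset.univ_nonempty (fun i => Φ i ω - avg (Φ i))) ≤
      Real.sqrt (2 * V * L) := by
  set M : Ω → ℝ := fun ω => Finset.univ.sup' Finset.univ_nonempty (fun i => Φ i ω - avg (Φ i))
    with hM
  set t : ℝ := Real.sqrt (2 * L / V) with ht
  have ht0 : 0 < t := Real.sqrt_pos.mpr (by positivity)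
  have ht2 : t ^ 2 * V = 2 * L := by
    rw [ht, Real.sq_sqrt (by positivity)]
    field_simp
  -- Jensen
  have h1 : Real.exp (t * avg M) ≤ avg (fun ω => Real.exp (t * M ω)) := by
    have h2 : ∀ ω, Real.exp (t * avg M) * (1 - t * avg M) + Real.exp (t * avg M) * t * M ω ≤
        Real.exp (t * M ω) := by
      intro ω
      have h3 : t * M ω - t * avg M + 1 ≤ Real.exp (t * M ω - t * avg M) :=
        Real.add_one_le_exp _
      have h4 : Real.exp (t * M ω) = Real.exp (t * avg M) * Real.exp (t * M ω - t * avg M) := by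
        rw [← Real.exp_add]; congr 1; ring
      rw [h4]
      have h5 := mul_le_mul_of_nonneg_left h3 (Real.exp_pos (t * avg M)).le
      calc Real.exp (t * avg M) * (1 - t * avg M) + Real.exp (t * avg M) * t * M ω
          = Real.exp (t * avg M) * (t * M ω - t * avg M + 1) := by ring
        _ ≤ _ := h5
    have h6 := avg_mono h2
    rw [avg_add, avg_const, avg_mul_left] at h6
    calc Real.exp (t * avg M)
        = Real.exp (t * avg M) * (1 - t * avg M) + Real.exp (t * avg M) * t * avg M := by ring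
      _ ≤ _ := h6
  -- union bound
  have h2 : avg (fun ω => Real.exp (t * M ω)) ≤
      ∑ i : I, avg (fun ω => Real.exp (t * (Φ i ω - avg (Φ i)))) := by
    rw [← avg_sum]
    apply avg_mono
    intro ω
    obtain ⟨i, -, hi⟩ := Finset.exists_mem_eq_sup' (Finset.univ_nonempty (α := I))
      (fun i => Φ i ω - avg (Φ i))
    have h3 : M ω = Φ i ω - avg (Φ i) := hi
    rw [h3]
    exact Finset.single_le_sum (f := fun i => Real.exp (t * (Φ i ω - avg (Φ i))))
      (fun j _ => (Real.exp_pos _).le) (Finset.mem_univ i)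
  have h3 : ∑ i : I, avg (fun ω => Real.exp (t * (Φ i ω - avg (Φ i)))) ≤
      (Fintype.card I : ℝ) * Real.exp (t ^ 2 * V / 2) := by
    calc ∑ i : I, avg (fun ω => Real.exp (t * (Φ i ω - avg (Φ i))))
        ≤ ∑ _i : I, Real.exp (t ^ 2 * V / 2) := Finset.sum_le_sum (fun i _ => h (Φ i) (hΦ i) t)
      _ = _ := by rw [Finset.sum_const, Finset.card_univ, nsmul_eq_mul]
  have hc : (0 : ℝ) < Fintype.card I := by exact_mod_cast Fintype.card_pos
  have h4 : (Fintype.card I : ℝ) ≤ Real.exp L := by
    rw [← Real.exp_log hc]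
    exact Real.exp_le_exp.mpr hI
  have h5 : Real.exp (t * avg M) ≤ Real.exp (2 * L) := by
    calc Real.exp (t * avg M) ≤ (Fintype.card I : ℝ) * Real.exp (t ^ 2 * V / 2) :=
          h1.trans (h2.trans h3)
      _ ≤ Real.exp L * Real.exp (t ^ 2 * V / 2) :=
          mul_le_mul_of_nonneg_right h4 (Real.exp_pos _).le
      _ = Real.exp (2 * L) := by
          rw [← Real.exp_add]; congr 1; rw [ht2]; ring
  have h6 : t * avg M ≤ 2 * L := Real.exp_le_exp.mp h5
  have h7 : t * Real.sqrt (2 * V * L) = 2 * L := by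
    rw [ht, ← Real.sqrt_mul (by positivity)]
    have : 2 * L / V * (2 * V * L) = (2 * L) ^ 2 := by field_simp
    rw [this, Real.sqrt_sq (by positivity)]
  exact le_of_mul_le_mul_left (h6.trans h7.ge) ht0

end Pool.Agent.Helper64.RL
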