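import Pool.Agent.Helper64.RL.Defs

/-!
Products of sub-Gaussian distances.
B2: for `Φ` on `Ω × Ω'` put `Ψ ω = avg (fun ω' => Φ (ω, ω'))`. Then `avg Φ = avg Ψ`, `Ψ` is Lipschitz
for `D` (take equal second coordinates, `hD'`), and `Φ (ω, ·)` is Lipschitz for `D'`. Write
`exp (t (Φ (ω, ω') - avg Φ)) = exp (t (Φ (ω, ω') - Ψ ω)) * exp (t (Ψ ω - avg Ψ))`.
B3: induction over the number of indices with B2 (e.g. first for `ι = Fin n` with
`Fin.consEquiv` / `Fin.insertNthEquiv`, then transport along `Fintype.equivFin`; or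
`Fintype.induction_empty_option`). B4: apply `h` to `Φ / s` and `t * s`.
-/

namespace Pool.Agent.Helper64.RL

open Finset

set_option linter.unusedSectionVars false
set_option linter.unusedVariables false

/-- B2: products -/
theorem SubG.sumD {Ω Ω' : Type} [Fintype Ω] [Nonempty Ω] [Fintype Ω'] [Nonempty Ω']
    {D : Ω → Ω → ℝ} {D' : Ω' → Ω' → ℝ} {V V' : ℝ} (h : SubG D V) (h' : SubG D' V')
    (hD : ∀ ω, D ω ω = 0) (hD' : ∀ ω, D' ω ω = 0) : SubG (sumD D D') (V + V') := by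
  intro Φ hΦ t
  set Ψ : Ω → ℝ := fun ω => avg (fun ω' => Φ (ω, ω')) with hΨ
  have hav : avg Φ = avg Ψ := avg_prod Φ
  have hΨL : ∀ ω ω₂, Ψ ω - Ψ ω₂ ≤ D ω ω₂ := by
    intro ω ω₂
    rw [hΨ]
    simp only
    rw [← avg_sub]
    apply avg_le_of
    intro ω'
    have := hΦ (ω, ω') (ω₂, ω')
    simpa [RL.sumD, hD'] using this
  have hΦL : ∀ ω, ∀ ω' ω₂', Φ (ω, ω') - Φ (ω, ω₂') ≤ D' ω' ω₂' := by
    intro ω ω' ω₂'
    have := hΦ (ω, ω') (ω, ω₂')
    simpa [RL.sumD, hD] using this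
  rw [avg_prod]
  have h1 : ∀ ω, avg (fun ω' => Real.exp (t * (Φ (ω, ω') - avg Φ))) ≤
      Real.exp (t * (Ψ ω - avg Ψ)) * Real.exp (t ^ 2 * V' / 2) := by
    intro ω
    have e1 : (fun ω' => Real.exp (t * (Φ (ω, ω') - avg Φ))) =
        fun ω' => Real.exp (t * (Ψ ω - avg Ψ)) *
          Real.exp (t * (Φ (ω, ω') - avg (fun ω' => Φ (ω, ω')))) := by
      funext ω'
      rw [← Real.exp_add]
      congr 1
      rw [hav]
      simp only [hΨ]
      ring
    rw [e1, avg_mul_left]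
    exact mul_le_mul_of_nonneg_left (h' (fun ω' => Φ (ω, ω')) (hΦL ω) t) (Real.exp_pos _).le
  refine (avg_mono h1).trans ?_
  rw [avg_mul_right]
  refine (mul_le_mul_of_nonneg_right (h Ψ hΨL t) (Real.exp_pos _).le).trans ?_
  rw [← Real.exp_add]
  apply le_of_eq
  congr 1
  ring

/-- transport -/
theorem SubG.transport {Ω Ω' : Type} [Fintype Ω] [Fintype Ω'] (e : Ω ≃ Ω')
    {D : Ω → Ω → ℝ} {D' : Ω' → Ω' → ℝ} {V : ℝ} (h : SubG D' V)
    (hD : ∀ ω ω₂, D ω ω₂ = D' (e ω) (e ω₂)) : SubG D V := by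
  intro Φ hΦ t
  have h1 := h (fun ω' => Φ (e.symm ω')) (by
    intro ω ω₂
    have := hΦ (e.symm ω) (e.symm ω₂)
    rw [hD] at this
    simpa using this) t
  have h2 : avg (fun ω' => Φ (e.symm ω')) = avg Φ := avg_equiv e.symm Φ
  rw [h2] at h1
  rwa [avg_equiv e.symm (fun ω => Real.exp (t * (Φ ω - avg Φ)))] at h1

theorem SubG.piD_aux {Ω : Type} [Fintype Ω] [Nonempty Ω]
    {D : Ω → Ω → ℝ} {V : ℝ} (h : SubG D V) (hD : ∀ ω, D ω ω = 0) (n : ℕ) :
    SubG (RL.piD (ι := Fin n) D) (n * V) := by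
  induction n with
  | zero =>
    intro Φ hΦ t
    have h1 : ∀ c c' : Fin 0 → Ω, c = c' := fun c c' => Subsingleton.elim _ _
    have h2 : ∀ c : Fin 0 → Ω, Φ c - avg Φ = 0 := by
      intro c
      have : Φ = fun _ => Φ c := by
        funext c'; rw [h1 c' c]
      have h3 : avg Φ = Φ c := by
        conv_lhs => rw [this]
        exact avg_const _
      rw [h3, sub_self]
    have h3 : (fun c => Real.exp (t * (Φ c - avg Φ))) = fun _ => (1 : ℝ) := by
      funext c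
      rw [h2 c, mul_zero, Real.exp_zero]
    rw [h3, avg_const]
    simp
  | succ n ih =>
    have h1 : SubG (RL.sumD D (RL.piD (ι := Fin n) D)) (V + n * V) :=
      SubG.sumD h ih hD (fun c => by unfold RL.piD; simp [hD])
    have h2 : SubG (RL.piD (ι := Fin (n + 1)) D) (V + n * V) := by
      refine SubG.transport (Fin.consEquiv (fun _ => Ω)).symm h1 ?_
      intro c c'
      unfold RL.piD RL.sumD
      rw [Fin.sum_univ_succ]
      rfl
    have e : ((n + 1 : ℕ) : ℝ) * V = V + n * V := by push_cast; ring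
    rw [e]
    exact h2

/-- B3: powers -/
theorem SubG.piD {ι Ω : Type} [Fintype ι] [DecidableEq ι] [Fintype Ω] [Nonempty Ω]
    {D : Ω → Ω → ℝ} {V : ℝ} (h : SubG D V) (hD : ∀ ω, D ω ω = 0) :
    SubG (piD (ι := ι) D) (Fintype.card ι * V) := by
  have h1 := SubG.piD_aux h hD (Fintype.card ι)
  refine SubG.transport (Equiv.arrowCongr (Fintype.equivFin ι) (Equiv.refl Ω)) h1 ?_
  intro c c'
  unfold RL.piD
  rw [← Equiv.sum_comp (Fintype.equivFin ι)]
  apply Finset.sum_congr rfl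
  intro i _
  simp [Equiv.arrowCongr]

/-- B4: scaling -/
theorem SubG.smul {Ω : Type} [Fintype Ω] [Nonempty Ω] {D : Ω → Ω → ℝ} {V : ℝ} (h : SubG D V)
    {s : ℝ} (hs : 0 < s) : SubG (fun ω ω' => s * D ω ω') (s ^ 2 * V) := by
  intro Φ hΦ t
  have h1 := h (fun ω => s⁻¹ * Φ ω) (by
    intro ω ω'
    have := hΦ ω ω'
    rw [← mul_sub, inv_mul_le_iff₀ hs]
    exact this) (t * s)
  rw [avg_mul_left] at h1
  have e1 : (fun ω => Real.exp (t * s * (s⁻¹ * Φ ω - s⁻¹ * avg Φ))) =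
      fun ω => Real.exp (t * (Φ ω - avg Φ)) := by
    funext ω
    congr 1
    field_simp
  rw [e1] at h1
  refine h1.trans (le_of_eq ?_)
  congr 1
  ring

end Pool.Agent.Helper64.RL
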