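import Pool.Agent.Helper64.RL.AvgPi
import Pool.Agent.Helper64.RL.SubGProd
import Pool.Agent.Helper64.RL.SubGMax
import Pool.Agent.Helper64.RL.Sample

/-!
G1: the main inequality.
-/

namespace Pool.Agent.Helper64.RL

open Finset

set_option linter.unusedSectionVars false
set_option linter.unusedVariables false

section main

variable {Ω α A Lab : Type} [Fintype Ω] [Nonempty Ω] [Fintype α] [DecidableEq α]
    [Fintype A] [Nonempty A] [DecidableEq A] [Fintype Lab] [Nonempty Lab]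

/-- sampled version of a function: positions `s`, values `h` at the sampled positions -/
noncomputable def smp {m : ℕ} (s : α → Fin m → A) (h : α × A → Fin m → ℝ) (κ : α × A) : ℝ :=
  (Fintype.card A : ℝ) / m * ∑ i, if s κ.1 i = κ.2 then h κ i else 0

theorem smp_nonneg {m : ℕ} (s : α → Fin m → A) {h : α × A → Fin m → ℝ} (h0 : ∀ κ i, 0 ≤ h κ i)
    (κ : α × A) : 0 ≤ smp s h κ := by
  unfold smp
  apply mul_nonneg (by positivity)
  apply Finset.sum_nonneg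
  intro i _
  split_ifs
  · exact h0 κ i
  · exact le_rfl

theorem smp_sum {m : ℕ} (s : α → Fin m → A) (h : α × A → Fin m → ℝ) (v : α) (X : A → ℝ) :
    ∑ c, smp s h (v, c) * X c = (Fintype.card A : ℝ) / m * ∑ i, h (v, s v i) i * X (s v i) := by
  unfold smp
  simp only [mul_assoc, Finset.sum_mul]
  rw [← Finset.mul_sum, Finset.sum_comm]
  congr 1
  apply Finset.sum_congr rfl
  intro i _
  simp only [ite_mul, zero_mul]
  rw [Finset.sum_ite_eq Finset.univ (s v i) (fun c => h (v, c) i * X c)]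
  simp

theorem smp_sum_le {m : ℕ} (hm : 0 < m) (s : α → Fin m → A) {h : α × A → Fin m → ℝ}
    (h1 : ∀ κ i, h κ i ≤ 1) (v : α) : ∑ c, smp s h (v, c) ≤ Fintype.card A := by
  have e := smp_sum s h v (fun _ => 1)
  simp only [mul_one] at e
  rw [e]
  have hm0 : (0 : ℝ) < m := by exact_mod_cast hm
  have h2 : ∑ i, h (v, s v i) i ≤ m := by
    calc ∑ i, h (v, s v i) i ≤ ∑ _i : Fin m, (1 : ℝ) := Finset.sum_le_sum (fun i _ => h1 _ i)
      _ = m := by simp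
  calc (Fintype.card A : ℝ) / m * ∑ i, h (v, s v i) i ≤ (Fintype.card A : ℝ) / m * m := by
        apply mul_le_mul_of_nonneg_left h2 (by positivity)
    _ = Fintype.card A := by field_simp

theorem val_tensor (K : Lab → Ω → α × A → α × A → ℝ) (ω : Ω) (l : Lab) (h g : α × A → ℝ) :
    val K ω l (fun χ ρ => h χ * g ρ) = ∑ χ, h χ * ∑ ρ, K l ω χ ρ * g ρ := by
  unfold val
  apply Finset.sum_congr rfl
  intro χ _
  rw [Finset.mul_sum]
  apply Finset.sum_congr rfl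
  intro ρ _
  ring

/-- sampling error for one sample of the structure -/
noncomputable def rerr {m : ℕ} (p : Ω → α × A → α × A → ℝ) (ω : Ω) (s : α → Fin m → A)
    (h g : α × A → ℝ) : ℝ :=
  ∑ v, |(Fintype.card A : ℝ) / m * ∑ i, h (v, s v i) * (∑ ρ, p ω (v, s v i) ρ * g ρ) -
      ∑ c, h (v, c) * (∑ ρ, p ω (v, c) ρ * g ρ)|

theorem val_smp {m : ℕ} {K : Lab → Ω → α × A → α × A → ℝ} {p : Ω → α × A → α × A → ℝ}
    {σ : Lab → Ω → α → ℝ} (hσ0 : ∀ l ω v, 0 ≤ σ l ω v) (hσ1 : ∀ l ω v, σ l ω v ≤ 1)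
    (hfac : ∀ l ω κ ρ, K l ω κ ρ = σ l ω κ.1 * p ω κ ρ) (ω : Ω) (l : Lab) (s : α → Fin m → A)
    (h g : α × A → ℝ) :
    |val K ω l (fun χ ρ => smp s (fun κ _ => h κ) χ * g ρ) - val K ω l (fun χ ρ => h χ * g ρ)| ≤
      rerr p ω s h g := by
  have e : ∀ u : α × A → ℝ, val K ω l (fun χ ρ => u χ * g ρ) =
      ∑ v, σ l ω v * ∑ c, u (v, c) * (∑ ρ, p ω (v, c) ρ * g ρ) := by
    intro u
    rw [val_tensor, Fintype.sum_prod_type]
    apply Finset.sum_congr rfl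
    intro v _
    rw [Finset.mul_sum]
    apply Finset.sum_congr rfl
    intro c _
    have : ∑ ρ, K l ω (v, c) ρ * g ρ = σ l ω v * ∑ ρ, p ω (v, c) ρ * g ρ := by
      rw [Finset.mul_sum]
      apply Finset.sum_congr rfl
      intro ρ _
      rw [hfac]
      ring
    rw [this]
    ring
  rw [e, e, ← Finset.sum_sub_distrib]
  refine (Finset.abs_sum_le_sum_abs _ _).trans ?_
  unfold rerr
  apply Finset.sum_le_sum
  intro v _
  rw [smp_sum s (fun κ _ => h κ) v (fun c => ∑ ρ, p ω (v, c) ρ * g ρ), ← mul_sub, abs_mul,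
    abs_of_nonneg (hσ0 l ω v)]
  exact mul_le_of_le_one_left (abs_nonneg _) (hσ1 l ω v)

theorem Mx_smp_le {m : ℕ} {K : Lab → Ω → α × A → α × A → ℝ} {p : Ω → α × A → α × A → ℝ}
    {σ : Lab → Ω → α → ℝ} (hσ0 : ∀ l ω v, 0 ≤ σ l ω v) (hσ1 : ∀ l ω v, σ l ω v ≤ 1)
    (hfac : ∀ l ω κ ρ, K l ω κ ρ = σ l ω κ.1 * p ω κ ρ) (ω : Ω) (s : α → Fin m → A)
    (h g : α × A → ℝ) :
    Mx K ω (fun χ ρ => smp s (fun κ _ => h κ) χ * g ρ) ≤
      Mx K ω (fun χ ρ => h χ * g ρ) + rerr p ω s h g := by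
  apply Mx_le
  intro l
  have h1 := (abs_le.mp (val_smp hσ0 hσ1 hfac ω l s h g)).2
  have h2 := le_Mx K ω (fun χ ρ => h χ * g ρ) l
  linarith

theorem Mx_le_smp {m : ℕ} {K : Lab → Ω → α × A → α × A → ℝ} {p : Ω → α × A → α × A → ℝ}
    {σ : Lab → Ω → α → ℝ} (hσ0 : ∀ l ω v, 0 ≤ σ l ω v) (hσ1 : ∀ l ω v, σ l ω v ≤ 1)
    (hfac : ∀ l ω κ ρ, K l ω κ ρ = σ l ω κ.1 * p ω κ ρ) (ω : Ω) (s : α → Fin m → A)
    (h g : α × A → ℝ) :
    Mx K ω (fun χ ρ => h χ * g ρ) ≤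
      Mx K ω (fun χ ρ => smp s (fun κ _ => h κ) χ * g ρ) + rerr p ω s h g := by
  apply Mx_le
  intro l
  have h1 := (abs_le.mp (val_smp hσ0 hσ1 hfac ω l s h g)).1
  have h2 := le_Mx K ω (fun χ ρ => smp s (fun κ _ => h κ) χ * g ρ) l
  linarith

theorem avg_rerr {m : ℕ} (hm : 0 < m) {p : Ω → α × A → α × A → ℝ} (hp0 : ∀ ω κ ρ, 0 ≤ p ω κ ρ)
    (hp1 : ∀ ω κ, ∑ ρ, p ω κ ρ ≤ 1) (ω : Ω) {h g : α × A → ℝ} (h0 : ∀ κ, 0 ≤ h κ)
    (h1 : ∀ κ, h κ ≤ 1) (g0 : ∀ κ, 0 ≤ g κ) (g1 : ∀ κ, g κ ≤ 1) :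
    avg (fun s : α → Fin m → A => rerr p ω s h g) ≤ Fintype.card (α × A) / Real.sqrt m := by
  have hG0 : ∀ κ, 0 ≤ ∑ ρ, p ω κ ρ * g ρ := fun κ =>
    Finset.sum_nonneg (fun ρ _ => mul_nonneg (hp0 ω κ ρ) (g0 ρ))
  have hG1 : ∀ κ, ∑ ρ, p ω κ ρ * g ρ ≤ 1 := fun κ =>
    (Finset.sum_le_sum (fun ρ _ => mul_le_of_le_one_right (hp0 ω κ ρ) (g1 ρ))).trans (hp1 ω κ)
  have := sample_cells (A := A) (fun (v : α) (c : A) => h (v, c) * (∑ ρ, p ω (v, c) ρ * g ρ))
    (fun v c => mul_nonneg (h0 _) (hG0 _))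
    (fun v c => mul_le_one₀ (h1 _) (hG0 _) (hG1 _)) m hm
  rw [Fintype.card_prod, Nat.cast_mul]
  exact this

/-- the optimal label for given weights -/
noncomputable def opt (K : Lab → Ω → α × A → α × A → ℝ) (u g : α × A → ℝ) (ω : Ω) : Lab :=
  (exists_Mx K ω (fun χ ρ => u χ * g ρ)).choose

theorem opt_spec (K : Lab → Ω → α × A → α × A → ℝ) (u g : α × A → ℝ) (ω : Ω) :
    Mx K ω (fun χ ρ => u χ * g ρ) = val K ω (opt K u g ω) (fun χ ρ => u χ * g ρ) :=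
  (exists_Mx K ω (fun χ ρ => u χ * g ρ)).choose_spec

/-- the mean of the optimal selection -/
noncomputable def GG (K : Lab → Ω → α × A → α × A → ℝ) (u g : α × A → ℝ) (κ : α × A) : ℝ :=
  avg (fun ω => ∑ ψ, K (opt K u g ω) ω κ ψ * g ψ)

theorem GG_nonneg {K : Lab → Ω → α × A → α × A → ℝ} (hK : IsKer K) (u : α × A → ℝ)
    {g : α × A → ℝ} (g0 : ∀ κ, 0 ≤ g κ) (κ : α × A) : 0 ≤ GG K u g κ :=
  avg_nonneg (fun ω => Finset.sum_nonneg (fun ψ _ => mul_nonneg (hK.nonneg _ _ _ _) (g0 ψ)))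

theorem GG_le_one {K : Lab → Ω → α × A → α × A → ℝ} (hK : IsKer K) (u : α × A → ℝ)
    {g : α × A → ℝ} (g1 : ∀ κ, g κ ≤ 1) (κ : α × A) : GG K u g κ ≤ 1 := by
  apply avg_le_of
  intro ω
  exact (Finset.sum_le_sum (fun ψ _ => mul_le_of_le_one_right (hK.nonneg _ _ _ _) (g1 ψ))).trans
    (hK.row _ ω κ)

/-- the norm of the mean selection -/
theorem GG_nrm {K : Lab → Ω → α × A → α × A → ℝ} (hK : IsKer K) {γ : ℝ} (hγ : 0 ≤ γ)
    (hH : PropH K γ) (u : α × A → ℝ) {g : α × A → ℝ} (g0 : ∀ κ, 0 ≤ g κ) :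
    ∑ κ, GG K u g κ ^ 2 ≤ γ ^ 2 * ∑ κ, g κ ^ 2 := by
  set G := GG K u g with hG
  have h1 : ∑ κ, G κ ^ 2 ≤ γ * nrm G * nrm g := by
    have e : ∑ κ, G κ ^ 2 = avg (fun ω => val K ω (opt K u g ω) (fun χ ρ => G χ * g ρ)) := by
      simp only [val_tensor]
      rw [avg_sum]
      apply Finset.sum_congr rfl
      intro κ _
      rw [avg_mul_left, sq]
      rfl
    rw [e]
    refine le_trans (avg_mono (fun ω => le_Mx K ω _ _)) (hH G g (GG_nonneg hK u g0) g0)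
  rw [← nrm_sq, ← nrm_sq] at *
  have h2 : nrm G ≤ γ * nrm g := by
    rcases (nrm_nonneg G).eq_or_lt with h | h
    · rw [← h]
      exact mul_nonneg hγ (nrm_nonneg g)
    · have h3 : nrm G * nrm G ≤ nrm G * (γ * nrm g) := by
        calc nrm G * nrm G = nrm G ^ 2 := (sq _).symm
          _ ≤ γ * nrm G * nrm g := h1
          _ = nrm G * (γ * nrm g) := by ring
      exact le_of_mul_le_mul_left h3 h
  calc nrm G ^ 2 ≤ (γ * nrm g) ^ 2 := pow_le_pow_left₀ (nrm_nonneg G) h2 2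
    _ = γ ^ 2 * nrm g ^ 2 := by ring

/-- linearization of the mean field -/
theorem lin {m : ℕ} {K : Lab → Ω → α × A → α × A → ℝ} {p : Ω → α × A → α × A → ℝ}
    {σ : Lab → Ω → α → ℝ} (hσ0 : ∀ l ω v, 0 ≤ σ l ω v) (hσ1 : ∀ l ω v, σ l ω v ≤ 1)
    (hfac : ∀ l ω κ ρ, K l ω κ ρ = σ l ω κ.1 * p ω κ ρ) (s : α → Fin m → A)
    (h g : α × A → ℝ) :
    avg (fun ω => Mx K ω (fun χ ρ => h χ * g ρ)) ≤
      ∑ κ, h κ * GG K (smp s (fun κ _ => h κ)) g κ + 2 * avg (fun ω => rerr p ω s h g) := by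
  set u := smp s (fun κ _ => h κ) with hu
  have h1 : ∀ ω, Mx K ω (fun χ ρ => h χ * g ρ) ≤
      val K ω (opt K u g ω) (fun χ ρ => h χ * g ρ) + 2 * rerr p ω s h g := by
    intro ω
    have a1 := Mx_le_smp hσ0 hσ1 hfac ω s h g
    have a2 := opt_spec K u g ω
    have a3 := (abs_le.mp (val_smp hσ0 hσ1 hfac ω (opt K u g ω) s h g)).2
    rw [← hu] at a1 a3
    linarith
  refine (avg_mono h1).trans ?_
  rw [avg_add, avg_mul_left]
  have e : avg (fun ω => val K ω (opt K u g ω) (fun χ ρ => h χ * g ρ)) =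
      ∑ κ, h κ * GG K u g κ := by
    simp only [val_tensor]
    rw [avg_sum]
    apply Finset.sum_congr rfl
    intro κ _
    rw [avg_mul_left]
    rfl
  rw [e]

/-- the column sums that enter a row -/
def hL (K : Lab → Ω → α × A → α × A → ℝ) (f : (α × A) × (α × A) → ℝ) (l : Lab) (ω : Ω)
    (κ ρ : α × A) : ℝ := ∑ χ, K l ω χ ρ * f (κ, χ)

theorem hL_nonneg {K : Lab → Ω → α × A → α × A → ℝ} (hK : IsKer K)
    {f : (α × A) × (α × A) → ℝ} (f0 : ∀ z, 0 ≤ f z) (l : Lab) (ω : Ω) (κ ρ : α × A) :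
    0 ≤ hL K f l ω κ ρ :=
  Finset.sum_nonneg (fun χ _ => mul_nonneg (hK.nonneg _ _ _ _) (f0 _))

theorem hL_le_one {K : Lab → Ω → α × A → α × A → ℝ} (hK : IsKer K)
    {f : (α × A) × (α × A) → ℝ} (f1 : ∀ z, f z ≤ 1) (l : Lab) (ω : Ω) (κ ρ : α × A) :
    hL K f l ω κ ρ ≤ 1 :=
  (Finset.sum_le_sum (fun χ _ => mul_le_of_le_one_right (hK.nonneg _ _ _ _) (f1 _))).trans
    (hK.col _ ω ρ)

/-- the value in the product structure -/
theorem val_prod (K : Lab → Ω → α × A → α × A → ℝ) (f g : (α × A) × (α × A) → ℝ)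
    (ω : (α × A → Ω) × (α × A → Ω)) (L : (α × A → Lab) × (α × A → Lab)) :
    val (prodK K) ω L (fun x y => f x * g y) =
      ∑ ρ, val K (ω.2 ρ) (L.2 ρ) (fun κ ψ => hL K f (L.1 κ) (ω.1 κ) κ ρ * g (ρ, ψ)) := by
  unfold val prodK hL
  calc ∑ x : (α × A) × (α × A), ∑ y : (α × A) × (α × A),
        K (L.1 x.1) (ω.1 x.1) x.2 y.1 * K (L.2 y.1) (ω.2 y.1) x.1 y.2 * (f x * g y)
      = ∑ κ, ∑ χ, ∑ ρ, ∑ ψ,
        K (L.1 κ) (ω.1 κ) χ ρ * K (L.2 ρ) (ω.2 ρ) κ ψ * (f (κ, χ) * g (ρ, ψ)) := by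
        rw [Fintype.sum_prod_type]
        apply Finset.sum_congr rfl
        intro κ _
        apply Finset.sum_congr rfl
        intro χ _
        rw [Fintype.sum_prod_type]
    _ = ∑ κ, ∑ ρ, ∑ χ, ∑ ψ,
        K (L.1 κ) (ω.1 κ) χ ρ * K (L.2 ρ) (ω.2 ρ) κ ψ * (f (κ, χ) * g (ρ, ψ)) := by
        apply Finset.sum_congr rfl
        intro κ _
        rw [Finset.sum_comm]
    _ = ∑ ρ, ∑ κ, ∑ χ, ∑ ψ,
        K (L.1 κ) (ω.1 κ) χ ρ * K (L.2 ρ) (ω.2 ρ) κ ψ * (f (κ, χ) * g (ρ, ψ)) := by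
        rw [Finset.sum_comm]
    _ = _ := by
        apply Finset.sum_congr rfl
        intro ρ _
        apply Finset.sum_congr rfl
        intro κ _
        rw [Finset.sum_comm]
        apply Finset.sum_congr rfl
        intro ψ _
        show _ = K (L.2 ρ) (ω.2 ρ) κ ψ * ((∑ χ, K (L.1 κ) (ω.1 κ) χ ρ * f (κ, χ)) * g (ρ, ψ))
        rw [Finset.sum_mul, Finset.mul_sum]
        apply Finset.sum_congr rfl
        intro χ _
        ring

/-- exchange of rows and columns for linear row functionals -/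
theorem sum_hL (K : Lab → Ω → α × A → α × A → ℝ) (f : (α × A) × (α × A) → ℝ) (c : α × A → Ω)
    (L : α × A → Lab) (G : α × A → α × A → ℝ) :
    ∑ ρ, ∑ κ, hL K f (L κ) (c κ) κ ρ * G ρ κ =
      ∑ κ, val K (c κ) (L κ) (fun χ ρ => f (κ, χ) * G ρ κ) := by
  rw [Finset.sum_comm]
  apply Finset.sum_congr rfl
  intro κ _
  unfold val hL
  rw [Finset.sum_comm]
  apply Finset.sum_congr rfl
  intro ρ _
  rw [Finset.sum_mul]
  apply Finset.sum_congr rfl
  intro χ _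
  ring

/-- the sampled row functions -/
noncomputable def hE {m : ℕ} (K : Lab → Ω → α × A → α × A → ℝ) (f : (α × A) × (α × A) → ℝ)
    (s : α → Fin m → A) (E : α → Fin m → Lab) (c : α × A → Ω) (ρ κ : α × A) : ℝ :=
  smp s (fun κ i => hL K f (E κ.1 i) (c κ) κ ρ) κ

theorem hE_eq {m : ℕ} (K : Lab → Ω → α × A → α × A → ℝ) (f : (α × A) × (α × A) → ℝ)
    (s : α → Fin m → A) (L : α × A → Lab) (c : α × A → Ω) (ρ : α × A) :
    hE K f s (fun v i => L (v, s v i)) c ρ =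
      smp s (fun κ _ => hL K f (L κ) (c κ) κ ρ) := by
  funext κ
  unfold hE smp
  congr 1
  apply Finset.sum_congr rfl
  intro i _
  split_ifs with h
  · show hL K f (L (κ.1, s κ.1 i)) (c κ) κ ρ = hL K f (L κ) (c κ) κ ρ
    rw [h]
  · rfl

theorem hE_congr {m : ℕ} (K : Lab → Ω → α × A → α × A → ℝ) (f : (α × A) × (α × A) → ℝ)
    (s : α → Fin m → A) (E : α → Fin m → Lab) {c c' : α × A → Ω}
    (h : ∀ κ : α × A, (∃ i, s κ.1 i = κ.2) → c κ = c' κ) (ρ : α × A) :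
    hE K f s E c ρ = hE K f s E c' ρ := by
  funext κ
  unfold hE smp
  congr 1
  apply Finset.sum_congr rfl
  intro i _
  split_ifs with h1
  · show hL K f (E κ.1 i) (c κ) κ ρ = hL K f (E κ.1 i) (c' κ) κ ρ
    rw [h κ ⟨i, h1⟩]
  · rfl

theorem hE_nonneg {m : ℕ} {K : Lab → Ω → α × A → α × A → ℝ} (hK : IsKer K)
    {f : (α × A) × (α × A) → ℝ} (f0 : ∀ z, 0 ≤ f z) (s : α → Fin m → A) (E : α → Fin m → Lab)
    (c : α × A → Ω) (ρ κ : α × A) : 0 ≤ hE K f s E c ρ κ :=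
  smp_nonneg s (fun κ i => hL_nonneg hK f0 _ _ _ _) κ

theorem hE_sum {m : ℕ} (hm : 0 < m) {K : Lab → Ω → α × A → α × A → ℝ} (hK : IsKer K)
    {f : (α × A) × (α × A) → ℝ} (f1 : ∀ z, f z ≤ 1) (s : α → Fin m → A) (E : α → Fin m → Lab)
    (c : α × A → Ω) (ρ : α × A) (v : α) : ∑ a, hE K f s E c ρ (v, a) ≤ Fintype.card A :=
  smp_sum_le hm s (h := fun κ i => hL K f (E κ.1 i) (c κ) κ ρ) (fun κ i => hL_le_one hK f1 _ _ _ _) v

theorem Mx_le_card {K : Lab → Ω → α × A → α × A → ℝ} (hK : IsKer K) (ω : Ω)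
    {w : α × A → α × A → ℝ} (h1 : ∀ χ ρ, w χ ρ ≤ 1) : Mx K ω w ≤ Fintype.card (α × A) := by
  apply Mx_le
  intro l
  unfold val
  calc ∑ χ, ∑ ρ, K l ω χ ρ * w χ ρ ≤ ∑ χ : α × A, (1 : ℝ) := by
        apply Finset.sum_le_sum
        intro χ _
        exact (Finset.sum_le_sum (fun ρ _ => mul_le_of_le_one_right (hK.nonneg _ _ _ _)
          (h1 χ ρ))).trans (hK.row l ω χ)
    _ = Fintype.card (α × A) := by simp

/-- the sampled rows -/
noncomputable def Phi {m : ℕ} (K : Lab → Ω → α × A → α × A → ℝ) (f g : (α × A) × (α × A) → ℝ)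
    (s : α → Fin m → A) (E : α → Fin m → Lab) (c r : α × A → Ω) : ℝ :=
  ∑ ρ, Mx K (r ρ) (fun κ ψ => hE K f s E c ρ κ * g (ρ, ψ))

/-- fluctuation of the sampled rows -/
noncomputable def Xi {m : ℕ} (K : Lab → Ω → α × A → α × A → ℝ) (f g : (α × A) × (α × A) → ℝ)
    (s : α → Fin m → A) (c r : α × A → Ω) : ℝ :=
  Finset.univ.sup' Finset.univ_nonempty
    (fun E : α → Fin m → Lab => Phi K f g s E c r - avg (Phi K f g s E c))

/-- the mean row selection for sampled data -/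
noncomputable def GE {m : ℕ} (K : Lab → Ω → α × A → α × A → ℝ) (f g : (α × A) × (α × A) → ℝ)
    (s : α → Fin m → A) (E : α → Fin m → Lab) (c : α × A → Ω) (ρ κ : α × A) : ℝ :=
  GG K (hE K f s E c ρ) (fun ψ => g (ρ, ψ)) κ

/-- the value of the columns against the mean rows -/
noncomputable def Cl {m : ℕ} (K : Lab → Ω → α × A → α × A → ℝ) (f g : (α × A) × (α × A) → ℝ)
    (s : α → Fin m → A) (E : α → Fin m → Lab) (c : α × A → Ω) : ℝ :=
  ∑ κ, Mx K (c κ) (fun χ ρ => f (κ, χ) * GE K f g s E c ρ κ)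

/-- its largest value -/
noncomputable def ClM {m : ℕ} (K : Lab → Ω → α × A → α × A → ℝ) (f g : (α × A) × (α × A) → ℝ)
    (s : α → Fin m → A) (c : α × A → Ω) : ℝ :=
  Finset.univ.sup' Finset.univ_nonempty (fun E : α → Fin m → Lab => Cl K f g s E c)

/-- pointwise bound -/
theorem pointwise {m : ℕ} (hm : 0 < m) {K : Lab → Ω → α × A → α × A → ℝ} (hK : IsKer K)
    {p : Ω → α × A → α × A → ℝ} (hp0 : ∀ ω κ ρ, 0 ≤ p ω κ ρ) (hp1 : ∀ ω κ, ∑ ρ, p ω κ ρ ≤ 1)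
    {σ : Lab → Ω → α → ℝ} (hσ0 : ∀ l ω v, 0 ≤ σ l ω v) (hσ1 : ∀ l ω v, σ l ω v ≤ 1)
    (hfac : ∀ l ω κ ρ, K l ω κ ρ = σ l ω κ.1 * p ω κ ρ)
    (f g : (α × A) × (α × A) → ℝ) (hf0 : ∀ z, 0 ≤ f z) (hf1 : ∀ z, f z ≤ 1)
    (hg0 : ∀ z, 0 ≤ g z) (hg1 : ∀ z, g z ≤ 1) (c r : α × A → Ω) :
    Mx (prodK K) (c, r) (fun x y => f x * g y) ≤
      avg (fun s : α → Fin m → A => Xi K f g s c r) + avg (fun s : α → Fin m → A => ClM K f g s c) +
      4 * (Fintype.card (α × A) : ℝ) ^ 2 / Real.sqrt m := by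
  apply Mx_le
  rintro ⟨L1, L2⟩
  set h : α × A → α × A → ℝ := fun ρ κ => hL K f (L1 κ) (c κ) κ ρ with hh
  have h0 : ∀ ρ κ, 0 ≤ h ρ κ := fun ρ κ => hL_nonneg hK hf0 _ _ _ _
  have h1 : ∀ ρ κ, h ρ κ ≤ 1 := fun ρ κ => hL_le_one hK hf1 _ _ _ _
  set R : (α → Fin m → A) → ℝ := fun s => ∑ ρ, (rerr p (r ρ) s (h ρ) (fun ψ => g (ρ, ψ)) +
    3 * avg (fun ω => rerr p ω s (h ρ) (fun ψ => g (ρ, ψ)))) with hR
  have key : ∀ s : α → Fin m → A, val (prodK K) (c, r) (L1, L2) (fun x y => f x * g y) ≤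
      Xi K f g s c r + ClM K f g s c + R s := by
    intro s
    set E : α → Fin m → Lab := fun v i => L1 (v, s v i) with hE'
    have e1 : ∀ ρ, hE K f s E c ρ = smp s (fun κ _ => h ρ κ) := fun ρ => hE_eq K f s L1 c ρ
    -- (a), (b)
    have a1 : val (prodK K) (c, r) (L1, L2) (fun x y => f x * g y) ≤
        Phi K f g s E c r + ∑ ρ, rerr p (r ρ) s (h ρ) (fun ψ => g (ρ, ψ)) := by
      rw [val_prod]
      unfold Phi
      rw [← Finset.sum_add_distrib]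
      apply Finset.sum_le_sum
      intro ρ _
      refine (le_Mx K (r ρ) _ _).trans ?_
      have := Mx_le_smp hσ0 hσ1 hfac (r ρ) s (h ρ) (fun ψ => g (ρ, ψ))
      rw [← e1] at this
      exact this
    -- (c)
    have a2 : Phi K f g s E c r ≤ avg (Phi K f g s E c) + Xi K f g s c r := by
      have : Phi K f g s E c r - avg (Phi K f g s E c) ≤ Xi K f g s c r :=
        Finset.le_sup' (fun E : α → Fin m → Lab => Phi K f g s E c r - avg (Phi K f g s E c))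
          (Finset.mem_univ E)
      linarith
    -- (d)
    have a3 : avg (Phi K f g s E c) ≤ ∑ ρ, (avg (fun ω => Mx K ω (fun κ ψ => h ρ κ * g (ρ, ψ))) +
        avg (fun ω => rerr p ω s (h ρ) (fun ψ => g (ρ, ψ)))) := by
      unfold Phi
      rw [avg_sum]
      apply Finset.sum_le_sum
      intro ρ _
      rw [avg_pi_eval ρ (fun ω => Mx K ω (fun κ ψ => hE K f s E c ρ κ * g (ρ, ψ))), ← avg_add]
      apply avg_mono
      intro ω
      have := Mx_smp_le hσ0 hσ1 hfac ω s (h ρ) (fun ψ => g (ρ, ψ))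
      rw [← e1] at this
      exact this
    -- (e)
    have a4 : ∀ ρ, avg (fun ω => Mx K ω (fun κ ψ => h ρ κ * g (ρ, ψ))) ≤
        ∑ κ, h ρ κ * GE K f g s E c ρ κ +
          2 * avg (fun ω => rerr p ω s (h ρ) (fun ψ => g (ρ, ψ))) := by
      intro ρ
      have := lin hσ0 hσ1 hfac s (h ρ) (fun ψ => g (ρ, ψ))
      rw [← e1] at this
      exact this
    -- (f)
    have a5 : ∑ ρ, ∑ κ, h ρ κ * GE K f g s E c ρ κ ≤ ClM K f g s c := by
      have e2 := sum_hL K f c L1 (fun ρ κ => GE K f g s E c ρ κ)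
      have e3 : ∑ ρ, ∑ κ, h ρ κ * GE K f g s E c ρ κ =
          ∑ κ, val K (c κ) (L1 κ) (fun χ ρ => f (κ, χ) * GE K f g s E c ρ κ) := e2
      rw [e3]
      calc ∑ κ, val K (c κ) (L1 κ) (fun χ ρ => f (κ, χ) * GE K f g s E c ρ κ)
          ≤ Cl K f g s E c := Finset.sum_le_sum (fun κ _ => le_Mx K (c κ) _ _)
        _ ≤ ClM K f g s c := Finset.le_sup' (fun E : α → Fin m → Lab => Cl K f g s E c)
            (Finset.mem_univ E)
    have a6 : ∑ ρ, (avg (fun ω => Mx K ω (fun κ ψ => h ρ κ * g (ρ, ψ))) +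
        avg (fun ω => rerr p ω s (h ρ) (fun ψ => g (ρ, ψ)))) ≤
        ∑ ρ, ∑ κ, h ρ κ * GE K f g s E c ρ κ +
          ∑ ρ, 3 * avg (fun ω => rerr p ω s (h ρ) (fun ψ => g (ρ, ψ))) := by
      rw [← Finset.sum_add_distrib]
      apply Finset.sum_le_sum
      intro ρ _
      have := a4 ρ
      linarith
    have a7 : R s = ∑ ρ, rerr p (r ρ) s (h ρ) (fun ψ => g (ρ, ψ)) +
        ∑ ρ, 3 * avg (fun ω => rerr p ω s (h ρ) (fun ψ => g (ρ, ψ))) := by
      rw [hR, ← Finset.sum_add_distrib]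
    linarith
  have hav : avg R ≤ 4 * (Fintype.card (α × A) : ℝ) ^ 2 / Real.sqrt m := by
    rw [hR, avg_sum]
    have : ∀ ρ : α × A, avg (fun s : α → Fin m → A => rerr p (r ρ) s (h ρ) (fun ψ => g (ρ, ψ)) +
        3 * avg (fun ω => rerr p ω s (h ρ) (fun ψ => g (ρ, ψ)))) ≤
        4 * (Fintype.card (α × A) / Real.sqrt m) := by
      intro ρ
      rw [avg_add, avg_mul_left, avg_comm]
      have b1 := avg_rerr hm hp0 hp1 (r ρ) (h0 ρ) (h1 ρ) (g := fun ψ => g (ρ, ψ))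
        (fun κ => hg0 _) (fun κ => hg1 _)
      have b2 : avg (fun ω => avg (fun s : α → Fin m → A =>
          rerr p ω s (h ρ) (fun ψ => g (ρ, ψ)))) ≤ Fintype.card (α × A) / Real.sqrt m :=
        avg_le_of (fun ω => avg_rerr hm hp0 hp1 ω (h0 ρ) (h1 ρ) (g := fun ψ => g (ρ, ψ))
          (fun κ => hg0 _) (fun κ => hg1 _))
      linarith
    refine (Finset.sum_le_sum (fun ρ _ => this ρ)).trans (le_of_eq ?_)
    rw [Finset.sum_const, Finset.card_univ, nsmul_eq_mul]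
    ring
  have hne : Nonempty (α → Fin m → A) := inferInstance
  calc val (prodK K) (c, r) (L1, L2) (fun x y => f x * g y)
      = avg (fun _s : α → Fin m → A =>
          val (prodK K) (c, r) (L1, L2) (fun x y => f x * g y)) := (avg_const _).symm
    _ ≤ avg (fun s : α → Fin m → A => Xi K f g s c r + ClM K f g s c + R s) := avg_mono key
    _ = avg (fun s : α → Fin m → A => Xi K f g s c r) +
          avg (fun s : α → Fin m → A => ClM K f g s c) + avg R := by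
        rw [avg_add, avg_add]
    _ ≤ _ := by linarith

theorem log_card_fun (m : ℕ) :
    Real.log (Fintype.card (α → Fin m → Lab)) = m * Fintype.card α * Real.log (Fintype.card Lab) := by
  rw [Fintype.card_fun, Fintype.card_fun, Fintype.card_fin]
  push_cast
  rw [Real.log_pow, Real.log_pow]
  ring

/-- the fluctuation of the rows -/
theorem avg_Xi {m : ℕ} (hm : 0 < m) [Nonempty α] {K : Lab → Ω → α × A → α × A → ℝ} (hK : IsKer K)
    {D : Ω → Ω → ℝ} {V : ℝ} (hV : 0 < V) (hD : ∀ ω, D ω ω = 0) (hsub : SubG D V)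
    (hLip : ∀ h g : α × A → ℝ, (∀ κ, 0 ≤ h κ) → (∀ v, ∑ c, h (v, c) ≤ Fintype.card A) →
      (∀ ρ, 0 ≤ g ρ) → (∀ ρ, g ρ ≤ 1) → ∀ ω ω',
      Mx K ω (fun χ ρ => h χ * g ρ) - Mx K ω' (fun χ ρ => h χ * g ρ) ≤ D ω ω')
    {L : ℝ} (hL : 0 < L) (hL2 : m * Fintype.card α * Real.log (Fintype.card Lab) ≤ L)
    (f g : (α × A) × (α × A) → ℝ) (hf0 : ∀ z, 0 ≤ f z) (hf1 : ∀ z, f z ≤ 1)
    (hg0 : ∀ z, 0 ≤ g z) (hg1 : ∀ z, g z ≤ 1) (s : α → Fin m → A) (c : α × A → Ω) :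
    avg (fun r => Xi K f g s c r) ≤
      Real.sqrt (2 * (Fintype.card (α × A) * V) * L) := by
  have hn : (0 : ℝ) < Fintype.card (α × A) := by exact_mod_cast Fintype.card_pos
  have hlog : Real.log (Fintype.card (α → Fin m → Lab)) ≤ L := by rw [log_card_fun]; exact hL2
  apply SubG.max_le (mul_pos hn hV) hL (hsub.piD (ι := α × A) hD) hlog
    (fun (E : α → Fin m → Lab) r => Phi K f g s E c r)
  intro E r r'
  unfold Phi piD
  rw [← Finset.sum_sub_distrib]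
  apply Finset.sum_le_sum
  intro ρ _
  exact hLip (hE K f s E c ρ) (fun ψ => g (ρ, ψ)) (hE_nonneg hK hf0 s E c ρ)
    (hE_sum hm hK hf1 s E c ρ) (fun ψ => hg0 _) (fun ψ => hg1 _) (r ρ) (r' ρ)

open Classical in
/-- the columns outside the sample -/
noncomputable def Psi {m : ℕ} (K : Lab → Ω → α × A → α × A → ℝ) (f g : (α × A) × (α × A) → ℝ)
    (s : α → Fin m → A) (E : α → Fin m → Lab) (c c' : α × A → Ω) : ℝ :=
  ∑ κ : α × A, if (∃ i, s κ.1 i = κ.2) then 0 else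
    Mx K (c' κ) (fun χ ρ => f (κ, χ) * GE K f g s E c ρ κ)

theorem GE_mem {m : ℕ} {K : Lab → Ω → α × A → α × A → ℝ} (hK : IsKer K)
    {f g : (α × A) × (α × A) → ℝ} (hg0 : ∀ z, 0 ≤ g z) (hg1 : ∀ z, g z ≤ 1)
    (s : α → Fin m → A) (E : α → Fin m → Lab) (c : α × A → Ω) (ρ κ : α × A) :
    0 ≤ GE K f g s E c ρ κ ∧ GE K f g s E c ρ κ ≤ 1 :=
  ⟨GG_nonneg hK _ (fun ψ => hg0 _) κ, GG_le_one hK _ (fun ψ => hg1 _) κ⟩

open Classical in
theorem Cl_le_Psi {m : ℕ} {K : Lab → Ω → α × A → α × A → ℝ} (hK : IsKer K)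
    {f g : (α × A) × (α × A) → ℝ} (hf0 : ∀ z, 0 ≤ f z) (hf1 : ∀ z, f z ≤ 1)
    (hg0 : ∀ z, 0 ≤ g z) (hg1 : ∀ z, g z ≤ 1) (s : α → Fin m → A) (E : α → Fin m → Lab)
    (c : α × A → Ω) :
    Cl K f g s E c ≤ m * Fintype.card α * Fintype.card (α × A) + Psi K f g s E c c := by
  set S : Finset (α × A) := Finset.univ.filter (fun κ : α × A => ∃ i, s κ.1 i = κ.2) with hS
  have hcard : (S.card : ℝ) ≤ m * Fintype.card α := by
    have h1 : S ⊆ (Finset.univ : Finset (α × Fin m)).image (fun q => (q.1, s q.1 q.2)) := by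
      intro κ hκ
      obtain ⟨i, hi⟩ := (Finset.mem_filter.mp hκ).2
      rw [Finset.mem_image]
      exact ⟨(κ.1, i), Finset.mem_univ _, by rw [hi]⟩
    have h2 : S.card ≤ m * Fintype.card α := by
      refine (Finset.card_le_card h1).trans (Finset.card_image_le.trans ?_)
      rw [Finset.card_univ, Fintype.card_prod, Fintype.card_fin, mul_comm]
    exact_mod_cast h2
  have h3 : Cl K f g s E c ≤ ∑ κ : α × A, ((if (∃ i, s κ.1 i = κ.2) then
      (Fintype.card (α × A) : ℝ) else 0) + if (∃ i, s κ.1 i = κ.2) then 0 else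
      Mx K (c κ) (fun χ ρ => f (κ, χ) * GE K f g s E c ρ κ)) := by
    unfold Cl
    apply Finset.sum_le_sum
    intro κ _
    split_ifs with h
    · rw [add_zero]
      apply Mx_le_card hK
      intro χ ρ
      exact mul_le_one₀ (hf1 _) (GE_mem hK hg0 hg1 s E c ρ κ).1 (GE_mem hK hg0 hg1 s E c ρ κ).2
    · rw [zero_add]
  refine h3.trans ?_
  rw [Finset.sum_add_distrib]
  have h4 : ∑ κ : α × A, (if (∃ i, s κ.1 i = κ.2) then (Fintype.card (α × A) : ℝ) else 0) =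
      S.card * Fintype.card (α × A) := by
    rw [← Finset.sum_filter, Finset.sum_const, nsmul_eq_mul]
  rw [h4]
  have h5 : (S.card : ℝ) * Fintype.card (α × A) ≤ m * Fintype.card α * Fintype.card (α × A) :=
    mul_le_mul_of_nonneg_right hcard (Nat.cast_nonneg _)
  unfold Psi
  linarith

open Classical in
theorem Psi_mix {m : ℕ} (K : Lab → Ω → α × A → α × A → ℝ) (f g : (α × A) × (α × A) → ℝ)
    (s : α → Fin m → A) (E : α → Fin m → Lab) (c c' : α × A → Ω) :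
    Psi K f g s E (fun κ => if (∃ i, s κ.1 i = κ.2) then c κ else c' κ)
      (fun κ => if (∃ i, s κ.1 i = κ.2) then c κ else c' κ) = Psi K f g s E c c' := by
  unfold Psi
  apply Finset.sum_congr rfl
  intro κ _
  split_ifs with h
  · rfl
  · have e : ∀ ρ, hE K f s E (fun κ => if (∃ i, s κ.1 i = κ.2) then c κ else c' κ) ρ =
        hE K f s E c ρ := by
      intro ρ
      apply hE_congr
      intro κ hκ
      rw [if_pos hκ]
    unfold GE
    simp only [e]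
    rw [if_neg h]

/-- mean of the columns outside the sample -/
theorem avg_Psi {m : ℕ} {K : Lab → Ω → α × A → α × A → ℝ} (hK : IsKer K)
    {γ : ℝ} (hγ : 0 ≤ γ) (hH : PropH K γ)
    {f g : (α × A) × (α × A) → ℝ} (hf0 : ∀ z, 0 ≤ f z) (hg0 : ∀ z, 0 ≤ g z) (hg1 : ∀ z, g z ≤ 1)
    (s : α → Fin m → A) (E : α → Fin m → Lab) (c : α × A → Ω) :
    avg (Psi K f g s E c) ≤ γ ^ 2 * nrm f * nrm g := by
  classical
  have hG := GE_mem hK (f := f) hg0 hg1 s E c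
  have h1 : avg (Psi K f g s E c) ≤
      ∑ κ, γ * nrm (fun χ => f (κ, χ)) * nrm (fun ρ => GE K f g s E c ρ κ) := by
    unfold Psi
    rw [avg_sum]
    apply Finset.sum_le_sum
    intro κ _
    have h2 : avg (fun c' : α × A → Ω => Mx K (c' κ) (fun χ ρ => f (κ, χ) * GE K f g s E c ρ κ)) ≤
        γ * nrm (fun χ => f (κ, χ)) * nrm (fun ρ => GE K f g s E c ρ κ) := by
      rw [avg_pi_eval κ (fun ω => Mx K ω (fun χ ρ => f (κ, χ) * GE K f g s E c ρ κ))]
      exact hH (fun χ => f (κ, χ)) (fun ρ => GE K f g s E c ρ κ) (fun χ => hf0 _)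
        (fun ρ => (hG ρ κ).1)
    refine le_trans (avg_mono ?_) h2
    intro c'
    split_ifs
    · exact Mx_nonneg hK.nonneg _ (fun χ ρ => mul_nonneg (hf0 _) (hG ρ κ).1)
    · exact le_rfl
  refine h1.trans ?_
  have h3 : ∑ κ, nrm (fun χ => f (κ, χ)) * nrm (fun ρ => GE K f g s E c ρ κ) ≤
      nrm (fun κ => nrm (fun χ => f (κ, χ))) *
        nrm (fun κ => nrm (fun ρ => GE K f g s E c ρ κ)) := sum_mul_le_nrm _ _
  have h4 : nrm (fun κ => nrm (fun χ => f (κ, χ))) = nrm f := by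
    unfold nrm
    congr 1
    rw [Fintype.sum_prod_type (fun z : (α × A) × (α × A) => f z ^ 2)]
    apply Finset.sum_congr rfl
    intro κ _
    exact Real.sq_sqrt (Finset.sum_nonneg (fun x _ => sq_nonneg _))
  have h5 : nrm (fun κ => nrm (fun ρ => GE K f g s E c ρ κ)) ≤ γ * nrm g := by
    apply Real.sqrt_le_iff.mpr
    refine ⟨mul_nonneg hγ (nrm_nonneg g), ?_⟩
    have e1 : ∀ κ, nrm (fun ρ => GE K f g s E c ρ κ) ^ 2 = ∑ ρ, GE K f g s E c ρ κ ^ 2 :=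
      fun κ => nrm_sq _
    simp only [e1]
    rw [Finset.sum_comm, mul_pow, nrm_sq,
      Fintype.sum_prod_type (fun z : (α × A) × (α × A) => g z ^ 2), Finset.mul_sum]
    apply Finset.sum_le_sum
    intro ρ _
    exact GG_nrm hK hγ hH (hE K f s E c ρ) (g := fun ψ => g (ρ, ψ)) (fun ψ => hg0 _)
  calc ∑ κ, γ * nrm (fun χ => f (κ, χ)) * nrm (fun ρ => GE K f g s E c ρ κ)
      = γ * ∑ κ, nrm (fun χ => f (κ, χ)) * nrm (fun ρ => GE K f g s E c ρ κ) := by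
        rw [Finset.mul_sum]
        apply Finset.sum_congr rfl
        intro κ _
        ring
    _ ≤ γ * (nrm f * (γ * nrm g)) := by
        apply mul_le_mul_of_nonneg_left _ hγ
        refine h3.trans ?_
        rw [h4]
        exact mul_le_mul_of_nonneg_left h5 (nrm_nonneg f)
    _ = γ ^ 2 * nrm f * nrm g := by ring

/-- the columns -/
theorem avg_ClM {m : ℕ} (hm : 0 < m) [Nonempty α] {K : Lab → Ω → α × A → α × A → ℝ}
    (hK : IsKer K) {γ : ℝ} (hγ : 0 ≤ γ) (hH : PropH K γ)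
    {D : Ω → Ω → ℝ} {V : ℝ} (hV : 0 < V) (hD : ∀ ω, D ω ω = 0) (hsub : SubG D V)
    (hLip : ∀ h g : α × A → ℝ, (∀ κ, 0 ≤ h κ) → (∀ v, ∑ c, h (v, c) ≤ Fintype.card A) →
      (∀ ρ, 0 ≤ g ρ) → (∀ ρ, g ρ ≤ 1) → ∀ ω ω',
      Mx K ω (fun χ ρ => h χ * g ρ) - Mx K ω' (fun χ ρ => h χ * g ρ) ≤ D ω ω')
    {L : ℝ} (hL : 0 < L) (hL2 : m * Fintype.card α * Real.log (Fintype.card Lab) ≤ L)
    (f g : (α × A) × (α × A) → ℝ) (hf0 : ∀ z, 0 ≤ f z) (hf1 : ∀ z, f z ≤ 1)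
    (hg0 : ∀ z, 0 ≤ g z) (hg1 : ∀ z, g z ≤ 1) (s : α → Fin m → A) :
    avg (fun c => ClM K f g s c) ≤ m * Fintype.card α * Fintype.card (α × A) +
      (γ ^ 2 * nrm f * nrm g + Real.sqrt (2 * (Fintype.card (α × A) * V) * L)) := by
  classical
  have hn : (0 : ℝ) < Fintype.card (α × A) := by exact_mod_cast Fintype.card_pos
  have hlog : Real.log (Fintype.card (α → Fin m → Lab)) ≤ L := by rw [log_card_fun]; exact hL2
  set Ps : (α × A → Ω) → (α × A → Ω) → ℝ := fun c c' =>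
    Finset.univ.sup' Finset.univ_nonempty (fun E : α → Fin m → Lab => Psi K f g s E c c') with hPs
  have h1 : ∀ c, ClM K f g s c ≤ m * Fintype.card α * Fintype.card (α × A) + Ps c c := by
    intro c
    apply Finset.sup'_le
    intro E _
    refine (Cl_le_Psi hK hf0 hf1 hg0 hg1 s E c).trans ?_
    have : Psi K f g s E c c ≤ Ps c c :=
      Finset.le_sup' (fun E : α → Fin m → Lab => Psi K f g s E c c) (Finset.mem_univ E)
    linarith
  refine (avg_mono h1).trans ?_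
  rw [avg_add, avg_const]
  have h2 : avg (fun c => Ps c c) = avg (fun c => avg (fun c' => Ps c c')) := by
    rw [← avg_mix (fun κ : α × A => ∃ i, s κ.1 i = κ.2) (fun c => Ps c c)]
    congr 1
    funext c
    congr 1
    funext c'
    rw [hPs]
    simp only [Psi_mix]
  rw [h2]
  have h3 : ∀ c, avg (fun c' => Ps c c') ≤
      γ ^ 2 * nrm f * nrm g + Real.sqrt (2 * (Fintype.card (α × A) * V) * L) := by
    intro c
    have h4 : ∀ c', Ps c c' ≤ γ ^ 2 * nrm f * nrm g + Finset.univ.sup' Finset.univ_nonempty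
        (fun E : α → Fin m → Lab => Psi K f g s E c c' - avg (Psi K f g s E c)) := by
      intro c'
      apply Finset.sup'_le
      intro E _
      have a1 := avg_Psi hK hγ hH hf0 hg0 hg1 s E c
      have a2 : Psi K f g s E c c' - avg (Psi K f g s E c) ≤
          Finset.univ.sup' Finset.univ_nonempty (fun E : α → Fin m → Lab =>
            Psi K f g s E c c' - avg (Psi K f g s E c)) :=
        Finset.le_sup' (fun E : α → Fin m → Lab =>
          Psi K f g s E c c' - avg (Psi K f g s E c)) (Finset.mem_univ E)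
      linarith
    refine (avg_mono h4).trans ?_
    rw [avg_add, avg_const]
    apply add_le_add le_rfl
    apply SubG.max_le (mul_pos hn hV) hL (hsub.piD (ι := α × A) hD) hlog
      (fun (E : α → Fin m → Lab) c' => Psi K f g s E c c')
    intro E c' c''
    unfold Psi piD
    rw [← Finset.sum_sub_distrib]
    apply Finset.sum_le_sum
    intro κ _
    split_ifs with h
    · rw [sub_zero]
      have := hLip (fun _ => 0) (fun _ => 0) (fun _ => le_rfl) (fun v => by simp) (fun _ => le_rfl)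
        (fun _ => zero_le_one) (c' κ) (c'' κ)
      have e0 : ∀ ω, Mx K ω (fun _ _ => (0 : ℝ) * 0) = 0 := by
        intro ω
        obtain ⟨l, hl⟩ := exists_Mx K ω (fun _ _ => (0 : ℝ) * 0)
        rw [hl]
        unfold val
        simp
      rw [e0, e0, sub_zero] at this
      exact this
    · exact hLip (fun χ => f (κ, χ)) (fun ρ => GE K f g s E c ρ κ) (fun χ => hf0 _)
        (fun v => (Finset.sum_le_sum (fun a _ => hf1 (κ, (v, a)))).trans (by simp))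
        (fun ρ => (GE_mem hK hg0 hg1 s E c ρ κ).1) (fun ρ => (GE_mem hK hg0 hg1 s E c ρ κ).2) _ _
  have h5 := avg_le_of h3
  linarith

/-- G1 -/
theorem main_ineq {K : Lab → Ω → α × A → α × A → ℝ} (hK : IsKer K)
    {p : Ω → α × A → α × A → ℝ} (hp0 : ∀ ω κ ρ, 0 ≤ p ω κ ρ) (hp1 : ∀ ω κ, ∑ ρ, p ω κ ρ ≤ 1)
    {σ : Lab → Ω → α → ℝ} (hσ0 : ∀ l ω v, 0 ≤ σ l ω v) (hσ1 : ∀ l ω v, σ l ω v ≤ 1)
    (hfac : ∀ l ω κ ρ, K l ω κ ρ = σ l ω κ.1 * p ω κ ρ)
    {γ : ℝ} (hγ : 0 ≤ γ) (hH : PropH K γ)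
    {D : Ω → Ω → ℝ} {V : ℝ} (hV : 0 < V) (hD : ∀ ω, D ω ω = 0) (hsub : SubG D V)
    (hLip : ∀ h g : α × A → ℝ, (∀ κ, 0 ≤ h κ) → (∀ v, ∑ c, h (v, c) ≤ Fintype.card A) →
      (∀ ρ, 0 ≤ g ρ) → (∀ ρ, g ρ ≤ 1) → ∀ ω ω',
      Mx K ω (fun χ ρ => h χ * g ρ) - Mx K ω' (fun χ ρ => h χ * g ρ) ≤ D ω ω')
    (m : ℕ) (hm : 0 < m) {L : ℝ} (hL : 0 < L)
    (hL2 : m * Fintype.card α * Real.log (Fintype.card Lab) ≤ L)
    (f g : (α × A) × (α × A) → ℝ) (hf0 : ∀ z, 0 ≤ f z) (hf1 : ∀ z, f z ≤ 1)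
    (hg0 : ∀ z, 0 ≤ g z) (hg1 : ∀ z, g z ≤ 1) :
    avg (fun ω => Mx (prodK K) ω (fun x y => f x * g y)) ≤ γ ^ 2 * nrm f * nrm g +
      (4 * (Fintype.card (α × A) : ℝ) ^ 2 / Real.sqrt m +
        m * Fintype.card α * Fintype.card (α × A) +
        2 * Real.sqrt (2 * (Fintype.card (α × A) * V) * L)) := by
  rcases isEmpty_or_nonempty α with hα | hα
  · have h1 : avg (fun ω => Mx (prodK K) ω (fun x y => f x * g y)) ≤ 0 := by
      apply avg_le_of
      intro ω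
      apply Mx_le
      intro l
      unfold val
      simp
    refine h1.trans ?_
    have := nrm_nonneg f
    have := nrm_nonneg g
    positivity
  · have h1 : avg (fun ω => Mx (prodK K) ω (fun x y => f x * g y)) ≤
        avg (fun ω : (α × A → Ω) × (α × A → Ω) =>
          avg (fun s : α → Fin m → A => Xi K f g s ω.1 ω.2) +
          avg (fun s : α → Fin m → A => ClM K f g s ω.1) +
          4 * (Fintype.card (α × A) : ℝ) ^ 2 / Real.sqrt m) :=
      avg_mono (fun ω => pointwise hm hK hp0 hp1 hσ0 hσ1 hfac f g hf0 hf1 hg0 hg1 ω.1 ω.2)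
    refine h1.trans ?_
    rw [avg_add, avg_add, avg_const, avg_prod, avg_prod]
    have h2 : avg (fun c : α × A → Ω => avg (fun r : α × A → Ω =>
        avg (fun s : α → Fin m → A => Xi K f g s c r))) ≤
        Real.sqrt (2 * (Fintype.card (α × A) * V) * L) := by
      apply avg_le_of
      intro c
      rw [avg_comm]
      apply avg_le_of
      intro s
      exact avg_Xi hm hK hV hD hsub hLip hL hL2 f g hf0 hf1 hg0 hg1 s c
    have h3 : avg (fun c : α × A → Ω => avg (fun r : α × A → Ω =>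
        avg (fun s : α → Fin m → A => ClM K f g s c))) ≤
        m * Fintype.card α * Fintype.card (α × A) +
      (γ ^ 2 * nrm f * nrm g + Real.sqrt (2 * (Fintype.card (α × A) * V) * L)) := by
      have e : ∀ c : α × A → Ω, avg (fun r : α × A → Ω =>
          avg (fun s : α → Fin m → A => ClM K f g s c)) =
          avg (fun s : α → Fin m → A => ClM K f g s c) := fun c => avg_const _
      simp only [e]
      rw [avg_comm]
      apply avg_le_of
      intro s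
      exact avg_ClM hm hK hγ hH hV hD hsub hLip hL hL2 f g hf0 hf1 hg0 hg1 s
    linarith

end main

end Pool.Agent.Helper64.RL
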