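import Pool.Agent.Helper64.RL.Defs

/-!
F1: kernel of the product (`ind_and`). F2: robustness of the product: choose `L'.1 κ`, `L'.2 ρ` by the
robustness of `C` for `(ω.1 κ, ω'.1 κ)`, `(ω.2 ρ, ω'.2 ρ)`. Entrywise
`max (k₁ k₂ - k₁' k₂') 0 ≤ max (k₁ - k₁') 0 * k₂ + k₁' * max (k₂ - k₂') 0`; sum the first term over `ψ`
first (`∑ ψ, k₂ ≤ 1`) and the second one over `χ` first (`∑ χ, k₁' ≤ 1`).
-/

namespace Pool.Agent.Helper64.RL

open Finset

set_option linter.unusedSectionVars false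
set_option linter.unusedVariables false

/-- F1: kernel of the product -/
theorem ker_prod {Ω β Lab : Type} (C : Lab → Ω → β → β → Prop) :
    ker (prodC C) = prodK (ker C) := by
  funext L ω p q
  simp only [ker, prodC, prodRel, prodK, ind_and]

/-- F2: robustness of the product -/
theorem Robust.prod {Ω β Lab : Type} [Fintype β] {C : Lab → Ω → β → β → Prop}
    (hK : IsKer (ker C)) {D : Ω → Ω → ℝ} (hR : Robust (ker C) D) :
    Robust (ker (prodC C)) (sumD (piD D) (piD D)) := by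
  intro ω ω' L
  choose l1 h1 using fun κ => hR (ω.1 κ) (ω'.1 κ) (L.1 κ)
  choose l2 h2 using fun ρ => hR (ω.2 ρ) (ω'.2 ρ) (L.2 ρ)
  refine ⟨(l1, l2), ?_⟩
  rw [ker_prod]
  -- the two kernels
  set k1 : β → β → β → ℝ := fun κ x y => ker C (L.1 κ) (ω.1 κ) x y with hk1
  set k1' : β → β → β → ℝ := fun κ x y => ker C (l1 κ) (ω'.1 κ) x y with hk1'
  set k2 : β → β → β → ℝ := fun ρ x y => ker C (L.2 ρ) (ω.2 ρ) x y with hk2
  set k2' : β → β → β → ℝ := fun ρ x y => ker C (l2 ρ) (ω'.2 ρ) x y with hk2'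
  have n1' : ∀ κ x y, 0 ≤ k1' κ x y := fun κ x y => hK.nonneg _ _ _ _
  have n2 : ∀ κ x y, 0 ≤ k2 κ x y := fun κ x y => hK.nonneg _ _ _ _
  have hent : ∀ a b a' b' : ℝ, 0 ≤ b → 0 ≤ a' →
      max (a * b - a' * b') 0 ≤ max (a - a') 0 * b + a' * max (b - b') 0 := by
    intro a b a' b' hb ha'
    apply max_le
    · have e : a * b - a' * b' = (a - a') * b + a' * (b - b') := by ring
      rw [e]
      exact add_le_add (mul_le_mul_of_nonneg_right (le_max_left _ _) hb)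
        (mul_le_mul_of_nonneg_left (le_max_left _ _) ha')
    · exact add_nonneg (mul_nonneg (le_max_right _ _) hb) (mul_nonneg ha' (le_max_right _ _))
  have hA : ∑ κ, ∑ χ, ∑ ρ, ∑ ψ, max (k1 κ χ ρ - k1' κ χ ρ) 0 * k2 ρ κ ψ ≤
      ∑ κ, D (ω.1 κ) (ω'.1 κ) := by
    apply Finset.sum_le_sum
    intro κ _
    refine le_trans ?_ (h1 κ)
    apply Finset.sum_le_sum
    intro χ _
    apply Finset.sum_le_sum
    intro ρ _
    rw [← Finset.mul_sum]
    exact mul_le_of_le_one_right (le_max_right _ _) (hK.row _ _ _)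
  have hB : ∑ κ, ∑ χ, ∑ ρ, ∑ ψ, k1' κ χ ρ * max (k2 ρ κ ψ - k2' ρ κ ψ) 0 ≤
      ∑ ρ, D (ω.2 ρ) (ω'.2 ρ) := by
    have e : ∑ κ, ∑ χ, ∑ ρ, ∑ ψ, k1' κ χ ρ * max (k2 ρ κ ψ - k2' ρ κ ψ) 0 =
        ∑ ρ, ∑ κ, ∑ ψ, (∑ χ, k1' κ χ ρ) * max (k2 ρ κ ψ - k2' ρ κ ψ) 0 := by
      calc ∑ κ, ∑ χ, ∑ ρ, ∑ ψ, k1' κ χ ρ * max (k2 ρ κ ψ - k2' ρ κ ψ) 0
          = ∑ κ, ∑ ρ, ∑ χ, ∑ ψ, k1' κ χ ρ * max (k2 ρ κ ψ - k2' ρ κ ψ) 0 := by
            apply Finset.sum_congr rfl
            intro κ _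
            rw [Finset.sum_comm]
        _ = ∑ κ, ∑ ρ, ∑ ψ, (∑ χ, k1' κ χ ρ) * max (k2 ρ κ ψ - k2' ρ κ ψ) 0 := by
            apply Finset.sum_congr rfl
            intro κ _
            apply Finset.sum_congr rfl
            intro ρ _
            rw [Finset.sum_comm]
            apply Finset.sum_congr rfl
            intro ψ _
            rw [Finset.sum_mul]
        _ = _ := by rw [Finset.sum_comm]
    rw [e]
    apply Finset.sum_le_sum
    intro ρ _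
    refine le_trans ?_ (h2 ρ)
    apply Finset.sum_le_sum
    intro κ _
    apply Finset.sum_le_sum
    intro ψ _
    exact mul_le_of_le_one_left (le_max_right _ _) (hK.col _ _ _)
  have hmain : ∑ p : β × β, ∑ q : β × β,
      max (prodK (ker C) L ω p q - prodK (ker C) (l1, l2) ω' p q) 0 ≤
      ∑ κ, ∑ χ, ∑ ρ, ∑ ψ, max (k1 κ χ ρ - k1' κ χ ρ) 0 * k2 ρ κ ψ +
      ∑ κ, ∑ χ, ∑ ρ, ∑ ψ, k1' κ χ ρ * max (k2 ρ κ ψ - k2' ρ κ ψ) 0 := by
    rw [Fintype.sum_prod_type]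
    simp only [Fintype.sum_prod_type]
    rw [← Finset.sum_add_distrib]
    apply Finset.sum_le_sum
    intro κ _
    rw [← Finset.sum_add_distrib]
    apply Finset.sum_le_sum
    intro χ _
    rw [← Finset.sum_add_distrib]
    apply Finset.sum_le_sum
    intro ρ _
    rw [← Finset.sum_add_distrib]
    apply Finset.sum_le_sum
    intro ψ _
    exact hent _ _ _ _ (n2 _ _ _) (n1' _ _ _)
  exact hmain.trans (add_le_add hA hB)

end Pool.Agent.Helper64.RL
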