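import Pool.Agent.Helper64.RL.AvgPi

/-!
F3, F4: the entry of the product at `((κ, χ), (ρ, ψ))` is
`ind (P (cols κ) χ ρ) * ind (P (rows ρ) κ ψ)` with independent uniform `cols`, `rows`, so its average is
`u χ ρ * u κ ψ` with `u x y = avg (fun ω => ind (P ω x y))` (`avg_prod`, `avg_pi_eval`).
-/

namespace Pool.Agent.Helper64.RL

open Finset

set_option linter.unusedSectionVars false
set_option linter.unusedVariables false

/-- the average of an entry of the product -/
theorem avg_prod_entry {Ω β : Type} [Fintype Ω] [Nonempty Ω] [Fintype β] [DecidableEq β]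
    (P : Ω → β → β → Prop) (p q : β × β) :
    avg (fun ω => kerP (prodP P) ω p q) =
      avg (fun ω => kerP P ω p.2 q.1) * avg (fun ω => kerP P ω p.1 q.2) := by
  have h1 : ∀ ω : (β → Ω) × (β → Ω), kerP (prodP P) ω p q =
      kerP P (ω.1 p.1) p.2 q.1 * kerP P (ω.2 q.1) p.1 q.2 := by
    intro ω
    unfold kerP prodP prodRel
    exact ind_and _ _
  simp only [h1]
  rw [avg_prod]
  simp only [avg_mul_left]
  rw [avg_mul_right]
  rw [avg_pi_eval p.1 (fun ω => kerP P ω p.2 q.1), avg_pi_eval q.1 (fun ω => kerP P ω p.1 q.2)]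

/-- F3: uniformity of the product -/
theorem PropU.prod {Ω β : Type} [Fintype Ω] [Nonempty Ω] [Fintype β] [DecidableEq β]
    {P : Ω → β → β → Prop} {m : ℝ} (hm : 0 < m) (h : PropU (kerP P) m) :
    PropU (kerP (prodP P)) (m ^ 2) := by
  intro p q
  rw [avg_prod_entry]
  have h1 := h p.2 q.1
  have h2 := h p.1 q.2
  have h3 : 0 ≤ avg (fun ω => kerP P ω p.1 q.2) := avg_nonneg (fun ω => ind_nonneg _)
  calc avg (fun ω => kerP P ω p.2 q.1) * avg (fun ω => kerP P ω p.1 q.2)
      ≤ (1 / m) * (1 / m) := mul_le_mul h1 h2 h3 (by positivity)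
    _ = 1 / m ^ 2 := by field_simp

/-- F4: number of points of the product -/
theorem size_prod {Ω β : Type} [Fintype Ω] [Nonempty Ω] [Fintype β] [DecidableEq β]
    (P : Ω → β → β → Prop) :
    avg (fun ω => ∑ x, ∑ y, kerP (prodP P) ω x y) =
      (avg (fun ω => ∑ x, ∑ y, kerP P ω x y)) ^ 2 := by
  rw [avg_sum]
  simp only [avg_sum]
  simp only [avg_prod_entry]
  rw [Fintype.sum_prod_type]
  simp only [Fintype.sum_prod_type, sq]
  set u : β → β → ℝ := fun x y => avg (fun ω => kerP P ω x y) with hu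
  have h1 : ∀ x y, avg (fun ω => kerP P ω x y) = u x y := fun x y => rfl
  simp only [h1]
  have h2 : ∀ κ χ : β, ∑ ρ, ∑ ψ, u χ ρ * u κ ψ = (∑ ρ, u χ ρ) * (∑ ψ, u κ ψ) := by
    intro κ χ
    rw [Finset.sum_mul_sum]
  simp only [h2]
  rw [Finset.sum_mul_sum]
  rw [Finset.sum_comm]

end Pool.Agent.Helper64.RL
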