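import Pool.Agent.Helper64.RL.SubGBlow
import Pool.Agent.Helper64.RL.GeoBlow
import Pool.Agent.Helper64.RL.GeoProd
import Pool.Agent.Helper64.RL.BlowH
import Pool.Agent.Helper64.RL.BlowU
import Pool.Agent.Helper64.RL.BlowLip
import Pool.Agent.Helper64.RL.ProdRob
import Pool.Agent.Helper64.RL.ProdU
import Pool.Agent.Helper64.RL.Convert
import Pool.Agent.Helper64.RL.MainIneq

/-!
I1: one step of the construction, the assembly of all blocks. Given the structure on `α`, take
`β = α × Fin (2 b)`, `Ω₁ = BΩ Ω α b`, `P₁ = blowP b P`, `C₁ = blowC b C`, then the new structure is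
`Ω' = (β → Ω₁) × (β → Ω₁)`, `α' = β × β`, `Lab' = (β → Lab) × (β → Lab)`, `lt' = lexlt lt₁ lt₁`,
`P' = prodP P₁`, `C' = prodC C₁`, `D' = sumD (piD D₁) (piD D₁)` with `D₁ = b * blowD b D`.
`PropH`: apply `convert` with `η = γ ^ 2`, `m' = (m b) ^ 2`, `ε = ` the error of `main_ineq`, applied
with `K = ker C₁`, `A = Fin (2 b)`, `p = kerP P₁`, `σ l ω v = ∑ y, ker C l ω.1 v y` (factorization:
`P ω` is injective and `C l ω ⊆ P ω`), distance `2 b * blowD b D` with `V₁ = (2 b) ^ 2 (V + 2 N)`
(`SubG.smul`, `subG_blowD`, `lip_blow` with `R = 2 b`), samples of size `s`, `L = s N (κ N)`. With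
`n = 2 b N` the error divided by `n ^ 2` is `4 / √s + s / (2 b) + 2 √(2 s (V / N + 2) κ / (2 b))`.
-/

namespace Pool.Agent.Helper64.RL

open Finset

set_option linter.unusedSectionVars false
set_option linter.unusedVariables false

/-- good random structures with given parameters -/
def Str (N : ℕ) (γ m V κ e : ℝ) : Prop :=
  ∃ (Ω α Lab : Type) (_ : Fintype Ω) (_ : Nonempty Ω) (_ : Fintype α) (_ : DecidableEq α)
    (_ : Fintype Lab) (_ : Nonempty Lab) (lt : α → α → Prop) (P : Ω → α → α → Prop)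
    (C : Lab → Ω → α → α → Prop) (D : Ω → Ω → ℝ),
    Geo lt P C ∧ Fintype.card α = N ∧ PropH (ker C) γ ∧ PropU (kerP P) m ∧ SubG D V ∧
    (∀ ω, D ω ω = 0) ∧ Robust (ker C) D ∧ Real.log (Fintype.card Lab) ≤ κ * N ∧
    avg (fun ω => ∑ x, ∑ y, kerP P ω x y) = e

/-- the sum of the indicators of a relation with at most one solution -/
theorem sum_ind_le_one {α : Type*} [Fintype α] [DecidableEq α] (R : α → Prop)
    (h : ∀ y y', R y → R y' → y = y') : ∑ y, ind (R y) ≤ 1 := by
  by_cases hex : ∃ y, R y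
  · obtain ⟨y0, hy0⟩ := hex
    have h1 : ∑ y, ind (R y) = ind (R y0) := by
      apply Finset.sum_eq_single y0
      · intro y _ hy
        apply ind_false
        intro h2
        exact hy (h _ _ h2 hy0)
      · intro h2
        exact absurd (Finset.mem_univ _) h2
    rw [h1]
    exact ind_le_one _
  · have h1 : ∑ y, ind (R y) = 0 := by
      apply Finset.sum_eq_zero
      intro y _
      apply ind_false
      intro h2
      exact hex ⟨y, h2⟩
    rw [h1]
    norm_num

/-- the factorization of the kernel of the blow-up -/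
theorem ker_blow_fac {Ω α Lab : Type} [Fintype α] [DecidableEq α] {lt : α → α → Prop}
    {P : Ω → α → α → Prop} {C : Lab → Ω → α → α → Prop} (h : Geo lt P C) (b : ℕ) (l : Lab)
    (ω : BΩ Ω α b) (κ ρ : α × Fin (2 * b)) :
    ker (blowC b C) l ω κ ρ =
      (∑ y, ker C l ω.1 κ.1 y) * kerP (blowP b P) ω κ ρ := by
  unfold ker kerP blowC blowP blowRel
  rw [ind_and, ind_and, ← mul_assoc]
  congr 1
  by_cases hP : P ω.1 κ.1 ρ.1
  · rw [ind_true hP, mul_one]
    symm
    apply Finset.sum_eq_single ρ.1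
    · intro y _ hy
      apply ind_false
      intro h2
      exact hy (h.inj1 _ _ _ _ (h.sub _ _ _ _ h2) hP)
    · intro h2
      exact absurd (Finset.mem_univ _) h2
  · rw [ind_false hP, mul_zero]
    apply ind_false
    intro h2
    exact hP (h.sub _ _ _ _ h2)

/-- numerical part: the error of the main inequality -/
theorem step_num {N b s : ℕ} (hN : 0 < N) (hb : 0 < b) (hs : 0 < s) {γ m V κ : ℝ}
    (hV : 0 < V) (hκ : 0 < κ)
    (hε : 4 / Real.sqrt s + s / (2 * b) + 2 * Real.sqrt (2 * s * (V / N + 2) * κ / (2 * b)) ≤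
      γ ^ 8 * (m / N) ^ 2 / 4) (n : ℝ) (hn : n = 2 * b * N) :
    4 * n ^ 2 / Real.sqrt s + s * N * n +
        2 * Real.sqrt (2 * (n * ((2 * b) ^ 2 * (V + 2 * N))) * (s * N * (κ * N))) ≤
      (γ ^ 2) ^ 4 * (m * b) ^ 2 := by
  have hN' : (0 : ℝ) < N := by exact_mod_cast hN
  have hb' : (0 : ℝ) < b := by exact_mod_cast hb
  have hs' : (0 : ℝ) < s := by exact_mod_cast hs
  have hn0 : 0 < n := by rw [hn]; positivity
  have hsq : 0 < Real.sqrt s := Real.sqrt_pos.mpr hs'
  have e1 : 2 * (n * ((2 * b) ^ 2 * (V + 2 * N))) * (s * N * (κ * N)) =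
      (n ^ 2) ^ 2 * (2 * s * (V / N + 2) * κ / (2 * b)) := by
    rw [hn]
    field_simp
  have e2 : Real.sqrt (2 * (n * ((2 * b) ^ 2 * (V + 2 * N))) * (s * N * (κ * N))) =
      n ^ 2 * Real.sqrt (2 * s * (V / N + 2) * κ / (2 * b)) := by
    rw [e1, Real.sqrt_mul (by positivity), Real.sqrt_sq (by positivity)]
  rw [e2]
  have e3 : 4 * n ^ 2 / Real.sqrt s + s * N * n +
      2 * (n ^ 2 * Real.sqrt (2 * s * (V / N + 2) * κ / (2 * b))) =
      n ^ 2 * (4 / Real.sqrt s + s / (2 * b) +
        2 * Real.sqrt (2 * s * (V / N + 2) * κ / (2 * b))) := by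
    have : (s : ℝ) * N * n = n ^ 2 * (s / (2 * b)) := by
      rw [hn]
      field_simp
    rw [this]
    ring
  rw [e3]
  have e4 : (γ ^ 2) ^ 4 * (m * b) ^ 2 = n ^ 2 * (γ ^ 8 * (m / N) ^ 2 / 4) := by
    rw [hn]
    field_simp
    ring
  rw [e4]
  exact mul_le_mul_of_nonneg_left hε (by positivity)

/-- I1: one step; `s` is the size of the samples -/
theorem Str.step {N : ℕ} {γ m V κ e : ℝ} (h : Str N γ m V κ e) (hN : 0 < N) (hγ : 0 < γ)
    (hγ1 : γ < 1) (hm : 0 < m) (hV : 0 < V) (hκ : 0 < κ) (b : ℕ) (hb : 0 < b) (s : ℕ) (hs : 0 < s)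
    (hε : 4 / Real.sqrt s + s / (2 * b) + 2 * Real.sqrt (2 * s * (V / N + 2) * κ / (2 * b)) ≤
      γ ^ 8 * (m / N) ^ 2 / 4) :
    Str ((2 * b * N) ^ 2) (8 * γ ^ 2) ((m * b) ^ 2) (2 * (2 * b * N) * (b ^ 2 * (V + 2 * N)))
      (κ / b) ((b * e) ^ 2) := by
  obtain ⟨Ω, α, Lab, iΩ, iΩ', iα, iα', iL, iL', lt, P, C, D, hgeo, hcard, hH, hU, hS, hD0, hR,
    hLab, hE⟩ := h
  have : Nonempty (Fin b) := ⟨⟨0, hb⟩⟩
  have : Nonempty (Fin (2 * b)) := ⟨⟨0, by omega⟩⟩
  have hN' : (0 : ℝ) < N := by exact_mod_cast hN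
  have hb' : (0 : ℝ) < b := by exact_mod_cast hb
  have hs' : (0 : ℝ) < s := by exact_mod_cast hs
  have hcard' : (Fintype.card α : ℝ) = N := by exact_mod_cast hcard
  -- the blow-up
  have hgeo1 := hgeo.blow b
  have hker := hgeo.isKer
  have hker1 := hgeo1.isKer
  have hH1 : PropH (ker (blowC b C)) γ := PropH.blow hγ.le hH b hb
  have hU1 : PropU (kerP (blowP b P)) (m * b) := PropU.blow hU b hb
  have hS0 : SubG (blowD (α := α) b D) (V + 2 * N) := by
    have := subG_blowD (α := α) b hb hS hD0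
    rwa [hcard'] at this
  have hbD0 : ∀ ω, blowD (α := α) b D ω ω = 0 := by
    intro ω
    unfold blowD
    simp [hD0]
  have hS1 : SubG (fun ω ω' => (b : ℝ) * blowD (α := α) b D ω ω') (b ^ 2 * (V + 2 * N)) :=
    hS0.smul hb'
  have hD1 : ∀ ω, (fun ω ω' => (b : ℝ) * blowD (α := α) b D ω ω') ω ω = 0 := by
    intro ω
    simp only
    rw [hbD0, mul_zero]
  have hR1 : Robust (ker (blowC b C)) (fun ω ω' => (b : ℝ) * blowD (α := α) b D ω ω') :=
    Robust.blow hker hR b hb
  have hS2 : SubG (fun ω ω' => (2 * b : ℝ) * blowD (α := α) b D ω ω')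
      ((2 * b) ^ 2 * (V + 2 * N)) := hS0.smul (by positivity)
  have hcardβ : (Fintype.card (α × Fin (2 * b)) : ℝ) = 2 * b * N := by
    rw [Fintype.card_prod, Fintype.card_fin, hcard]
    push_cast
    ring
  -- the product
  have hgeo2 := hgeo1.prod
  have hU2 : PropU (kerP (prodP (blowP b P))) ((m * b) ^ 2) := hU1.prod (by positivity)
  have hR2 : Robust (ker (prodC (blowC b C)))
      (sumD (piD (fun ω ω' => (b : ℝ) * blowD (α := α) b D ω ω'))
        (piD (fun ω ω' => (b : ℝ) * blowD (α := α) b D ω ω'))) := Robust.prod hker1 hR1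
  have hpi0 : ∀ c : α × Fin (2 * b) → BΩ Ω α b,
      piD (fun ω ω' => (b : ℝ) * blowD (α := α) b D ω ω') c c = 0 := by
    intro c
    unfold piD
    apply Finset.sum_eq_zero
    intro i _
    exact hD1 _
  have hpi : SubG (piD (ι := α × Fin (2 * b)) (fun ω ω' => (b : ℝ) * blowD (α := α) b D ω ω'))
      ((2 * b * N) * (b ^ 2 * (V + 2 * N))) := by
    have := SubG.piD (ι := α × Fin (2 * b)) hS1 hD1
    rwa [hcardβ] at this
  refine ⟨(α × Fin (2 * b) → BΩ Ω α b) × (α × Fin (2 * b) → BΩ Ω α b),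
    (α × Fin (2 * b)) × (α × Fin (2 * b)),
    (α × Fin (2 * b) → Lab) × (α × Fin (2 * b) → Lab),
    inferInstance, inferInstance, inferInstance, inferInstance, inferInstance, inferInstance,
    lexlt (lexlt lt (fun i j : Fin (2 * b) => i < j)) (lexlt lt (fun i j : Fin (2 * b) => i < j)),
    prodP (blowP b P), prodC (blowC b C),
    sumD (piD (fun ω ω' => (b : ℝ) * blowD (α := α) b D ω ω'))
      (piD (fun ω ω' => (b : ℝ) * blowD (α := α) b D ω ω')),
    hgeo2, ?_, ?_, hU2, ?_, ?_, hR2, ?_, ?_⟩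
  · rw [Fintype.card_prod, Fintype.card_prod, Fintype.card_fin, hcard]
    ring
  · -- the two-sided bound
    have hn0 : (0 : ℝ) < Fintype.card (α × Fin (2 * b)) := by
      rw [hcardβ]; positivity
    refine convert (p := kerP (prodP (blowP b P))) (m := (m * b) ^ 2) hgeo2.isKer
      (fun l ω x y => ind_mono (hgeo2.sub l ω x y)) (by positivity) (by nlinarith)
      (by positivity) hU2 (step_num hN hb hs hV hκ hε _ hcardβ) ?_
    intro f g hf0 hf1 hg0 hg1
    rw [ker_prod]
    have hmain := main_ineq (K := ker (blowC b C)) hker1 (p := kerP (blowP b P))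
      (fun ω κ ρ => ind_nonneg _)
      (fun ω κ => sum_ind_le_one _ (fun y y' h1 h2 => hgeo1.inj1 ω κ y y' h1 h2))
      (σ := fun l ω v => ∑ y, ker C l ω.1 v y)
      (fun l ω v => Finset.sum_nonneg (fun y _ => hker.nonneg _ _ _ _))
      (fun l ω v => hker.row l ω.1 v)
      (fun l ω κ ρ => ker_blow_fac hgeo b l ω κ ρ)
      hγ.le hH1 (D := fun ω ω' => (2 * b : ℝ) * blowD (α := α) b D ω ω')
      (V := (2 * b) ^ 2 * (V + 2 * N)) (by positivity)
      (fun ω => by rw [hbD0, mul_zero]) hS2 ?_ s hs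
      (L := s * N * (κ * N)) (by positivity) ?_ f g hf0 hf1 hg0 hg1
    · rw [hcard'] at hmain
      exact hmain
    · intro h g hh0 hh1 hg0 hg1 ω ω'
      refine lip_blow hker hR b hb (by positivity) (fun χ ρ => h χ * g ρ)
        (fun χ ρ => mul_nonneg (hh0 _) (hg0 _)) ?_ ω ω'
      intro x y a a'
      have hT := TT_sums b a a'
      calc ∑ c, ∑ c', ind (TT b a a' c c') * (h (x, c) * g (y, c'))
          ≤ ∑ c, h (x, c) := by
            apply Finset.sum_le_sum
            intro c _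
            calc ∑ c', ind (TT b a a' c c') * (h (x, c) * g (y, c'))
                ≤ ∑ c', h (x, c) * ind (TT b a a' c c') := by
                  apply Finset.sum_le_sum
                  intro c' _
                  have h1 : h (x, c) * g (y, c') ≤ h (x, c) * 1 :=
                    mul_le_mul_of_nonneg_left (hg1 _) (hh0 _)
                  calc ind (TT b a a' c c') * (h (x, c) * g (y, c'))
                      ≤ ind (TT b a a' c c') * (h (x, c) * 1) :=
                        mul_le_mul_of_nonneg_left h1 (ind_nonneg _)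
                    _ = h (x, c) * ind (TT b a a' c c') := by ring
              _ = h (x, c) * ∑ c', ind (TT b a a' c c') := by rw [Finset.mul_sum]
              _ ≤ h (x, c) * 1 := mul_le_mul_of_nonneg_left (hT.1 c) (hh0 _)
              _ = h (x, c) := mul_one _
        _ ≤ (Fintype.card (Fin (2 * b)) : ℝ) := hh1 x
        _ = 2 * b := by
            rw [Fintype.card_fin]
            push_cast
            ring
    · rw [hcard']
      exact mul_le_mul_of_nonneg_left hLab (by positivity)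
  · have := hpi.sumD hpi hpi0 hpi0
    have e1 : (2 * b * N) * (b ^ 2 * (V + 2 * N)) + (2 * b * N) * (b ^ 2 * (V + 2 * N)) =
        2 * (2 * b * N) * (b ^ 2 * (V + 2 * N)) := by ring
    rwa [e1] at this
  · intro ω
    unfold sumD
    rw [hpi0, hpi0, add_zero]
  · have hL0 : (0 : ℝ) < Fintype.card Lab := by exact_mod_cast Fintype.card_pos
    rw [Fintype.card_prod, Fintype.card_fun, Nat.cast_mul, Nat.cast_pow,
      Real.log_mul (by positivity) (by positivity), Real.log_pow, hcardβ]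
    have h1 : (2 * b * N : ℝ) * Real.log (Fintype.card Lab) ≤ (2 * b * N) * (κ * N) :=
      mul_le_mul_of_nonneg_left hLab (by positivity)
    have e1 : κ / b * ((2 * b * N : ℕ) ^ 2 : ℕ) = 2 * ((2 * b * N) * (κ * N)) := by
      push_cast
      field_simp
    rw [e1]
    linarith
  · rw [size_prod, size_blow P b hb, hE]

end Pool.Agent.Helper64.RL
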