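import Pool.Agent.Helper64.RL.SubGRange
import Pool.Agent.Helper64.RL.SubGProd

/-!
B5: the distance of the blow-up. It is `sumD D (sumD (piD d₁) (piD d₁))` up to the order of
the sums, where `d₁ i j = if i = j then 0 else 1` on `Fin b`; use B1 (with `R = 1`), B3, B2 from the
imported files (their sorries are being replaced in parallel). Proof: helper30.
-/

namespace Pool.Agent.Helper64.RL

open Finset

set_option linter.unusedSectionVars false
set_option linter.unusedVariables false

/-- B5: the distance of the blow-up -/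
theorem subG_blowD {Ω α : Type} [Fintype Ω] [Nonempty Ω] [Fintype α] [DecidableEq α] (b : ℕ)
    (hb : 0 < b) {D : Ω → Ω → ℝ} {V : ℝ} (h : SubG D V) (hD : ∀ ω, D ω ω = 0) :
    SubG (blowD (α := α) b D) (V + 2 * Fintype.card α) := by
  classical
  have : Nonempty (Fin b) := ⟨⟨0, hb⟩⟩
  have h1 : SubG (fun i j : Fin b => if i = j then (0 : ℝ) else 1) (1 ^ 2) := by
    have := subG_range (Ω := Fin b) (R := 1) zero_le_one
    convert this
  have h2 : SubG (piD (ι := α) (fun i j : Fin b => if i = j then (0 : ℝ) else 1))
      (Fintype.card α * 1 ^ 2) := SubG.piD h1 (fun i => by simp)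
  have h0 : ∀ ω : α → Fin b,
      piD (fun i j : Fin b => if i = j then (0 : ℝ) else 1) ω ω = 0 := by
    intro ω
    unfold piD
    simp
  have h3 := SubG.sumD h2 h2 h0 h0
  have h4 := SubG.sumD h h3 hD (fun ω => by
    unfold sumD
    rw [h0, h0, add_zero])
  have hV : V + ((Fintype.card α : ℝ) * 1 ^ 2 + Fintype.card α * 1 ^ 2) =
      V + 2 * Fintype.card α := by ring
  rw [hV] at h4
  have hfun : blowD (α := α) b D = sumD D (sumD
      (piD (ι := α) (fun i j : Fin b => if i = j then (0 : ℝ) else 1))
      (piD (ι := α) (fun i j : Fin b => if i = j then (0 : ℝ) else 1))) := by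
    funext ω ω'
    unfold blowD sumD piD
    rw [add_assoc]
  rw [hfun]
  exact h4

end Pool.Agent.Helper64.RL
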