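import Pool.Agent.Helper64.RL.Defs

/-!
B1: functions of bounded range are sub-Gaussian (with the crude constant `R ^ 2`).
Proof: `exp (t (Φ ω - avg Φ)) ≤ avg over ω' of exp (t (Φ ω - Φ ω'))` (Jensen for `exp`, e.g. from
`Real.add_one_le_exp` applied to the difference with the mean, or `convexOn_exp.map_sum_le`); averaging
over `ω` and symmetrizing, the double average equals the double average of
`cosh (t (Φ ω - Φ ω'))`, and `Real.cosh_le_exp_half_sq` gives `≤ exp (t ^ 2 R ^ 2 / 2)` because
`|Φ ω - Φ ω'| ≤ R`.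
-/

namespace Pool.Agent.Helper64.RL

open Finset

set_option linter.unusedSectionVars false
set_option linter.unusedVariables false

/-- Jensen's inequality for the exponential function and uniform averages. -/
theorem exp_avg_le {Ω : Type*} [Fintype Ω] [Nonempty Ω] (f : Ω → ℝ) :
    Real.exp (avg f) ≤ avg (fun ω => Real.exp (f ω)) := by
  have h : ∀ ω, Real.exp (avg f) * ((f ω - avg f) + 1) ≤ Real.exp (f ω) := by
    intro ω
    have h1 := Real.add_one_le_exp (f ω - avg f)
    calc Real.exp (avg f) * ((f ω - avg f) + 1)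
        ≤ Real.exp (avg f) * Real.exp (f ω - avg f) :=
          mul_le_mul_of_nonneg_left h1 (Real.exp_pos _).le
      _ = Real.exp (f ω) := by rw [← Real.exp_add]; congr 1; ring
  have h2 := avg_mono h
  rw [avg_mul_left, avg_add, avg_sub, avg_const, avg_const] at h2
  linarith

open Classical in
/-- B1: bounded range -/
theorem subG_range {Ω : Type} [Fintype Ω] [Nonempty Ω] {R : ℝ} (hR : 0 ≤ R) :
    SubG (fun ω ω' : Ω => if ω = ω' then (0 : ℝ) else R) (R ^ 2) := by
  intro Φ hΦ t
  have hle : ∀ ω ω', Φ ω - Φ ω' ≤ R := by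
    intro ω ω'
    refine (hΦ ω ω').trans ?_
    by_cases h : ω = ω'
    · simp only [h, if_true]
      exact hR
    · simp only [h, if_false]
      exact le_rfl
  have hsq : ∀ ω ω', (t * (Φ ω - Φ ω')) ^ 2 ≤ t ^ 2 * R ^ 2 := by
    intro ω ω'
    rw [mul_pow]
    refine mul_le_mul_of_nonneg_left ?_ (sq_nonneg t)
    apply sq_le_sq'
    · have := hle ω' ω
      linarith
    · exact hle ω ω'
  have h1 : avg (fun ω => Real.exp (t * (Φ ω - avg Φ))) ≤
      avg (fun ω => avg (fun ω' => Real.exp (t * (Φ ω - Φ ω')))) := by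
    apply avg_mono
    intro ω
    have h2 := exp_avg_le (fun ω' => t * (Φ ω - Φ ω'))
    rw [avg_mul_left, avg_sub, avg_const] at h2
    exact h2
  have h3 : avg (fun ω => avg (fun ω' => Real.exp (t * (Φ ω - Φ ω')))) =
      avg (fun ω => avg (fun ω' => Real.exp (-(t * (Φ ω - Φ ω'))))) := by
    rw [avg_comm]
    congr 1
    funext ω
    congr 1
    funext ω'
    congr 1
    ring
  have h4 : avg (fun ω => avg (fun ω' => Real.exp (t * (Φ ω - Φ ω')))) =
      avg (fun ω => avg (fun ω' => Real.cosh (t * (Φ ω - Φ ω')))) := by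
    have h5 : avg (fun ω => avg (fun ω' => Real.cosh (t * (Φ ω - Φ ω')))) =
        (avg (fun ω => avg (fun ω' => Real.exp (t * (Φ ω - Φ ω')))) +
          avg (fun ω => avg (fun ω' => Real.exp (-(t * (Φ ω - Φ ω')))))) / 2 := by
      rw [← avg_add, div_eq_mul_inv, ← avg_mul_right]
      congr 1
      funext ω
      rw [← avg_add, ← avg_mul_right]
      congr 1
      funext ω'
      rw [Real.cosh_eq]
      ring
    rw [h5, ← h3]
    ring
  refine h1.trans ?_
  rw [h4]
  apply avg_le_of
  intro ω
  apply avg_le_of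
  intro ω'
  refine (Real.cosh_le_exp_half_sq _).trans ?_
  apply Real.exp_le_exp.2
  have := hsq ω ω'
  linarith

end Pool.Agent.Helper64.RL
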